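import Pool.Agent.Y763.HB.S4

/-! Lower bounds for the limit of the averaged variance. -/

set_option autoImplicit false
set_option maxHeartbeats 2000000

open Complex Filter Topology Set MeasureTheory

namespace Pool.Agent.Y763.HB

open Pool.Agent.W120.WM (ZC NT)
open Pool.Agent.Y763.GC (aa bb wt cc cc_nonneg)
open Pool.Agent.TH223.AP (SS)

lemma bb_ge (hZ : ZC) {α β : ℝ} (hα : 0 < α) (hβ : 0 < β) (Z : Finset NT) :
    ∑ ρ ∈ Z, cc ρ * (√(α * β) * (2 - 2 * Real.cos ((ρ : ℂ).im * Real.log (β / α)))) ≤ bb α β := by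
  have hs := Pool.Agent.Y763.GC.bb_summ hZ hα hβ
  unfold bb
  refine le_trans (Finset.sum_le_sum fun ρ _ => ?_)
    (hs.sum_le_tsum Z fun ρ _ => mul_nonneg (Pool.Agent.Y763.GC.wt_nonneg _ _ _) (by positivity))
  rw [Pool.Agent.Y763.GC.wt_eq hα hβ (hZ.1 ρ ρ.2).1]
  have h1 := cc_nonneg ρ
  have h2 : cc ρ = 1 / ‖(ρ : ℂ) * deriv riemannZeta ρ‖ ^ 2 := rfl
  rw [← h2]
  have h3 : 0 ≤ (√β - √α) ^ 2 * cc ρ := by positivity
  nlinarith

lemma aa_ge_sum (hZ : ZC) {T : ℝ} (hT : 1 ≤ T) (Z : Finset NT) :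
    ∑ ρ ∈ Z, cc ρ * KT T (ρ : ℂ).im ≤ aa T := by
  have hT0 : 0 < T := by linarith
  have hcont : ∀ ρ : NT, ContinuousOn (fun u : ℝ => cc ρ * (√((u - 1 / (2 * T)) * (u + 1 / (2 * T))) *
      (2 - 2 * Real.cos ((ρ : ℂ).im * Real.log ((u + 1 / (2 * T)) / (u - 1 / (2 * T))))))) (Icc 1 2) := by
    intro ρ
    have h2 : ContinuousOn (fun u : ℝ => Real.log ((u + 1 / (2 * T)) / (u - 1 / (2 * T)))) (Icc 1 2) := by
      refine ContinuousOn.log (ContinuousOn.div (by fun_prop) (by fun_prop) ?_) ?_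
      · intro u hu
        exact (Pool.Agent.Y763.GC.window hT hu).1.ne'
      · intro u hu
        obtain ⟨a, b, -⟩ := Pool.Agent.Y763.GC.window hT hu
        positivity
    have h3 : ContinuousOn (fun u : ℝ => Real.cos ((ρ : ℂ).im * Real.log ((u + 1 / (2 * T)) / (u - 1 / (2 * T))))) (Icc 1 2) :=
      Real.continuous_cos.comp_continuousOn (continuousOn_const.mul h2)
    exact continuousOn_const.mul (ContinuousOn.mul (by fun_prop) (continuousOn_const.sub (continuousOn_const.mul h3)))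
  have hint : ∀ ρ : NT, IntervalIntegrable (fun u : ℝ => cc ρ * (√((u - 1 / (2 * T)) * (u + 1 / (2 * T))) *
      (2 - 2 * Real.cos ((ρ : ℂ).im * Real.log ((u + 1 / (2 * T)) / (u - 1 / (2 * T))))))) volume 1 2 := by
    intro ρ
    refine ContinuousOn.intervalIntegrable ?_
    rw [uIcc_of_le one_le_two]
    exact hcont ρ
  have e : ∑ ρ ∈ Z, cc ρ * KT T (ρ : ℂ).im = T * ∫ u in (1:ℝ)..2, ∑ ρ ∈ Z, cc ρ *
      (√((u - 1 / (2 * T)) * (u + 1 / (2 * T))) *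
      (2 - 2 * Real.cos ((ρ : ℂ).im * Real.log ((u + 1 / (2 * T)) / (u - 1 / (2 * T)))))) := by
    rw [intervalIntegral.integral_finsetSum (fun ρ _ => hint ρ), Finset.mul_sum]
    refine Finset.sum_congr rfl fun ρ _ => ?_
    unfold KT
    rw [intervalIntegral.integral_const_mul]
    ring
  rw [e]
  unfold aa
  refine mul_le_mul_of_nonneg_left ?_ hT0.le
  refine intervalIntegral.integral_mono_on one_le_two ?_ ?_ (fun u hu => ?_)
  · refine ContinuousOn.intervalIntegrable ?_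
    rw [uIcc_of_le one_le_two]
    exact continuousOn_finsetSum _ fun ρ _ => hcont ρ
  · refine ContinuousOn.intervalIntegrable ?_
    rw [uIcc_of_le one_le_two]
    exact Pool.Agent.Y763.GC.bb_contOn hZ hT
  · obtain ⟨a, b, -⟩ := Pool.Agent.Y763.GC.window hT hu
    exact bb_ge hZ a b Z

/-- the limit of the averaged variance is at least a smooth sum over the zeros -/
theorem aa_low (hZ : ZC) {P : Polynomial ℝ} (hP : ∀ y ∈ Icc (0:ℝ) 1, 0 ≤ P.eval y) {T δ : ℝ} (hT : 1 ≤ T)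
    (hδ1 : δ < 1)
    (hK : ∀ g : ℝ, (1 - δ) * (g ^ 2 / T) * ph P (g / T) ≤ KT T g) :
    (1 - δ) / T * ((∑' ρ : NT, zz ρ * ph P ((ρ : ℂ).im / T)) - CP P * SS) ≤ aa T := by
  have hT0 : 0 < T := by linarith
  have hCP := CP_nonneg P
  have hd : 0 < 1 - δ := by linarith
  have hph : ∀ y : ℝ, ph P (y / T) ≤ CP P := by
    intro y
    have h1 := (le_abs_self _).trans (ph_decay P hT y)
    have h2 : Real.exp (-(1 / T ^ 2) * y ^ 2) ≤ 1 := by
      rw [Real.exp_le_one_iff]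
      have : 0 ≤ 1 / T ^ 2 * y ^ 2 := by positivity
      linarith
    exact h1.trans (mul_le_of_le_one_right hCP h2)
  have s1 := zz_summ hZ P hT
  have s2 : Summable fun ρ : NT => cc ρ * ph P ((ρ : ℂ).im / T) := by
    refine Summable.of_nonneg_of_le (fun ρ => mul_nonneg (cc_nonneg ρ) (ph_nonneg hP _)) (fun ρ => ?_)
      (hZ.2.mul_left (CP P))
    have h1 := hph (ρ : ℂ).im
    have h2 := cc_nonneg ρ
    calc cc ρ * ph P ((ρ : ℂ).im / T) ≤ cc ρ * CP P := by gcongr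
      _ = CP P * (1 / ‖(ρ : ℂ) * deriv riemannZeta ρ‖ ^ 2) := by unfold cc; ring
  have h3 : ∑' ρ : NT, cc ρ * ph P ((ρ : ℂ).im / T) ≤ CP P * SS := by
    unfold SS
    rw [← tsum_mul_left]
    refine s2.tsum_le_tsum (fun ρ => ?_) (hZ.2.mul_left (CP P))
    have h1 := hph (ρ : ℂ).im
    have h2 := cc_nonneg ρ
    calc cc ρ * ph P ((ρ : ℂ).im / T) ≤ cc ρ * CP P := by gcongr
      _ = CP P * (1 / ‖(ρ : ℂ) * deriv riemannZeta ρ‖ ^ 2) := by unfold cc; ring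
  have h0 : 0 ≤ ∑' ρ : NT, cc ρ * ph P ((ρ : ℂ).im / T) :=
    tsum_nonneg fun ρ => mul_nonneg (cc_nonneg ρ) (ph_nonneg hP _)
  have e1 : ∀ ρ : NT, zz ρ * ph P ((ρ : ℂ).im / T) - 1 / 4 * (cc ρ * ph P ((ρ : ℂ).im / T)) =
      (ρ : ℂ).im ^ 2 * cc ρ * ph P ((ρ : ℂ).im / T) := by
    intro ρ
    have hre := (hZ.1 ρ ρ.2).1
    have hne := norm_pos_iff.2 (hZ.1 ρ ρ.2).2
    have hρ : ‖(ρ : ℂ)‖ ^ 2 = 1 / 4 + (ρ : ℂ).im ^ 2 := by
      rw [← Complex.normSq_eq_norm_sq, Complex.normSq_apply, hre]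
      ring
    have h7 : zz ρ = (1 / 4 + (ρ : ℂ).im ^ 2) * cc ρ := by
      unfold zz cc
      rw [norm_mul, mul_pow, hρ]
      have : 0 < 1 / 4 + (ρ : ℂ).im ^ 2 := by positivity
      field_simp
    rw [h7]
    ring
  have s3 : Summable fun ρ : NT => (ρ : ℂ).im ^ 2 * cc ρ * ph P ((ρ : ℂ).im / T) :=
    (s1.sub (s2.mul_left (1 / 4))).congr e1
  have h4 : ∑' ρ : NT, (ρ : ℂ).im ^ 2 * cc ρ * ph P ((ρ : ℂ).im / T) ≤ aa T * T / (1 - δ) := by
    refine s3.tsum_le_of_sum_le fun Z => ?_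
    rw [le_div_iff₀ hd]
    have h5 := aa_ge_sum hZ hT Z
    have h6 : ∑ ρ ∈ Z, cc ρ * ((1 - δ) * ((ρ : ℂ).im ^ 2 / T) * ph P ((ρ : ℂ).im / T)) ≤ aa T :=
      le_trans (Finset.sum_le_sum fun ρ _ => mul_le_mul_of_nonneg_left (hK _) (cc_nonneg ρ)) h5
    have h7 : (∑ ρ ∈ Z, (ρ : ℂ).im ^ 2 * cc ρ * ph P ((ρ : ℂ).im / T)) * (1 - δ) =
        T * ∑ ρ ∈ Z, cc ρ * ((1 - δ) * ((ρ : ℂ).im ^ 2 / T) * ph P ((ρ : ℂ).im / T)) := by
      rw [Finset.sum_mul, Finset.mul_sum]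
      refine Finset.sum_congr rfl fun ρ _ => ?_
      field_simp
    rw [h7, mul_comm (aa T)]
    gcongr
  have h5 : ∑' ρ : NT, (ρ : ℂ).im ^ 2 * cc ρ * ph P ((ρ : ℂ).im / T) =
      (∑' ρ : NT, zz ρ * ph P ((ρ : ℂ).im / T)) - 1 / 4 * ∑' ρ : NT, cc ρ * ph P ((ρ : ℂ).im / T) := by
    rw [← tsum_mul_left, ← s1.tsum_sub (s2.mul_left (1 / 4))]
    exact tsum_congr fun ρ => (e1 ρ).symm
  rw [h5] at h4
  have h6 : (∑' ρ : NT, zz ρ * ph P ((ρ : ℂ).im / T)) - CP P * SS ≤ aa T * T / (1 - δ) := by linarith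
  calc (1 - δ) / T * ((∑' ρ : NT, zz ρ * ph P ((ρ : ℂ).im / T)) - CP P * SS) ≤
        (1 - δ) / T * (aa T * T / (1 - δ)) := by gcongr
    _ = aa T := by field_simp

end Pool.Agent.Y763.HB
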