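import Pool.Agent.Y763.HB.Stm

/-! Project HB (helper763), the archimedean term (by helper421). -/

set_option autoImplicit false

open MeasureTheory Filter Topology Set

namespace Pool.Agent.Y763.HB

namespace ARCH

theorem exists_bound (P : Polynomial ℝ) :
    ∃ M : ℝ, 0 < M ∧ ∀ y ∈ Icc (0:ℝ) 1, P.eval y ≤ M := by
  obtain ⟨M, hM⟩ := (isCompact_Icc (a := (0:ℝ)) (b := 1)).exists_bound_of_continuousOn
    (f := fun y => P.eval y) P.continuous.continuousOn
  refine ⟨|M| + 1, by positivity, fun y hy => ?_⟩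
  have h1 := hM y hy
  have h2 := le_abs_self M
  have h3 := Real.le_norm_self (P.eval y)
  linarith

theorem exp_mem (x : ℝ) : Real.exp (-x ^ 2) ∈ Icc (0:ℝ) 1 :=
  ⟨(Real.exp_pos _).le, Real.exp_le_one_iff.2 (by nlinarith [sq_nonneg x])⟩

theorem ph_nonneg {P : Polynomial ℝ} (hP : ∀ y ∈ Icc (0:ℝ) 1, 0 ≤ P.eval y) (x : ℝ) :
    0 ≤ ph P x := mul_nonneg (hP _ (exp_mem x)) (Real.exp_pos _).le

theorem ph_le {P : Polynomial ℝ} {M : ℝ} (hM : ∀ y ∈ Icc (0:ℝ) 1, P.eval y ≤ M) (x : ℝ) :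
    ph P x ≤ M * Real.exp (-x ^ 2) :=
  mul_le_mul_of_nonneg_right (hM _ (exp_mem x)) (Real.exp_pos _).le

theorem cont_ph (P : Polynomial ℝ) : Continuous (ph P) := by
  unfold ph
  have h : Continuous fun x : ℝ => Real.exp (-x ^ 2) := by fun_prop
  exact (P.continuous.comp h).mul h

theorem log_le {T y : ℝ} (hT : 1 ≤ T) : Real.log (2 + |y|) ≤ Real.log T + 1 + |y / T| := by
  have hT0 : 0 < T := by linarith
  have h0 : T * |y / T| = |y| := by
    rw [abs_div, abs_of_pos hT0]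
    field_simp
  have h1 : 2 + |y| ≤ T * (2 + |y / T|) := by
    rw [mul_add, h0]
    linarith
  have h2 : Real.log (2 + |y|) ≤ Real.log (T * (2 + |y / T|)) :=
    Real.log_le_log (by positivity) h1
  rw [Real.log_mul (by positivity) (by positivity)] at h2
  have h3 := Real.log_le_sub_one_of_pos (show 0 < 2 + |y / T| by positivity)
  linarith

theorem log_nonneg' (y : ℝ) : 0 ≤ Real.log (2 + |y|) :=
  Real.log_nonneg (by linarith [abs_nonneg y])

/-- absorbing a linear factor -/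
theorem lin_exp {c : ℝ} (hc : 0 ≤ c) (x : ℝ) : (c + |x|) * Real.exp (-(x ^ 2 / 4)) ≤ c + 1 := by
  have h1 : |x| ≤ Real.exp (x ^ 2 / 4) := by
    have h2 := Real.add_one_le_exp (x ^ 2 / 4)
    nlinarith [sq_nonneg (|x| / 2 - 1), sq_abs x]
  have h3 : |x| * Real.exp (-(x ^ 2 / 4)) ≤ 1 := by
    calc |x| * Real.exp (-(x ^ 2 / 4)) ≤ Real.exp (x ^ 2 / 4) * Real.exp (-(x ^ 2 / 4)) :=
          mul_le_mul_of_nonneg_right h1 (Real.exp_pos _).le
      _ = 1 := by rw [← Real.exp_add, add_neg_cancel, Real.exp_zero]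
  have h4 : Real.exp (-(x ^ 2 / 4)) ≤ 1 := Real.exp_le_one_iff.2 (by nlinarith [sq_nonneg x])
  have h5 : c * Real.exp (-(x ^ 2 / 4)) ≤ c * 1 := mul_le_mul_of_nonneg_left h4 hc
  rw [add_mul]
  linarith

theorem exp_split (x : ℝ) : Real.exp (-x ^ 2) =
    Real.exp (-(x ^ 2 / 4)) * Real.exp (-(x ^ 2 / 4)) * Real.exp (-(x ^ 2 / 2)) := by
  rw [← Real.exp_add, ← Real.exp_add]
  congr 1
  ring

/-- the pointwise bound -/
theorem point {P : Polynomial ℝ} (hP : ∀ y ∈ Icc (0:ℝ) 1, 0 ≤ P.eval y) {M : ℝ} (hM0 : 0 < M)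
    (hM : ∀ y ∈ Icc (0:ℝ) 1, P.eval y ≤ M) {B ε : ℝ} (hε : 0 < ε) {T : ℝ} (hT : 1 ≤ T)
    {g : ℝ} (hg0 : 0 ≤ g) (hg : g ≤ T ^ 2) (y : ℝ) :
    (Real.log (2 + |y|) + B) * (g * ph P (y / T)) ≤
      (1 + ε) * Real.log T * (g * ph P (y / T)) +
        M * (2 + |B|) * Real.exp (4 / ε * (1 + |B|) + (4 / ε) ^ 2 / 2) / T ^ 2 *
          Real.exp (-((y / T) ^ 2 / 4)) := by
  have hT0 : 0 < T := by linarith
  obtain ⟨x, hx⟩ : ∃ x, x = y / T := ⟨_, rfl⟩
  have hlog := log_le (y := y) hT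
  rw [← hx] at hlog ⊢
  have hB := le_abs_self B
  have hB0 := abs_nonneg B
  have hx0 := abs_nonneg x
  have hL : 0 ≤ Real.log T := Real.log_nonneg hT
  have hφ0 : 0 ≤ g * ph P x := mul_nonneg hg0 (ph_nonneg hP x)
  obtain ⟨D, hD⟩ : ∃ D, D = 4 / ε * (1 + |B|) + (4 / ε) ^ 2 / 2 := ⟨_, rfl⟩
  rw [← hD]
  have hh0 : 0 ≤ M * (2 + |B|) * Real.exp D / T ^ 2 * Real.exp (-(x ^ 2 / 4)) := by positivity
  rcases le_or_gt (1 + |B| + |x|) (ε * Real.log T) with hc | hc
  · have h1 : Real.log (2 + |y|) + B ≤ (1 + ε) * Real.log T := by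
      rw [add_mul, one_mul]
      linarith
    have h2 := mul_le_mul_of_nonneg_right h1 hφ0
    linarith
  · have h1 : Real.log (2 + |y|) + B ≤ (1 + ε) * Real.log T + (1 + |B| + |x|) := by
      have h3 : 0 ≤ ε * Real.log T := by positivity
      rw [add_mul, one_mul]
      linarith
    have h2 := mul_le_mul_of_nonneg_right h1 hφ0
    rw [add_mul ((1 + ε) * Real.log T)] at h2
    refine h2.trans (add_le_add_right ?_ _)
    have h4 : g * ph P x ≤ T ^ 2 * (M * Real.exp (-x ^ 2)) :=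
      mul_le_mul hg (ph_le hM x) (ph_nonneg hP x) (by positivity)
    have h5 : Real.exp (-(x ^ 2 / 2)) ≤ Real.exp D / T ^ 4 := by
      have h6 : -(x ^ 2 / 2) ≤ D - 4 * Real.log T := by
        have h7 : 4 / ε * |x| - (4 / ε) ^ 2 / 2 ≤ x ^ 2 / 2 := by
          nlinarith [sq_nonneg (|x| - 4 / ε), sq_abs x]
        have h8 : 4 / ε * (ε * Real.log T) ≤ 4 / ε * (1 + |B| + |x|) :=
          mul_le_mul_of_nonneg_left hc.le (by positivity)
        have h9 : 4 / ε * (ε * Real.log T) = 4 * Real.log T := by field_simp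
        rw [hD]
        nlinarith
      calc Real.exp (-(x ^ 2 / 2)) ≤ Real.exp (D - 4 * Real.log T) := Real.exp_le_exp.2 h6
        _ = Real.exp D / T ^ 4 := by
            rw [Real.exp_sub]
            congr 1
            have h10 : (4 : ℝ) * Real.log T = ((4 : ℕ) : ℝ) * Real.log T := by norm_num
            rw [h10, Real.exp_nat_mul, Real.exp_log hT0]
    calc (1 + |B| + |x|) * (g * ph P x)
        ≤ (1 + |B| + |x|) * (T ^ 2 * (M * Real.exp (-x ^ 2))) :=
          mul_le_mul_of_nonneg_left h4 (by positivity)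
      _ = ((1 + |B| + |x|) * Real.exp (-(x ^ 2 / 4))) * (T ^ 2 * M * Real.exp (-(x ^ 2 / 4)) *
            Real.exp (-(x ^ 2 / 2))) := by
          rw [exp_split]
          ring
      _ ≤ (1 + |B| + 1) * (T ^ 2 * M * Real.exp (-(x ^ 2 / 4)) * (Real.exp D / T ^ 4)) := by
          refine mul_le_mul (lin_exp (by positivity) x) ?_ (by positivity) (by positivity)
          exact mul_le_mul_of_nonneg_left h5 (by positivity)
      _ = M * (2 + |B|) * Real.exp D / T ^ 2 * Real.exp (-(x ^ 2 / 4)) := by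
          field_simp
          ring

theorem gauss_eq {T : ℝ} (hT : 0 < T) :
    (fun y : ℝ => Real.exp (-((y / T) ^ 2 / 4))) = fun y => Real.exp (-(1 / (4 * T ^ 2)) * y ^ 2) := by
  funext y
  congr 1
  field_simp

theorem gauss_int {T : ℝ} (hT : 0 < T) : Integrable fun y : ℝ => Real.exp (-((y / T) ^ 2 / 4)) := by
  rw [gauss_eq hT]
  exact integrable_exp_neg_mul_sq (by positivity)

theorem gauss_val {T : ℝ} (hT : 0 < T) :
    ∫ y : ℝ, Real.exp (-((y / T) ^ 2 / 4)) = 2 * T * √Real.pi := by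
  rw [gauss_eq hT, integral_gaussian]
  have h1 : Real.pi / (1 / (4 * T ^ 2)) = (2 * T) ^ 2 * Real.pi := by
    field_simp
    ring
  rw [h1, Real.sqrt_mul (by positivity), Real.sqrt_sq (by positivity)]

/-- domination -/
theorem dom {P : Polynomial ℝ} (hP : ∀ y ∈ Icc (0:ℝ) 1, 0 ≤ P.eval y) {M : ℝ} (hM0 : 0 < M)
    (hM : ∀ y ∈ Icc (0:ℝ) 1, P.eval y ≤ M) {T : ℝ} (hT : 1 ≤ T) {G : ℝ → ℝ} (hG : Continuous G)
    (hGb : ∀ y, 0 ≤ G y ∧ G y ≤ T ^ 2) {k : ℝ → ℝ} (hk : Continuous k) {c : ℝ} (hc : 0 ≤ c)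
    (hkb : ∀ y, |k y| ≤ c + |y / T|) :
    Integrable fun y : ℝ => k y * (G y * ph P (y / T)) := by
  have hT0 : 0 < T := by linarith
  refine Integrable.mono' ((gauss_int hT0).const_mul ((c + 1) * (T ^ 2 * M))) ?_ ?_
  · have h1 : Continuous fun y : ℝ => ph P (y / T) := (cont_ph P).comp (by fun_prop)
    exact (hk.mul (hG.mul h1)).aestronglyMeasurable
  · refine Eventually.of_forall fun y => ?_
    obtain ⟨x, hx⟩ : ∃ x, x = y / T := ⟨_, rfl⟩
    have hk1 := hkb y
    rw [← hx] at hk1 ⊢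
    obtain ⟨hg0, hg⟩ := hGb y
    have hφ0 : 0 ≤ G y * ph P x := mul_nonneg hg0 (ph_nonneg hP x)
    have h4 : G y * ph P x ≤ T ^ 2 * (M * Real.exp (-x ^ 2)) :=
      mul_le_mul hg (ph_le hM x) (ph_nonneg hP x) (by positivity)
    have h5 : Real.exp (-(x ^ 2 / 2)) ≤ 1 := Real.exp_le_one_iff.2 (by nlinarith [sq_nonneg x])
    rw [norm_mul, Real.norm_eq_abs, Real.norm_eq_abs, abs_of_nonneg hφ0]
    calc |k y| * (G y * ph P x) ≤ (c + |x|) * (T ^ 2 * (M * Real.exp (-x ^ 2))) :=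
          mul_le_mul hk1 h4 hφ0 (by positivity)
      _ = ((c + |x|) * Real.exp (-(x ^ 2 / 4))) * (T ^ 2 * M * Real.exp (-(x ^ 2 / 4)) *
            Real.exp (-(x ^ 2 / 2))) := by
          rw [exp_split]
          ring
      _ ≤ (c + 1) * (T ^ 2 * M * Real.exp (-(x ^ 2 / 4)) * 1) := by
          refine mul_le_mul (lin_exp hc x) ?_ (by positivity) (by positivity)
          exact mul_le_mul_of_nonneg_left h5 (by positivity)
      _ = (c + 1) * (T ^ 2 * M) * Real.exp (-(x ^ 2 / 4)) := by ring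

end ARCH

open ARCH in
theorem t_ARCH : S_ARCH := by
  intro P hP B ε hε
  obtain ⟨M, hM0, hM⟩ := exists_bound P
  obtain ⟨K, hK⟩ : ∃ K, K = M * (2 + |B|) *
    Real.exp (4 / ε * (1 + |B|) + (4 / ε) ^ 2 / 2) := ⟨_, rfl⟩
  filter_upwards [eventually_ge_atTop 1, eventually_ge_atTop (K * (2 * √Real.pi))] with
    T hT hTK G hG hGb
  have hT0 : 0 < T := by linarith
  have hL : 0 ≤ Real.log T := Real.log_nonneg hT
  have hi1 : Integrable fun y : ℝ => G y * ph P (y / T) := by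
    have h := dom hP hM0 hM hT hG hGb (k := fun _ => 1) continuous_const (c := 1) zero_le_one
      (fun y => by rw [abs_one]; linarith [abs_nonneg (y / T)])
    simpa using h
  have hi2 : Integrable fun y : ℝ => (Real.log (2 + |y|) + B) * (G y * ph P (y / T)) := by
    refine dom hP hM0 hM hT hG hGb ?_ (c := Real.log T + 1 + |B|) (by positivity) fun y => ?_
    · have h1 : Continuous fun y : ℝ => Real.log (2 + |y|) :=
        Continuous.log (by fun_prop) fun y => by
          have := abs_nonneg y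
          linarith
      exact h1.add continuous_const
    · have h1 := log_le (y := y) hT
      have h2 := log_nonneg' y
      have h3 := abs_add_le (Real.log (2 + |y|)) B
      rw [abs_of_nonneg h2] at h3
      linarith
  have hi3 := gauss_int hT0
  have hpt : ∀ y, (Real.log (2 + |y|) + B) * (G y * ph P (y / T)) ≤
      (1 + ε) * Real.log T * (G y * ph P (y / T)) + K / T ^ 2 *
        Real.exp (-((y / T) ^ 2 / 4)) := by
    intro y
    rw [hK]
    exact point hP hM0 hM hε hT (hGb y).1 (hGb y).2 y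
  calc ∫ y : ℝ, (Real.log (2 + |y|) + B) * (G y * ph P (y / T))
      ≤ ∫ y : ℝ, ((1 + ε) * Real.log T * (G y * ph P (y / T)) + K / T ^ 2 *
        Real.exp (-((y / T) ^ 2 / 4))) :=
        integral_mono hi2 ((hi1.const_mul _).add (hi3.const_mul _)) hpt
    _ = (1 + ε) * Real.log T * (∫ y : ℝ, G y * ph P (y / T)) +
        K / T ^ 2 * (2 * T * √Real.pi) := by
        rw [integral_add (hi1.const_mul _) (hi3.const_mul _), integral_const_mul,
          integral_const_mul, gauss_val hT0]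
    _ ≤ (1 + ε) * Real.log T * (∫ y : ℝ, G y * ph P (y / T)) + 1 := by
        refine add_le_add_right ?_ _
        have h1 : K / T ^ 2 * (2 * T * √Real.pi) = K * (2 * √Real.pi) / T := by
          field_simp
        rw [h1, div_le_one hT0]
        exact hTK

end Pool.Agent.Y763.HB
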