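import Pool.Agent.Y763.HB.Stm
import Pool.Agent.H382R2.SqFree

/-! Project HB (helper763), MP_0575cc_nt: the sum of `μ(n)² / n` (written by helper693). -/

set_option autoImplicit false

open MeasureTheory Filter Topology Set

namespace Pool.Agent.Y763.HB

lemma mob_hasSum : HasSum (fun n : ℕ => ((ArithmeticFunction.moebius n : ℤ) : ℝ) / (n : ℝ) ^ 2)
    (6 / Real.pi ^ 2) := by
  have h2 : (1 : ℝ) < (2 : ℂ).re := by norm_num
  have h1 := ArithmeticFunction.LSeries_zeta_mul_Lseries_moebius h2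
  rw [ArithmeticFunction.LSeries_zeta_eq_riemannZeta h2, riemannZeta_two] at h1
  have hs := (ArithmeticFunction.LSeriesSummable_moebius_iff (s := 2)).2 h2
  have hs2 : HasSum (LSeries.term (fun n => ((ArithmeticFunction.moebius n : ℤ) : ℂ)) 2)
    (LSeries (fun n => ((ArithmeticFunction.moebius n : ℤ) : ℂ)) 2) := hs.hasSum
  have hv : LSeries (fun n => ((ArithmeticFunction.moebius n : ℤ) : ℂ)) 2 =
      ((6 / Real.pi ^ 2 : ℝ) : ℂ) := by
    have h3 : LSeries (fun n => ((ArithmeticFunction.moebius n : ℤ) : ℂ)) 2 =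
        ((Real.pi : ℂ) ^ 2 / 6)⁻¹ := by
      apply eq_inv_of_mul_eq_one_right
      exact h1
    rw [h3]; push_cast; rw [inv_div]
  rw [hv] at hs2
  have h4 : (LSeries.term (fun n => ((ArithmeticFunction.moebius n : ℤ) : ℂ)) 2) =
      fun n : ℕ => ((((ArithmeticFunction.moebius n : ℤ) : ℝ) / (n : ℝ) ^ 2 : ℝ) : ℂ) := by
    funext n
    rw [LSeries.term_def]
    split_ifs with h
    · simp [h]
    · push_cast
      congr 1
      norm_cast
  rw [h4] at hs2
  exact Complex.hasSum_ofReal.1 hs2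

theorem t_D1 : S_D1 := by
  have hC0 : SG.C0 = 6 / Real.pi ^ 2 := mob_hasSum.tsum_eq
  refine ⟨|∑' d : ℕ, (2 * Real.log d + 1) / (d : ℝ) ^ 2| + 1, by positivity, fun N hN => ?_⟩
  have h := SG.sqfree_sum_explicit (N : ℝ) (by exact_mod_cast hN)
  rw [Nat.floor_natCast, hC0] at h
  have h2 := le_abs_self (∑' d : ℕ, (2 * Real.log d + 1) / (d : ℝ) ^ 2)
  unfold D1
  linarith

end Pool.Agent.Y763.HB
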