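import Pool.Agent.Y763.HB.Stm

/-! Project HB (helper763), MP_0575cc_nt: the sum with the von Mangoldt function (written by
helper693). -/

set_option autoImplicit false

open MeasureTheory Filter Topology Set

namespace Pool.Agent.Y763.HB

theorem D2_log_factorial (N : ℕ) : Real.log (N.factorial : ℝ) =
    ∑ d ∈ Finset.Icc 1 N, ArithmeticFunction.vonMangoldt d * ((N / d : ℕ) : ℝ) := by
  have h1 : Real.log (N.factorial : ℝ) = ∑ n ∈ Finset.Ioc 0 N, Real.log n := by
    induction N with
    | zero => simp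
    | succ N ih =>
      rw [Nat.factorial_succ, Finset.sum_Ioc_succ_top (Nat.zero_le _), ← ih]
      push_cast
      rw [Real.log_mul (by positivity) (by exact_mod_cast N.factorial_ne_zero), add_comm]
  have h2 := ArithmeticFunction.sum_Ioc_mul_zeta_eq_sum (R := ℝ) ArithmeticFunction.vonMangoldt N
  rw [ArithmeticFunction.vonMangoldt_mul_zeta] at h2
  rw [h1, show Finset.Icc 1 N = Finset.Ioc 0 N from rfl]
  simpa using h2

theorem D2_mertens (N : ℕ) (hN : 1 ≤ N) :
    ∑ d ∈ Finset.Icc 1 N, ArithmeticFunction.vonMangoldt d / d ≤ Real.log N + 6 := by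
  have hN' : (0 : ℝ) < N := by exact_mod_cast hN
  have hN1 : (1 : ℝ) ≤ N := by exact_mod_cast hN
  have hup : Real.log (N.factorial : ℝ) ≤ N * Real.log N := by
    rw [← Real.log_pow]
    apply Real.log_le_log
    · exact_mod_cast N.factorial_pos
    · exact_mod_cast N.factorial_le_pow
  have hpsi : ∑ d ∈ Finset.Icc 1 N, ArithmeticFunction.vonMangoldt d ≤ 6 * N := by
    have h := Chebyshev.psi_le_const_mul_self (x := (N : ℝ)) hN'.le
    rw [Chebyshev.psi, Nat.floor_natCast] at h
    have h3 : Real.log 4 ≤ 2 := by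
      have : Real.log 4 = 2 * Real.log 2 := by
        rw [show (4 : ℝ) = 2 ^ 2 by norm_num, Real.log_pow]; norm_num
      have := Real.log_two_lt_d9
      linarith
    have h4 : (Real.log 4 + 4) * N ≤ 6 * N := mul_le_mul_of_nonneg_right (by linarith) hN'.le
    exact le_trans (le_of_eq rfl) (h.trans h4)
  have h2 : N * ∑ d ∈ Finset.Icc 1 N, ArithmeticFunction.vonMangoldt d / d -
      ∑ d ∈ Finset.Icc 1 N, ArithmeticFunction.vonMangoldt d ≤ Real.log (N.factorial : ℝ) := by
    rw [D2_log_factorial, Finset.mul_sum, ← Finset.sum_sub_distrib]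
    refine Finset.sum_le_sum fun d hd => ?_
    have hd0 : (0 : ℝ) < d := by exact_mod_cast (Finset.mem_Icc.1 hd).1
    have h3 : (N : ℝ) / d - 1 ≤ ((N / d : ℕ) : ℝ) := by
      have h6 : (N : ℝ) / d < ((N / d : ℕ) : ℝ) + 1 := by
        rw [← Nat.floor_div_eq_div (K := ℝ)]
        exact Nat.lt_floor_add_one _
      linarith
    have h4 : 0 ≤ ArithmeticFunction.vonMangoldt d := ArithmeticFunction.vonMangoldt_nonneg
    calc N * (ArithmeticFunction.vonMangoldt d / d) - ArithmeticFunction.vonMangoldt d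
        = ArithmeticFunction.vonMangoldt d * (N / d - 1) := by ring
      _ ≤ ArithmeticFunction.vonMangoldt d * ((N / d : ℕ) : ℝ) := mul_le_mul_of_nonneg_left h3 h4
  have h3 : N * ∑ d ∈ Finset.Icc 1 N, ArithmeticFunction.vonMangoldt d / d ≤
      N * (Real.log N + 6) := by
    have : N * (Real.log N + 6) = N * Real.log N + 6 * N := by ring
    linarith
  exact le_of_mul_le_mul_left h3 hN'

/-- partial summation -/
theorem D2_abel (N : ℕ) (hN : 1 ≤ N) :
    ∑ k ∈ Finset.Icc 1 N, ArithmeticFunction.vonMangoldt k / k * (Real.log N - Real.log k) ≤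
      Real.log N ^ 2 / 2 + 6 * Real.log N := by
  induction N, hN using Nat.le_induction with
  | base => simp
  | succ N hN ih =>
      have hN0 : (0 : ℝ) < N := by exact_mod_cast hN
      have hN1 : (1 : ℝ) ≤ N := by exact_mod_cast hN
      have hm := D2_mertens N hN
      have hab : Real.log N ≤ Real.log ((N + 1 : ℕ) : ℝ) :=
        Real.log_le_log hN0 (by push_cast; linarith)
      have ha : 0 ≤ Real.log N := Real.log_nonneg hN1
      rw [Finset.sum_Icc_succ_top (by omega), sub_self, mul_zero, add_zero]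
      have e : ∑ k ∈ Finset.Icc 1 N, ArithmeticFunction.vonMangoldt k / k *
          (Real.log ((N + 1 : ℕ) : ℝ) - Real.log k) =
          ∑ k ∈ Finset.Icc 1 N, ArithmeticFunction.vonMangoldt k / k * (Real.log N - Real.log k) +
          (Real.log ((N + 1 : ℕ) : ℝ) - Real.log N) *
            ∑ k ∈ Finset.Icc 1 N, ArithmeticFunction.vonMangoldt k / k := by
        rw [Finset.mul_sum, ← Finset.sum_add_distrib]
        exact Finset.sum_congr rfl fun k _ => by ring
      rw [e]
      have h1 := mul_le_mul_of_nonneg_left hm (sub_nonneg.2 hab)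
      nlinarith [sq_nonneg (Real.log ((N + 1 : ℕ) : ℝ) - Real.log N)]

theorem t_D2 : S_D2 := by
  rintro ⟨C, hC, h⟩
  have hpi := Real.pi_pos
  refine ⟨36 / Real.pi ^ 2 + 6 * C, by positivity, fun N hN => ?_⟩
  have hN0 : (0 : ℝ) < N := by exact_mod_cast hN
  have hL : 0 ≤ Real.log N := Real.log_nonneg (by exact_mod_cast hN)
  have h1 : -D2 N ≤ ∑ k ∈ Finset.Icc 1 N, ArithmeticFunction.vonMangoldt k / k * D1 (N / k) := by
    unfold D2 D1
    rw [← Finset.sum_neg_distrib]
    refine Finset.sum_le_sum fun k hk => ?_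
    rw [← Finset.sum_neg_distrib, Finset.mul_sum]
    refine Finset.sum_le_sum fun m hm => ?_
    have hk0 : (0 : ℝ) < k := by exact_mod_cast (Finset.mem_Icc.1 hk).1
    have hm0 : (0 : ℝ) < m := by exact_mod_cast (Finset.mem_Icc.1 hm).1
    have hΛ : 0 ≤ ArithmeticFunction.vonMangoldt k := ArithmeticFunction.vonMangoldt_nonneg
    have h3 : |((ArithmeticFunction.moebius (m * k) : ℤ) : ℝ)| ≤ 1 := by
      exact_mod_cast ArithmeticFunction.abs_moebius_le_one
    have h4 : |((ArithmeticFunction.moebius m : ℤ) : ℝ)| ≤ ((ArithmeticFunction.moebius m : ℤ) : ℝ) ^ 2 := by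
      rcases eq_or_ne (ArithmeticFunction.moebius m) 0 with h0 | h0
      · rw [h0]; simp
      · rcases ArithmeticFunction.moebius_ne_zero_iff_eq_or.1 h0 with h5 | h5 <;> rw [h5] <;> simp
    have h5 : -(((ArithmeticFunction.moebius m : ℤ) : ℝ) *
        ((ArithmeticFunction.moebius (m * k) : ℤ) : ℝ)) ≤ ((ArithmeticFunction.moebius m : ℤ) : ℝ) ^ 2 := by
      refine (neg_le_abs _).trans ?_
      rw [abs_mul]
      calc _ ≤ |((ArithmeticFunction.moebius m : ℤ) : ℝ)| * 1 :=
            mul_le_mul_of_nonneg_left h3 (abs_nonneg _)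
        _ ≤ _ := by rw [mul_one]; exact h4
    have h6 : 0 ≤ ArithmeticFunction.vonMangoldt k / ((m : ℝ) * k) := by positivity
    have h7 := mul_le_mul_of_nonneg_left h5 h6
    calc -(ArithmeticFunction.vonMangoldt k * ((ArithmeticFunction.moebius m : ℤ) : ℝ) *
          ((ArithmeticFunction.moebius (m * k) : ℤ) : ℝ) / ((m : ℝ) * k)) =
        ArithmeticFunction.vonMangoldt k / ((m : ℝ) * k) * -(((ArithmeticFunction.moebius m : ℤ) : ℝ) *
          ((ArithmeticFunction.moebius (m * k) : ℤ) : ℝ)) := by ring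
      _ ≤ _ := h7
      _ = _ := by field_simp
  have h2 : ∑ k ∈ Finset.Icc 1 N, ArithmeticFunction.vonMangoldt k / k * D1 (N / k) ≤
      6 / Real.pi ^ 2 * ∑ k ∈ Finset.Icc 1 N, ArithmeticFunction.vonMangoldt k / k *
        (Real.log N - Real.log k) + C * ∑ k ∈ Finset.Icc 1 N, ArithmeticFunction.vonMangoldt k / k := by
    rw [Finset.mul_sum, Finset.mul_sum, ← Finset.sum_add_distrib]
    refine Finset.sum_le_sum fun k hk => ?_
    obtain ⟨hk1, hk2⟩ := Finset.mem_Icc.1 hk
    have hk0 : (0 : ℝ) < k := by exact_mod_cast hk1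
    have hΛ : 0 ≤ ArithmeticFunction.vonMangoldt k / k :=
      div_nonneg ArithmeticFunction.vonMangoldt_nonneg hk0.le
    have hd : 1 ≤ N / k := (Nat.one_le_div_iff hk1).2 hk2
    have h3 := (abs_le.1 (h (N / k) hd)).2
    have h4 : Real.log ((N / k : ℕ) : ℝ) ≤ Real.log N - Real.log k := by
      rw [← Real.log_div hN0.ne' hk0.ne']
      exact Real.log_le_log (by exact_mod_cast hd) Nat.cast_div_le
    have h5 : D1 (N / k) ≤ 6 / Real.pi ^ 2 * (Real.log N - Real.log k) + C := by
      have h6 : 6 / Real.pi ^ 2 * Real.log ((N / k : ℕ) : ℝ) ≤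
          6 / Real.pi ^ 2 * (Real.log N - Real.log k) :=
        mul_le_mul_of_nonneg_left h4 (by positivity)
      linarith
    have h7 := mul_le_mul_of_nonneg_left h5 hΛ
    linarith
  have h3 := D2_abel N hN
  have h4 := D2_mertens N hN
  have h5 : 6 / Real.pi ^ 2 * ∑ k ∈ Finset.Icc 1 N, ArithmeticFunction.vonMangoldt k / k *
        (Real.log N - Real.log k) ≤ 6 / Real.pi ^ 2 * (Real.log N ^ 2 / 2 + 6 * Real.log N) :=
    mul_le_mul_of_nonneg_left h3 (by positivity)
  have h6 := mul_le_mul_of_nonneg_left h4 hC.le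
  refine h1.trans (h2.trans ((add_le_add h5 h6).trans ?_))
  have h7 : 0 ≤ 36 / Real.pi ^ 2 := by positivity
  have e : 6 / Real.pi ^ 2 * (Real.log N ^ 2 / 2 + 6 * Real.log N) + C * (Real.log N + 6) =
      3 / Real.pi ^ 2 * Real.log N ^ 2 + (36 / Real.pi ^ 2 * Real.log N + C * (Real.log N + 6)) := by
    ring
  rw [e]
  have h8 : C * Real.log N ≤ 6 * C * Real.log N := by nlinarith [mul_nonneg hC.le hL]
  nlinarith

end Pool.Agent.Y763.HB
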