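import Pool.Agent.Y23.We5
import Pool.Agent.W120.WM.All1
import Pool.Agent.Y763.GC.F

/-! The two vertical lines in the explicit formula for `1/ζ`. -/

set_option autoImplicit false
set_option maxHeartbeats 2000000

open Complex Filter Topology Set MeasureTheory

namespace Pool.Agent.Y763.HB

open Pool.Agent.Y23 (Dec JJ JJ_eq JJ_norm dec_int dec_cont dec_line)
open Pool.Agent.W120.WM (ZC NT)

/-- the Moebius function -/
noncomputable def muc (n : ℕ) : ℂ := ((ArithmeticFunction.moebius n : ℤ) : ℂ)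

lemma muc_le (n : ℕ) : ‖muc n‖ ≤ 1 := by
  unfold muc
  rw [Complex.norm_intCast]
  have := ArithmeticFunction.abs_moebius_le_one (n := n)
  exact_mod_cast this

lemma muc_zero : muc 0 = 0 := by simp [muc]

lemma npow_le (n : ℕ) (v : ℝ) : ‖muc n * (n : ℂ) ^ (-(⟨3 / 2, v⟩ : ℂ))‖ ≤ (n : ℝ) ^ (-(3 / 2 : ℝ)) := by
  rcases Nat.eq_zero_or_pos n with h | h
  · subst h
    rw [muc_zero, zero_mul, norm_zero]
    positivity
  · rw [norm_mul, Complex.norm_natCast_cpow_of_pos h]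
    have e : (-(⟨3 / 2, v⟩ : ℂ)).re = -(3 / 2 : ℝ) := by simp
    rw [e]
    exact mul_le_of_le_one_left (by positivity) (muc_le n)

lemma sum_npow : Summable fun n : ℕ => (n : ℝ) ^ (-(3 / 2 : ℝ)) :=
  Real.summable_nat_rpow.2 (by norm_num)

lemma inv_line (v : ℝ) : (riemannZeta ⟨3 / 2, v⟩)⁻¹ = ∑' n : ℕ, muc n * (n : ℂ) ^ (-(⟨3 / 2, v⟩ : ℂ)) := by
  have hs : 1 < (⟨3 / 2, v⟩ : ℂ).re := by norm_num
  have h3 : LSeries (fun n => ((ArithmeticFunction.moebius n : ℤ) : ℂ)) ⟨3 / 2, v⟩ = (riemannZeta ⟨3 / 2, v⟩)⁻¹ := by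
    have h4 := ArithmeticFunction.LSeries_zeta_mul_Lseries_moebius hs
    rw [ArithmeticFunction.LSeries_zeta_eq_riemannZeta hs] at h4
    exact eq_inv_of_mul_eq_one_right h4
  rw [← h3]
  unfold LSeries
  refine tsum_congr fun n => ?_
  rcases Nat.eq_zero_or_pos n with h | h
  · subst h
    simp [muc]
  · rw [LSeries.term_of_ne_zero h.ne', Complex.cpow_neg, ← div_eq_mul_inv]
    rfl

lemma inv_line_cont : Continuous fun v : ℝ => (riemannZeta ⟨3 / 2, v⟩)⁻¹ := by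
  have e : (fun v : ℝ => (riemannZeta ⟨3 / 2, v⟩)⁻¹) =
      fun v => ∑' n : ℕ, muc n * (n : ℂ) ^ (-(⟨3 / 2, v⟩ : ℂ)) := funext inv_line
  rw [e]
  refine continuous_tsum (fun n => ?_) sum_npow (fun n v => npow_le n v)
  rcases Nat.eq_zero_or_pos n with h | h
  · subst h
    simp only [muc_zero, zero_mul]
    exact continuous_const
  · have : (fun v : ℝ => muc n * (n : ℂ) ^ (-(⟨3 / 2, v⟩ : ℂ))) =
        fun v : ℝ => muc n * cexp (-((Real.log n : ℝ) : ℂ) * ((3 / 2 : ℝ) + v * I)) := by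
      funext v
      rw [H370.term_eq n h, H370.mk_eq]
    rw [this]
    fun_prop

lemma inv_line_bd (v : ℝ) : ‖(riemannZeta ⟨3 / 2, v⟩)⁻¹‖ ≤ ∑' n : ℕ, (n : ℝ) ^ (-(3 / 2 : ℝ)) := by
  rw [inv_line]
  exact tsum_of_norm_bounded sum_npow.hasSum (fun n => npow_le n v)

lemma dec_mul_int' {φ : ℝ → ℂ} (hc : Continuous φ) {C : ℝ} (hb : ∀ y, ‖φ y‖ ≤ C) {h : ℂ → ℂ} {M δ : ℝ}
    (hδ : 0 < δ) (hh : Dec h M δ) {σ : ℝ} (hσ : |σ| ≤ 1) : Integrable (fun y => φ y * h ⟨σ, y⟩) := by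
  refine ((dec_int hδ hh hσ).norm.const_mul C).mono' (hc.mul (dec_cont hh σ)).aestronglyMeasurable
    (Eventually.of_forall fun y => ?_)
  rw [norm_mul]
  exact mul_le_mul_of_nonneg_right (hb y) (norm_nonneg _)

lemma right_line {H : ℂ → ℂ} {M δ : ℝ} (hδ : 0 < δ) (hM : 0 ≤ M) (hh : Dec H M δ) :
    HasSum (fun n : ℕ => muc n * JJ H (Real.log n)) (∫ y : ℝ, (riemannZeta ⟨3 / 2, y⟩)⁻¹ * H ⟨1, y⟩) := by
  set f : ℕ → ℝ → ℂ := fun n v => muc n * (n : ℂ) ^ (-(⟨3 / 2, v⟩ : ℂ)) * H ⟨1, v⟩ with hf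
  have hcl := dec_cont hh 1
  have hnb : ∀ n v, ‖f n v‖ ≤ (n : ℝ) ^ (-(3 / 2 : ℝ)) * ‖H ⟨1, v⟩‖ := by
    intro n v
    simp only [hf]
    rw [norm_mul]
    exact mul_le_mul_of_nonneg_right (npow_le n v) (norm_nonneg _)
  have hcont : ∀ n, Continuous (f n) := by
    intro n
    rcases Nat.eq_zero_or_pos n with h | h
    · subst h
      simp only [hf, muc_zero, zero_mul]
      exact continuous_const
    · simp only [hf]
      have : (fun v : ℝ => muc n * (n : ℂ) ^ (-(⟨3 / 2, v⟩ : ℂ))) =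
          fun v : ℝ => muc n * cexp (-((Real.log n : ℝ) : ℂ) * ((3 / 2 : ℝ) + v * I)) := by
        funext v
        rw [H370.term_eq n h, H370.mk_eq]
      refine Continuous.mul ?_ hcl
      rw [this]
      fun_prop
  have hG : Integrable (fun v : ℝ => ‖H ⟨1, v⟩‖) := (dec_int hδ hh (σ := 1) (by norm_num)).norm
  have hint : ∀ n, Integrable (f n) := fun n =>
    (hG.const_mul ((n : ℝ) ^ (-(3 / 2 : ℝ)))).mono'
      (hcont n).aestronglyMeasurable (Eventually.of_forall (hnb n))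
  have hsum : Summable fun n => ∫ v, ‖f n v‖ := by
    refine Summable.of_nonneg_of_le (fun n => integral_nonneg fun v => norm_nonneg _) (fun n => ?_)
      (sum_npow.mul_right (∫ v : ℝ, ‖H ⟨1, v⟩‖))
    rw [← integral_const_mul]
    exact integral_mono (hint n).norm (hG.const_mul _) (fun v => hnb n v)
  have key := hasSum_integral_of_summable_integral_norm hint hsum
  have e1 : (fun v : ℝ => (riemannZeta ⟨3 / 2, v⟩)⁻¹ * H ⟨1, v⟩) = fun v => ∑' n, f n v := by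
    funext v
    simp only [hf]
    rw [tsum_mul_right, inv_line]
  rw [e1]
  have e2 : (fun n : ℕ => muc n * JJ H (Real.log n)) = fun n => ∫ v, f n v := by
    funext n
    rcases Nat.eq_zero_or_pos n with h | h
    · subst h
      simp [hf, muc_zero]
    · rw [← JJ_eq hδ hM hh (Real.log_natCast_nonneg n), ← integral_const_mul]
      refine integral_congr_ae (Eventually.of_forall fun v => ?_)
      simp only [hf]
      rw [H370.term_eq n h]
      have e3 : (1 / 2 + (⟨1, v⟩ : ℂ)) = ⟨3 / 2, v⟩ := by apply Complex.ext <;> simp; norm_num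
      rw [e3]
      ring
  rw [e2]
  exact key

/-! ## The left line -/

lemma left_ne (t : ℝ) : riemannZeta (⟨-1 / 2, t⟩ : ℂ) ≠ 0 := by
  obtain ⟨B, hB, h⟩ := Pool.Agent.W191.WM.left
  exact (h t).1

lemma left_cont : Continuous fun t : ℝ => (riemannZeta (⟨-1 / 2, t⟩ : ℂ))⁻¹ := by
  refine Continuous.inv₀ ?_ left_ne
  rw [continuous_iff_continuousAt]
  intro t
  have h1 : ContinuousAt riemannZeta (⟨-1 / 2, t⟩ : ℂ) := by
    refine (differentiableAt_riemannZeta ?_).continuousAt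
    intro h
    have := congrArg Complex.re h
    norm_num at this
  have h2 : Continuous fun t : ℝ => (⟨-1 / 2, t⟩ : ℂ) := by
    have : (fun t : ℝ => (⟨-1 / 2, t⟩ : ℂ)) = fun t : ℝ => ((-1 / 2 : ℝ) : ℂ) + t * I := by
      funext t
      exact H370.mk_eq _ _
    rw [this]
    fun_prop
  exact ContinuousAt.comp (f := fun t : ℝ => (⟨-1 / 2, t⟩ : ℂ)) h1 h2.continuousAt

lemma left_bd : ∃ K : ℝ, 0 < K ∧ ∀ t : ℝ, ‖(riemannZeta (⟨-1 / 2, t⟩ : ℂ))⁻¹‖ ≤ K := by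
  obtain ⟨B, hB, h⟩ := Pool.Agent.W191.WM.left
  refine ⟨2 * B, by positivity, fun t => ?_⟩
  have h1 := (h t).2
  have h0 : (⟨-1 / 2, t⟩ : ℂ) ≠ 0 := by
    intro h
    have := congrArg Complex.re h
    norm_num at this
  have e : (riemannZeta (⟨-1 / 2, t⟩ : ℂ))⁻¹ = (⟨-1 / 2, t⟩ : ℂ) * ((⟨-1 / 2, t⟩ : ℂ) * riemannZeta (⟨-1 / 2, t⟩ : ℂ))⁻¹ := by
    rw [mul_inv, ← mul_assoc, mul_inv_cancel₀ h0, one_mul]
  rw [e, norm_mul]
  obtain ⟨r, hr⟩ : ∃ r : ℝ, r = ‖(⟨-1 / 2, t⟩ : ℂ)‖ := ⟨_, rfl⟩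
  have hr2 : r ^ 2 = 1 / 4 + t ^ 2 := by
    rw [hr, ← Complex.normSq_eq_norm_sq, Complex.normSq_apply]
    ring
  have hr0 : 0 ≤ r := by rw [hr]; positivity
  have hr1 : 1 / 2 ≤ r := by
    by_contra hcon
    push Not at hcon
    nlinarith [sq_nonneg t]
  rw [← hr2] at h1
  rw [← hr]
  have hrp : 0 < r := by linarith
  calc r * ‖((⟨-1 / 2, t⟩ : ℂ) * riemannZeta (⟨-1 / 2, t⟩ : ℂ))⁻¹‖ ≤ r * (B / r ^ 2) := by gcongr
    _ = B / r := by field_simp
    _ ≤ B / (1 / 2) := by gcongr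
    _ = 2 * B := by ring

end Pool.Agent.Y763.HB
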