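import Pool.Agent.Y763.HB.EX1

/-! The explicit formula for `1/ζ`. -/

set_option autoImplicit false
set_option maxHeartbeats 2000000

open Complex Filter Topology Set MeasureTheory

namespace Pool.Agent.Y763.HB

open Pool.Agent.Y23 (Dec JJ JJ_eq JJ_norm dec_int dec_cont dec_line)
open Pool.Agent.W120.WM (ZC NT T_RES)
open Pool.Agent.W280.WM (z1_eq fin_NT lim_bot Fz Fz_zero)

/-- the integrand -/
noncomputable def GH (h : ℂ → ℂ) (s : ℂ) : ℂ := (riemannZeta s)⁻¹ * h (s - 1 / 2)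

lemma NT_ne_one {ρ : ℂ} (hρ : ρ ∈ NT) : ρ ≠ 1 := by
  intro hs
  have := hρ.2.2
  rw [hs] at this
  simp at this

lemma NT_ne_zero {ρ : ℂ} (hρ : ρ ∈ NT) : ρ ≠ 0 := by
  intro hs
  have := hρ.2.1
  rw [hs] at this
  simp at this

lemma z1_zero (s : ℂ) (h1 : -1 / 2 ≤ s.re) : riemannZeta₁ s = 0 ↔ s ∈ NT := by
  constructor
  · intro h
    have h2 : Fz s = 0 := by unfold Fz; rw [h, mul_zero]
    rcases (Fz_zero s h1).1 h2 with h3 | h3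
    · rw [h3, z1_eq 0 zero_ne_one, riemannZeta_zero] at h
      norm_num at h
    · exact h3
  · intro h
    rw [z1_eq s (NT_ne_one h), h.1, mul_zero]

lemma deriv_z1 (ρ : ℂ) (hρ : ρ ∈ NT) : deriv riemannZeta₁ ρ = (ρ - 1) * deriv riemannZeta ρ := by
  have hs := NT_ne_one hρ
  have h2 : HasDerivAt (fun s : ℂ => (s - 1) * riemannZeta s)
      (1 * riemannZeta ρ + (ρ - 1) * deriv riemannZeta ρ) ρ :=
    ((hasDerivAt_id ρ).sub_const 1).mul (differentiableAt_riemannZeta hs).hasDerivAt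
  have h3 : riemannZeta₁ =ᶠ[𝓝 ρ] fun s : ℂ => (s - 1) * riemannZeta s := by
    filter_upwards [isOpen_ne.mem_nhds hs] with s hs'
    exact z1_eq s hs'
  rw [h3.deriv_eq, h2.deriv, hρ.1]; ring

theorem rect' (hsimple : ∀ ρ ∈ NT, deriv riemannZeta ρ ≠ 0) {h : ℂ → ℂ} (hd : Differentiable ℂ h)
    (U : ℝ) (hU : 1 ≤ U)
    (hz : ∀ σ ∈ Icc (-1 / 2 : ℝ) (3 / 2), ∀ t : ℝ, |t| = U → riemannZeta (⟨σ, t⟩ : ℂ) ≠ 0)
    (Z : Finset ℂ) (hZ : ∀ ρ, ρ ∈ Z ↔ ρ ∈ NT ∧ |ρ.im| ≤ U) :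
    ∑ ρ ∈ Z, h (ρ - 1 / 2) / deriv riemannZeta ρ =
      (2 * Real.pi * Complex.I)⁻¹ *
        ((∫ x in (-1 / 2 : ℝ)..(3 / 2), GH h (⟨x, -U⟩ : ℂ)) -
          ∫ x in (-1 / 2 : ℝ)..(3 / 2), GH h (⟨x, U⟩ : ℂ)) +
      ((2 * Real.pi : ℝ) : ℂ)⁻¹ * ((∫ y in (-U)..U, GH h (⟨3 / 2, y⟩ : ℂ)) -
          ∫ y in (-U)..U, GH h (⟨-1 / 2, y⟩ : ℂ)) := by
  have key := Pool.Agent.W565.WM.t_res riemannZeta₁ (fun s => (s - 1) * h (s - 1 / 2)) Z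
    (-1 / 2) (3 / 2) (-U) U (by norm_num) (by linarith)
    differentiable_riemannZeta₁ (Differentiable.mul (by fun_prop) (hd.comp (by fun_prop))) (by
      intro s hs
      rw [Complex.mem_reProdIm] at hs
      rw [z1_zero s hs.1.1, hZ]
      have : |s.im| ≤ U := abs_le.mpr hs.2
      tauto) (by
      intro ρ hρ
      rw [hZ] at hρ
      have hne : |ρ.im| ≠ U := by
        intro he
        have h1 := hz ρ.re ⟨by linarith [hρ.1.2.1], by linarith [hρ.1.2.2]⟩ ρ.im he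
        exact h1 hρ.1.1
      have hlt : |ρ.im| < U := lt_of_le_of_ne hρ.2 hne
      refine ⟨?_, ?_⟩
      · rw [Complex.mem_reProdIm]
        refine ⟨⟨by linarith [hρ.1.2.1], by linarith [hρ.1.2.2]⟩, abs_lt.mp hlt⟩
      · rw [deriv_z1 ρ hρ.1]
        exact mul_ne_zero (sub_ne_zero.2 (NT_ne_one hρ.1)) (hsimple ρ hρ.1))
  have hsum : ∑ ρ ∈ Z, (ρ - 1) * h (ρ - 1 / 2) / deriv riemannZeta₁ ρ =
      ∑ ρ ∈ Z, h (ρ - 1 / 2) / deriv riemannZeta ρ := by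
    apply Finset.sum_congr rfl
    intro ρ hρ
    rw [hZ] at hρ
    rw [deriv_z1 ρ hρ.1, mul_div_mul_left _ _ (sub_ne_zero.2 (NT_ne_one hρ.1))]
  have hq : ∀ s : ℂ, s ≠ 1 → (s - 1) * h (s - 1 / 2) / riemannZeta₁ s = GH h s := by
    intro s hs
    rw [z1_eq s hs, mul_div_mul_left _ _ (sub_ne_zero.2 hs)]
    unfold GH
    rw [div_eq_mul_inv, mul_comm]
  have hc : ∀ (t : ℝ), t ≠ 0 → (∫ x in (-1 / 2 : ℝ)..(3 / 2),
      ((⟨x, t⟩ : ℂ) - 1) * h ((⟨x, t⟩ : ℂ) - 1 / 2) / riemannZeta₁ ⟨x, t⟩) =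
      ∫ x in (-1 / 2 : ℝ)..(3 / 2), GH h (⟨x, t⟩ : ℂ) := by
    intro t ht
    apply intervalIntegral.integral_congr
    intro x _
    apply hq
    intro h1
    have h2 := congrArg Complex.im h1
    exact ht h2
  have hr : ∀ (σ : ℝ), σ ≠ 1 → (∫ y in (-U)..U,
      ((⟨σ, y⟩ : ℂ) - 1) * h ((⟨σ, y⟩ : ℂ) - 1 / 2) / riemannZeta₁ ⟨σ, y⟩) =
      ∫ y in (-U)..U, GH h (⟨σ, y⟩ : ℂ) := by
    intro σ hσ
    apply intervalIntegral.integral_congr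
    intro y _
    apply hq
    intro h1
    have h2 := congrArg Complex.re h1
    exact hσ h2
  rw [hc (-U) (by linarith), hc U (by linarith), hr (3 / 2) (by norm_num), hr (-1 / 2) (by norm_num), hsum] at key
  have hpi : (Real.pi : ℂ) ≠ 0 := by exact_mod_cast Real.pi_ne_zero
  have hI := Complex.I_ne_zero
  generalize (∫ x in (-1 / 2 : ℝ)..(3 / 2), GH h (⟨x, -U⟩ : ℂ)) = A1 at key ⊢
  generalize (∫ x in (-1 / 2 : ℝ)..(3 / 2), GH h (⟨x, U⟩ : ℂ)) = A2 at key ⊢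
  generalize (∫ y in (-U)..U, GH h (⟨3 / 2, y⟩ : ℂ)) = A3 at key ⊢
  generalize (∫ y in (-U)..U, GH h (⟨-1 / 2, y⟩ : ℂ)) = A4 at key ⊢
  generalize (∑ ρ ∈ Z, h (ρ - 1 / 2) / deriv riemannZeta ρ) = A5 at key ⊢
  push_cast
  field_simp
  linear_combination (-1 : ℂ) * key

lemma hor_b {h : ℂ → ℂ} {M δ : ℝ} (_hM : 0 ≤ M) (hh : Dec h M δ) (U L t : ℝ) (ht : |t| = U)
    (hz : ∀ σ ∈ Icc (-1 / 2 : ℝ) (3 / 2), ‖(riemannZeta (⟨σ, t⟩ : ℂ))⁻¹‖ ≤ Real.exp L) :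
    ‖∫ x in (-1 / 2 : ℝ)..(3 / 2), GH h (⟨x, t⟩ : ℂ)‖ ≤ (Real.exp (L - δ * U ^ 2) * M) * 2 := by
  have h1 := intervalIntegral.norm_integral_le_of_norm_le_const (a := (-1 / 2 : ℝ)) (b := 3 / 2)
    (f := fun x => GH h (⟨x, t⟩ : ℂ))
    (C := Real.exp (L - δ * U ^ 2) * M) (by
      intro x hx
      have hx' : x ∈ Icc (-1 / 2 : ℝ) (3 / 2) := by
        rw [uIoc_of_le (by norm_num)] at hx
        exact ⟨hx.1.le, hx.2⟩
      unfold GH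
      rw [norm_mul]
      have h2 := hh.2 ((⟨x, t⟩ : ℂ) - 1 / 2) (by
        have e : ((⟨x, t⟩ : ℂ) - 1 / 2).re = x - 1 / 2 := by simp
        rw [e, abs_le]
        constructor <;> linarith [hx'.1, hx'.2])
      have e2 : ((⟨x, t⟩ : ℂ) - 1 / 2).im = t := by simp
      rw [e2] at h2
      have h3 : t ^ 2 = U ^ 2 := by rw [← ht, sq_abs]
      rw [h3] at h2
      calc ‖(riemannZeta (⟨x, t⟩ : ℂ))⁻¹‖ * ‖h ((⟨x, t⟩ : ℂ) - 1 / 2)‖ ≤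
            Real.exp L * (M * Real.exp (-δ * U ^ 2)) :=
            mul_le_mul (hz x hx') h2 (norm_nonneg _) (Real.exp_pos _).le
        _ = Real.exp (L - δ * U ^ 2) * M := by
            rw [sub_eq_add_neg, Real.exp_add, neg_mul]
            ring)
  have e : |(3 / 2 : ℝ) - (-1 / 2)| = 2 := by norm_num
  rw [e] at h1
  exact h1

end Pool.Agent.Y763.HB
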