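import Pool.Agent.Y763.HB.EX2

/-! The explicit formula for `1/ζ`. -/

set_option autoImplicit false
set_option maxHeartbeats 2000000

open Complex Filter Topology Set MeasureTheory

namespace Pool.Agent.Y763.HB

open Pool.Agent.Y23 (Dec JJ JJ_eq JJ_norm dec_int dec_cont dec_line zsummable mu_pos exp_neg_le_inv)
open Pool.Agent.W120.WM (ZC NT)
open Pool.Agent.W280.WM (z1_eq fin_NT lim_bot)

theorem ex_lim (hsimple : ∀ ρ ∈ NT, deriv riemannZeta ρ ≠ 0) {h : ℂ → ℂ} {M δ : ℝ} (hδ : 0 < δ) (hM : 0 ≤ M)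
    (hh : Dec h M δ) (hS : Summable fun ρ : NT => h ((ρ : ℂ) - 1 / 2) / deriv riemannZeta ρ) :
    ∑' ρ : NT, h ((ρ : ℂ) - 1 / 2) / deriv riemannZeta ρ = ((2 * Real.pi : ℝ) : ℂ)⁻¹ *
      ((∑' n : ℕ, muc n * JJ h (Real.log n)) - ∫ y : ℝ, (riemannZeta ⟨-1 / 2, y⟩)⁻¹ * h ⟨-1, y⟩) := by
  obtain ⟨C, hC, hgood⟩ := Pool.Agent.W915.WM.hor
  have hk : ∀ k : ℕ, ∃ U ∈ Icc ((k : ℝ) + 3) ((k : ℝ) + 3 + 1),
      ∀ σ ∈ Icc (-1 / 2 : ℝ) (3 / 2), ∀ t : ℝ, |t| = U →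
        riemannZeta (⟨σ, t⟩ : ℂ) ≠ 0 ∧
          ‖(riemannZeta (⟨σ, t⟩ : ℂ))⁻¹‖ ≤ Real.exp (C * Real.log ((k : ℝ) + 3) ^ 2) := by
    intro k
    apply hgood
    have : (0 : ℝ) ≤ k := Nat.cast_nonneg k
    linarith
  choose U hUI hUz using hk
  have hU1 : ∀ k, 1 ≤ U k := by
    intro k
    have h1 : (0 : ℝ) ≤ k := Nat.cast_nonneg k
    have h2 := (hUI k).1
    linarith
  have hU0 : ∀ k, 0 ≤ U k := fun k => le_trans zero_le_one (hU1 k)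
  have hZmem : ∀ k ρ, ρ ∈ (fin_NT (U k)).toFinset ↔ ρ ∈ NT ∧ |ρ.im| ≤ U k := by
    intro k ρ
    rw [Set.Finite.mem_toFinset]
    exact Iff.rfl
  have hUtop : Tendsto U atTop atTop := by
    apply tendsto_atTop_mono (fun k => (hUI k).1)
    exact tendsto_atTop_add_const_right atTop 3 tendsto_natCast_atTop_atTop
  have hUbot : Tendsto (fun k => -U k) atTop atBot := tendsto_neg_atTop_atBot.comp hUtop
  -- the sum over the zeros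
  have hsumlim : Tendsto (fun k => ∑ ρ ∈ (fin_NT (U k)).toFinset, h (ρ - 1 / 2) / deriv riemannZeta ρ) atTop
      (𝓝 (∑' ρ : NT, h ((ρ : ℂ) - 1 / 2) / deriv riemannZeta ρ)) := by
    classical
    have h1 : Tendsto (fun k => ((fin_NT (U k)).toFinset.subtype (fun ρ => ρ ∈ NT))) atTop atTop := by
      rw [tendsto_atTop]
      intro u
      have h2 : ∀ᶠ k in atTop, ∀ ρ ∈ u, |(ρ : ℂ).im| ≤ U k :=
        (Finset.eventually_all u).2 fun ρ _ => hUtop.eventually_ge_atTop _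
      filter_upwards [h2] with k hk ρ hρ
      rw [Finset.mem_subtype, hZmem]
      exact ⟨ρ.2, hk ρ hρ⟩
    refine (hS.hasSum.comp h1).congr fun k => ?_
    simp only [Function.comp]
    exact Finset.sum_subtype_of_mem (fun ρ => h (ρ - 1 / 2) / deriv riemannZeta ρ)
      (fun ρ hρ => ((hZmem k ρ).1 hρ).1)
  have hrect := fun k => rect' hsimple hh.1 (U k) (hU1 k) (fun σ hσ t ht => (hUz k σ hσ t ht).1)
    (fin_NT (U k)).toFinset (hZmem k)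
  -- horizontal integrals
  have hexp : Tendsto (fun k : ℕ => (Real.exp (C * Real.log ((k : ℝ) + 3) ^ 2 - δ * U k ^ 2) * M) * 2) atTop (𝓝 0) := by
    have h1 : Tendsto (fun k : ℕ => C * Real.log ((k : ℝ) + 3) ^ 2 - δ * U k ^ 2) atTop atBot := by
      have h2 := (lim_bot 0 C δ hC hδ).comp
        (tendsto_atTop_add_const_right atTop (3 : ℝ) tendsto_natCast_atTop_atTop)
      refine tendsto_atBot_mono (fun k => ?_) h2
      have h3 : (0 : ℝ) ≤ k := Nat.cast_nonneg k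
      have h4 : ((k : ℝ) + 3) ^ 2 ≤ U k ^ 2 := by
        have := (hUI k).1
        exact pow_le_pow_left₀ (by linarith) this 2
      have h5 := mul_le_mul_of_nonneg_left h4 hδ.le
      show C * Real.log ((k : ℝ) + 3) ^ 2 - δ * U k ^ 2 ≤
        0 + C * Real.log ((k : ℝ) + 3) ^ 2 - δ * ((k : ℝ) + 3) ^ 2
      linarith
    have h2 := ((Real.tendsto_exp_atBot.comp h1).mul_const M).mul_const 2
    rw [zero_mul, zero_mul] at h2
    exact h2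
  have hB1 : Tendsto (fun k => ∫ x in (-1 / 2 : ℝ)..(3 / 2), GH h (⟨x, -U k⟩ : ℂ)) atTop (𝓝 0) := by
    apply squeeze_zero_norm _ hexp
    intro k
    have ht : |-U k| = U k := by rw [abs_neg, abs_of_nonneg (hU0 k)]
    exact hor_b hM hh (U k) _ (-U k) ht (fun σ hσ => (hUz k σ hσ _ ht).2)
  have hB2 : Tendsto (fun k => ∫ x in (-1 / 2 : ℝ)..(3 / 2), GH h (⟨x, U k⟩ : ℂ)) atTop (𝓝 0) := by
    apply squeeze_zero_norm _ hexp
    intro k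
    have ht : |U k| = U k := abs_of_nonneg (hU0 k)
    exact hor_b hM hh (U k) _ (U k) ht (fun σ hσ => (hUz k σ hσ _ ht).2)
  have eR : (fun y : ℝ => GH h (⟨3 / 2, y⟩ : ℂ)) = fun y => (riemannZeta ⟨3 / 2, y⟩)⁻¹ * h ⟨1, y⟩ := by
    funext y
    unfold GH
    have e : ((⟨3 / 2, y⟩ : ℂ) - 1 / 2) = ⟨1, y⟩ := by apply Complex.ext <;> simp; norm_num
    rw [e]
  have eL : (fun y : ℝ => GH h (⟨-1 / 2, y⟩ : ℂ)) = fun y => (riemannZeta ⟨-1 / 2, y⟩)⁻¹ * h ⟨-1, y⟩ := by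
    funext y
    unfold GH
    have e : ((⟨-1 / 2, y⟩ : ℂ) - 1 / 2) = ⟨-1, y⟩ := by apply Complex.ext <;> simp; norm_num
    rw [e]
  have iR : Integrable (fun y : ℝ => (riemannZeta ⟨3 / 2, y⟩)⁻¹ * h ⟨1, y⟩) :=
    dec_mul_int' inv_line_cont inv_line_bd hδ hh (by norm_num)
  obtain ⟨K, hK0, hK⟩ := left_bd
  have iL : Integrable (fun y : ℝ => (riemannZeta ⟨-1 / 2, y⟩)⁻¹ * h ⟨-1, y⟩) :=
    dec_mul_int' left_cont hK hδ hh (by norm_num)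
  have hR : Tendsto (fun k => ∫ y in (-U k)..(U k), GH h (⟨3 / 2, y⟩ : ℂ)) atTop
      (𝓝 (∫ y : ℝ, (riemannZeta ⟨3 / 2, y⟩)⁻¹ * h ⟨1, y⟩)) := by
    have := intervalIntegral_tendsto_integral iR hUbot hUtop
    rw [← eR] at this ⊢
    exact this
  have hL : Tendsto (fun k => ∫ y in (-U k)..(U k), GH h (⟨-1 / 2, y⟩ : ℂ)) atTop
      (𝓝 (∫ y : ℝ, (riemannZeta ⟨-1 / 2, y⟩)⁻¹ * h ⟨-1, y⟩)) := by
    have := intervalIntegral_tendsto_integral iL hUbot hUtop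
    rw [← eL] at this ⊢
    exact this
  have hlim := ((hB1.sub hB2).const_mul ((2 * Real.pi * Complex.I)⁻¹)).add
    ((hR.sub hL).const_mul (((2 * Real.pi : ℝ) : ℂ)⁻¹))
  rw [sub_zero, mul_zero, zero_add] at hlim
  rw [(right_line hδ hM hh).tsum_eq]
  refine tendsto_nhds_unique hsumlim (hlim.congr (fun k => ?_))
  exact (hrect k).symm

/-- summability under `ZC` -/
lemma ex_summ (hZ : ZC) {h : ℂ → ℂ} {M δ : ℝ} (hδ : 0 < δ) (hM : 0 ≤ M) (hh : Dec h M δ) :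
    Summable fun ρ : NT => ‖h ((ρ : ℂ) - 1 / 2) / deriv riemannZeta ρ‖ := by
  obtain ⟨S, hS⟩ : ∃ S : ℝ, S = ∑' ρ : NT, 1 / ‖(ρ : ℂ) * deriv riemannZeta ρ‖ ^ 2 := ⟨_, rfl⟩
  have hS0 : 0 ≤ S := by rw [hS]; exact tsum_nonneg fun ρ => by positivity
  have h1 : ∀ ρ : NT, 1 / ‖deriv riemannZeta (ρ : ℂ)‖ ≤ (1 + S) * ‖(ρ : ℂ)‖ := by
    intro ρ
    have h2 : 1 / ‖(ρ : ℂ) * deriv riemannZeta ρ‖ ^ 2 ≤ S := by
      rw [hS]
      exact hZ.2.le_tsum ρ fun _ _ => by positivity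
    have h3 : 0 < ‖deriv riemannZeta (ρ : ℂ)‖ := norm_pos_iff.2 (hZ.1 ρ ρ.2).2
    have h4 : 0 < ‖(ρ : ℂ)‖ := norm_pos_iff.2 (NT_ne_zero ρ.2)
    obtain ⟨x, hx⟩ : ∃ x : ℝ, x = 1 / ‖(ρ : ℂ) * deriv riemannZeta ρ‖ := ⟨_, rfl⟩
    have hx0 : 0 < x := by rw [hx, norm_mul]; positivity
    have h5 : x ^ 2 ≤ S := by
      rw [hx, div_pow, one_pow]
      exact h2
    have h6 : x ≤ 1 + S := by nlinarith [sq_nonneg (x - 1)]
    have h7 : 1 / ‖deriv riemannZeta (ρ : ℂ)‖ = x * ‖(ρ : ℂ)‖ := by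
      rw [hx, norm_mul]
      field_simp
    rw [h7]
    gcongr
  have hz := zsummable 0
  refine Summable.of_nonneg_of_le (fun ρ => norm_nonneg _) (fun ρ => ?_)
    (hz.mul_left (M * (1 + S) * (3 * (1 + 2 / δ) ^ 2)))
  have e2 : ((ρ : ℂ) - 1 / 2).im = (ρ : ℂ).im := by simp
  have h2 := hh.2 ((ρ : ℂ) - 1 / 2) (by
    have e : ((ρ : ℂ) - 1 / 2).re = (ρ : ℂ).re - 1 / 2 := by simp
    rw [e, abs_le]
    have := ρ.2
    constructor <;> linarith [this.2.1, this.2.2])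
  rw [e2] at h2
  obtain ⟨t, ht⟩ : ∃ t : ℝ, t = (ρ : ℂ).im := ⟨_, rfl⟩
  have h3 : ‖(ρ : ℂ)‖ ≤ 1 + |t| := by
    refine (Complex.norm_le_abs_re_add_abs_im _).trans ?_
    have := ρ.2
    rw [abs_of_pos this.2.1, ht]
    linarith [this.2.2]
  have h4 := h1 ρ
  have h5 : (1:ℝ) ≤ Pool.Agent.Y23.mu ρ := by exact_mod_cast mu_pos ρ.2
  rw [← ht] at h2 ⊢
  have h6 : (1 + |t|) * Real.exp (-δ * t ^ 2) ≤ 3 * (1 + 2 / δ) ^ 2 * (1 / (1 + (t - 0) ^ 2)) := by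
    have e1 : Real.exp (-δ * t ^ 2) = Real.exp (-(δ / 2) * t ^ 2) * Real.exp (-(δ / 2) * t ^ 2) := by
      rw [← Real.exp_add]
      congr 1
      ring
    have e3 := exp_neg_le_inv (x := t) (half_pos hδ)
    have e4 : 1 + 1 / (δ / 2) = 1 + 2 / δ := by field_simp
    rw [e4] at e3
    rw [e1, sub_zero]
    have hp : 0 < 1 + t ^ 2 := by positivity
    have hq : 1 + |t| ≤ 3 * (1 + t ^ 2) := by
      have := sq_abs t
      nlinarith [sq_nonneg (|t| - 1), abs_nonneg t]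
    calc (1 + |t|) * (Real.exp (-(δ / 2) * t ^ 2) * Real.exp (-(δ / 2) * t ^ 2)) ≤
          (3 * (1 + t ^ 2)) * (((1 + 2 / δ) * (1 / (1 + t ^ 2))) * ((1 + 2 / δ) * (1 / (1 + t ^ 2)))) := by gcongr
      _ = 3 * (1 + 2 / δ) ^ 2 * (1 / (1 + t ^ 2)) := by
          field_simp
  rw [norm_div, div_eq_mul_one_div]
  calc ‖h ((ρ : ℂ) - 1 / 2)‖ * (1 / ‖deriv riemannZeta (ρ : ℂ)‖) ≤
        (M * Real.exp (-δ * t ^ 2)) * ((1 + S) * (1 + |t|)) := by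
        refine mul_le_mul h2 (h4.trans (by gcongr)) (by positivity) (by positivity)
    _ = M * (1 + S) * ((1 + |t|) * Real.exp (-δ * t ^ 2)) := by ring
    _ ≤ M * (1 + S) * (3 * (1 + 2 / δ) ^ 2 * (1 / (1 + (t - 0) ^ 2))) := by gcongr
    _ = (M * (1 + S) * (3 * (1 + 2 / δ) ^ 2)) * (1 * (1 / (1 + (t - 0) ^ 2))) := by ring
    _ ≤ (M * (1 + S) * (3 * (1 + 2 / δ) ^ 2)) * ((Pool.Agent.Y23.mu ρ : ℝ) * (1 / (1 + (t - 0) ^ 2))) := by gcongr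

/-- the explicit formula for `1/ζ` -/
theorem ex (hZ : ZC) {h : ℂ → ℂ} {M δ : ℝ} (hδ : 0 < δ) (hM : 0 ≤ M) (hh : Dec h M δ) :
    ∑' ρ : NT, h ((ρ : ℂ) - 1 / 2) / deriv riemannZeta ρ = ((2 * Real.pi : ℝ) : ℂ)⁻¹ *
      ((∑' n : ℕ, muc n * JJ h (Real.log n)) - ∫ y : ℝ, (riemannZeta ⟨-1 / 2, y⟩)⁻¹ * h ⟨-1, y⟩) :=
  ex_lim (fun ρ hρ => (hZ.1 ρ hρ).2) hδ hM hh (ex_summ hZ hδ hM hh).of_norm

end Pool.Agent.Y763.HB
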