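import Mathlib

/-! Project HB (helper763), MP_0575cc_nt: statements of the pieces. -/

set_option autoImplicit false

open MeasureTheory Filter Topology Set

namespace Pool.Agent.Y763.HB

/-! ## Arithmetic sums -/

/-- `∑_{n ≤ N} μ(n)² / n` -/
noncomputable def D1 (N : ℕ) : ℝ :=
  ∑ n ∈ Finset.Icc 1 N, ((ArithmeticFunction.moebius n : ℤ) : ℝ) ^ 2 / n

/-- `∑_{m k ≤ N} Λ(k) μ(m) μ(m k) / (m k)` -/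
noncomputable def D2 (N : ℕ) : ℝ := ∑ k ∈ Finset.Icc 1 N, ∑ m ∈ Finset.Icc 1 (N / k),
  ArithmeticFunction.vonMangoldt k * ((ArithmeticFunction.moebius m : ℤ) : ℝ) *
    ((ArithmeticFunction.moebius (m * k) : ℤ) : ℝ) / ((m : ℝ) * k)

def S_D1 : Prop := ∃ C : ℝ, 0 < C ∧ ∀ N : ℕ, 1 ≤ N →
  |D1 N - 6 / Real.pi ^ 2 * Real.log N| ≤ C

def S_D2 : Prop := S_D1 → ∃ C : ℝ, 0 < C ∧ ∀ N : ℕ, 1 ≤ N →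
  -D2 N ≤ 3 / Real.pi ^ 2 * Real.log N ^ 2 + C * (1 + Real.log N)

/-! ## The kernel -/

/-- the test functions `P(e^{-x²}) e^{-x²}` -/
noncomputable def ph (P : Polynomial ℝ) (x : ℝ) : ℝ :=
  P.eval (Real.exp (-x ^ 2)) * Real.exp (-x ^ 2)

/-- the limit kernel (times `x²`) -/
noncomputable def kk (x : ℝ) : ℝ := ∫ u in (1:ℝ)..2, u * (2 - 2 * Real.cos (x / u))

/-- the weight of an ordinate `g` at scale `T` -/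
noncomputable def KT (T g : ℝ) : ℝ :=
  T * ∫ u in (1:ℝ)..2, √((u - 1 / (2 * T)) * (u + 1 / (2 * T))) *
    (2 - 2 * Real.cos (g * Real.log ((u + 1 / (2 * T)) / (u - 1 / (2 * T)))))

def S_KINT : Prop := IntegrableOn (fun x : ℝ => kk x / x ^ 2) (Ioi 0) ∧
  ∫ x in Ioi (0:ℝ), kk x / x ^ 2 = Real.pi

def S_KPOS : Prop := (∀ X : ℝ, 0 < X → ∃ c : ℝ, 0 < c ∧ ∀ x : ℝ, |x| ≤ X → c * x ^ 2 ≤ kk x) ∧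
  ∀ x : ℝ, 16 ≤ |x| → 1 / 16 ≤ kk x

def S_KBIG : Prop := ∀ T g : ℝ, 1 ≤ T → 16 * T ≤ |g| → T / 16 ≤ KT T g

def S_KCMP : Prop := ∃ C : ℝ, 0 < C ∧ ∀ T g : ℝ, 1 ≤ T →
  T * (kk (g / T) - C * (g / T) ^ 2 / T) ≤ KT T g

def S_KPOLY : Prop := S_KINT → S_KPOS → ∀ δ : ℝ, 0 < δ → ∃ P : Polynomial ℝ,
  (∀ y ∈ Icc (0:ℝ) 1, 0 ≤ P.eval y) ∧
  Real.pi - δ ≤ (∫ x in Ioi (0:ℝ), ph P x) ∧ (∀ x : ℝ, x ^ 2 * ph P x ≤ kk x)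

def S_KER : Prop := S_KPOS → S_KBIG → S_KCMP → ∀ P : Polynomial ℝ,
  (∀ y ∈ Icc (0:ℝ) 1, 0 ≤ P.eval y) → (∀ x : ℝ, x ^ 2 * ph P x ≤ kk x) →
  ∀ δ : ℝ, 0 < δ → ∀ᶠ T : ℝ in atTop, ∀ g : ℝ, (1 - δ) * (g ^ 2 / T) * ph P (g / T) ≤ KT T g

/-! ## Estimates -/

/-- off-diagonal terms -/
def S_OFF : Prop := ∀ J ε : ℝ, 0 < J → 0 < ε → ε < 1 → ∀ᶠ T : ℝ in atTop, ∀ N : ℕ,
  (N : ℝ) ≤ T ^ (1 - ε) → ∀ n ∈ Finset.Icc 1 N, ∀ l : ℕ, 1 ≤ l → l ≠ n →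
    T * Real.exp (-(T ^ 2 * Real.log ((n : ℝ) / l) ^ 2 / (4 * J))) ≤ 1 / (T ^ 2 * (l : ℝ) ^ 2)

/-- the archimedean term -/
def S_ARCH : Prop := ∀ P : Polynomial ℝ, (∀ y ∈ Icc (0:ℝ) 1, 0 ≤ P.eval y) → ∀ B ε : ℝ, 0 < ε →
  ∀ᶠ T : ℝ in atTop, ∀ G : ℝ → ℝ, Continuous G → (∀ y, 0 ≤ G y ∧ G y ≤ T ^ 2) →
    ∫ y : ℝ, (Real.log (2 + |y|) + B) * (G y * ph P (y / T)) ≤
      (1 + ε) * Real.log T * (∫ y : ℝ, G y * ph P (y / T)) + 1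

/-- Fourier transform of the test functions -/
def S_FT : Prop := ∀ P : Polynomial ℝ, ∃ C J : ℝ, 0 < C ∧ 1 ≤ J ∧ ∀ T : ℝ, 0 < T →
  (∫ y : ℝ, ((ph P (y / T) : ℝ) : ℂ) = ((T * ∫ x : ℝ, ph P x : ℝ) : ℂ)) ∧
  ∀ w : ℝ, ‖∫ y : ℝ, Complex.exp (Complex.I * (y * w : ℝ)) * ((ph P (y / T) : ℝ) : ℂ)‖ ≤
    C * T * Real.exp (-(T ^ 2 * w ^ 2 / (4 * J)))

end Pool.Agent.Y763.HB
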