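import Mathlib
import Pool.Agent.Y763.HB.Stm

set_option autoImplicit false

open MeasureTheory Filter Topology Set

namespace Pool.Agent.Y763.HB

lemma ph_sum (P : Polynomial ℝ) (x : ℝ) : ph P x =
    ∑ j ∈ Finset.range (P.natDegree + 1), P.coeff j * Real.exp (-(((j : ℝ) + 1) * x ^ 2)) := by
  unfold ph
  rw [Polynomial.eval_eq_sum_range, Finset.sum_mul]
  refine Finset.sum_congr rfl fun j _ => ?_
  rw [mul_assoc, ← Real.exp_nat_mul, ← Real.exp_add]
  congr 2
  ring

lemma gauss_term (b w : ℝ) (hb : 0 < b) :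
    Integrable (fun y : ℝ => Complex.exp (Complex.I * (y * w : ℝ)) *
      ((Real.exp (-(b * y ^ 2)) : ℝ) : ℂ)) ∧
    ‖∫ y : ℝ, Complex.exp (Complex.I * (y * w : ℝ)) * ((Real.exp (-(b * y ^ 2)) : ℝ) : ℂ)‖ =
      √(Real.pi / b) * Real.exp (-(w ^ 2 / (4 * b))) := by
  constructor
  · refine Integrable.mono' (integrable_exp_neg_mul_sq hb) ?_ (ae_of_all _ fun y => ?_)
    · exact Continuous.aestronglyMeasurable (by fun_prop)
    · rw [norm_mul, Complex.norm_exp, Complex.norm_real, Real.norm_eq_abs, Real.abs_exp]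
      have h1 : (Complex.I * ((y * w : ℝ) : ℂ)).re = 0 := by
        rw [Complex.re_mul_ofReal]
        simp
      rw [h1, Real.exp_zero, one_mul, neg_mul]
  · have h := fourierIntegral_gaussian (b := (b : ℂ)) (by simpa using hb) (w : ℂ)
    have e : ∀ y : ℝ, Complex.exp (Complex.I * (y * w : ℝ)) *
        ((Real.exp (-(b * y ^ 2)) : ℝ) : ℂ) =
        Complex.exp (Complex.I * w * y) * Complex.exp (-b * y ^ 2) := by
      intro y
      rw [Complex.ofReal_exp]
      congr 2
      · push_cast
        ring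
      · push_cast
        ring
    simp_rw [e]
    rw [h, norm_mul]
    have h1 : ((Real.pi : ℂ) / (b : ℂ)) = ((Real.pi / b : ℝ) : ℂ) := by push_cast; rfl
    have h2 : (-(w : ℂ) ^ 2 / (4 * (b : ℂ))) = ((-(w ^ 2 / (4 * b)) : ℝ) : ℂ) := by
      push_cast
      ring
    rw [h1, h2, Complex.norm_cpow_eq_rpow_re_of_pos (by positivity), Complex.norm_exp_ofReal,
      Real.sqrt_eq_rpow]
    norm_num

theorem t_FT : S_FT := by
  intro P
  have hs0 : 0 ≤ ∑ j ∈ Finset.range (P.natDegree + 1), |P.coeff j| :=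
    Finset.sum_nonneg fun _ _ => abs_nonneg _
  refine ⟨√Real.pi * (∑ j ∈ Finset.range (P.natDegree + 1), |P.coeff j|) + 1,
    (P.natDegree : ℝ) + 1, by positivity, by simp, ?_⟩
  intro T hT
  constructor
  · rw [integral_complex_ofReal, Measure.integral_comp_div, abs_of_pos hT, smul_eq_mul]
  · intro w
    have e : ∀ y : ℝ, Complex.exp (Complex.I * (y * w : ℝ)) * ((ph P (y / T) : ℝ) : ℂ) =
        ∑ j ∈ Finset.range (P.natDegree + 1), ((P.coeff j : ℝ) : ℂ) *
          (Complex.exp (Complex.I * (y * w : ℝ)) *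
            ((Real.exp (-((((j : ℝ) + 1) / T ^ 2) * y ^ 2)) : ℝ) : ℂ)) := by
      intro y
      rw [ph_sum, Complex.ofReal_sum, Finset.mul_sum]
      refine Finset.sum_congr rfl fun j _ => ?_
      have h1 : ((j : ℝ) + 1) * (y / T) ^ 2 = (((j : ℝ) + 1) / T ^ 2) * y ^ 2 := by
        rw [div_pow]
        ring
      rw [h1]
      push_cast
      ring
    simp_rw [e]
    have hb : ∀ j : ℕ, 0 < ((j : ℝ) + 1) / T ^ 2 := fun j => by positivity
    rw [integral_finsetSum _ fun j _ => ((gauss_term _ w (hb j)).1.const_mul _)]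
    have hE : 0 < Real.exp (-(T ^ 2 * w ^ 2 / (4 * ((P.natDegree : ℝ) + 1)))) :=
      Real.exp_pos _
    calc ‖∑ j ∈ Finset.range (P.natDegree + 1), ∫ y : ℝ, ((P.coeff j : ℝ) : ℂ) *
          (Complex.exp (Complex.I * (y * w : ℝ)) *
            ((Real.exp (-((((j : ℝ) + 1) / T ^ 2) * y ^ 2)) : ℝ) : ℂ))‖
        ≤ ∑ j ∈ Finset.range (P.natDegree + 1), ‖∫ y : ℝ, ((P.coeff j : ℝ) : ℂ) *
          (Complex.exp (Complex.I * (y * w : ℝ)) *
            ((Real.exp (-((((j : ℝ) + 1) / T ^ 2) * y ^ 2)) : ℝ) : ℂ))‖ := norm_sum_le _ _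
      _ ≤ ∑ j ∈ Finset.range (P.natDegree + 1), |P.coeff j| * ((√Real.pi * T) *
          Real.exp (-(T ^ 2 * w ^ 2 / (4 * ((P.natDegree : ℝ) + 1))))) := by
          refine Finset.sum_le_sum fun j hj => ?_
          rw [integral_const_mul, norm_mul, Complex.norm_real, Real.norm_eq_abs,
            (gauss_term _ w (hb j)).2]
          have hj1 : (j : ℝ) + 1 ≤ (P.natDegree : ℝ) + 1 := by
            have : j ≤ P.natDegree := by
              have := Finset.mem_range.mp hj
              omega
            have h2 : (j : ℝ) ≤ (P.natDegree : ℝ) := by exact_mod_cast this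
            linarith
          have hj0 : (1 : ℝ) ≤ (j : ℝ) + 1 := by
            have : (0 : ℝ) ≤ (j : ℝ) := Nat.cast_nonneg j
            linarith
          refine mul_le_mul_of_nonneg_left ?_ (abs_nonneg _)
          refine mul_le_mul ?_ ?_ (Real.exp_pos _).le (by positivity)
          · rw [show √Real.pi * T = √(Real.pi * T ^ 2) by
              rw [Real.sqrt_mul Real.pi_pos.le, Real.sqrt_sq hT.le]]
            apply Real.sqrt_le_sqrt
            rw [div_div_eq_mul_div]
            exact div_le_self (by positivity) hj0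
          · apply Real.exp_le_exp.mpr
            apply neg_le_neg
            have h3 : w ^ 2 / (4 * (((j : ℝ) + 1) / T ^ 2)) =
                T ^ 2 * w ^ 2 / (4 * ((j : ℝ) + 1)) := by
              field_simp
            rw [h3]
            apply div_le_div_of_nonneg_left (by positivity) (by positivity)
            linarith
      _ = (√Real.pi * (∑ j ∈ Finset.range (P.natDegree + 1), |P.coeff j|)) * T *
          Real.exp (-(T ^ 2 * w ^ 2 / (4 * ((P.natDegree : ℝ) + 1)))) := by
          rw [← Finset.sum_mul]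
          ring
      _ ≤ (√Real.pi * (∑ j ∈ Finset.range (P.natDegree + 1), |P.coeff j|) + 1) * T *
          Real.exp (-(T ^ 2 * w ^ 2 / (4 * ((P.natDegree : ℝ) + 1)))) := by
          refine mul_le_mul_of_nonneg_right ?_ hE.le
          refine mul_le_mul_of_nonneg_right ?_ hT.le
          linarith

end Pool.Agent.Y763.HB
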