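import Mathlib
import Pool.Agent.Y763.HB.Stm

/-! Project HB (helper763): the kernel at large ordinates. -/

set_option autoImplicit false

open MeasureTheory Filter Topology Set

namespace Pool.Agent.Y763.HB

namespace KBIG

lemma pos_case (T G : ℝ) (hT : 1 ≤ T) (hG : 16 * T ≤ G) : T / 16 ≤ KT T G := by
  have hT0 : 0 < T := by linarith
  have hG0 : 0 < G := by linarith
  set h : ℝ := 1 / (2 * T) with hh
  have hh0 : 0 < h := by positivity
  have hh1 : h ≤ 1 / 2 := by
    rw [hh, div_le_div_iff₀ (by linarith) (by norm_num)]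
    linarith
  set x : ℝ := G / T with hx
  have hx16 : 16 ≤ x := by
    rw [hx, le_div_iff₀ hT0]
    exact hG
  have hx0 : 0 < x := by linarith
  have hxh : x = 2 * h * G := by
    rw [hx, hh]
    field_simp
  let ψ : ℝ → ℝ := fun u => G * Real.log ((u + h) / (u - h))
  let D : ℝ → ℝ := fun u => x / ((u - h) * (u + h))
  -- bounds of the denominators
  have hq : ∀ u ∈ Icc (1 : ℝ) 2, 3 / 4 ≤ (u - h) * (u + h) ∧ (u - h) * (u + h) ≤ 4 := by
    rintro u ⟨h1, h2⟩
    constructor <;> nlinarith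
  have hm : ∀ u ∈ Icc (1 : ℝ) 2, 0 < u - h ∧ 0 < u + h := by
    rintro u ⟨h1, h2⟩
    constructor <;> linarith
  have hDl : ∀ u ∈ Icc (1 : ℝ) 2, x / 4 ≤ D u := by
    intro u hu
    obtain ⟨a1, a2⟩ := hq u hu
    exact div_le_div_of_nonneg_left hx0.le (by linarith) a2
  have hDu : ∀ u ∈ Icc (1 : ℝ) 2, D u ≤ 4 * x / 3 := by
    intro u hu
    obtain ⟨a1, a2⟩ := hq u hu
    have : D u ≤ x / (3 / 4) := div_le_div_of_nonneg_left hx0.le (by norm_num) a1
    linarith
  have hder : ∀ u ∈ Icc (1 : ℝ) 2, HasDerivAt ψ (-(D u)) u := by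
    intro u hu
    obtain ⟨a1, a2⟩ := hm u hu
    have h1 : HasDerivAt (fun u : ℝ => (u + h) / (u - h))
        ((1 * (u - h) - (u + h) * 1) / (u - h) ^ 2) u :=
      ((hasDerivAt_id u).add_const h).div ((hasDerivAt_id u).sub_const h) a1.ne'
    have h2 := (h1.log (div_pos a2 a1).ne').const_mul G
    have b1 := a1.ne'
    have b2 := a2.ne'
    have e : -(D u) = G * ((1 * (u - h) - (u + h) * 1) / (u - h) ^ 2 / ((u + h) / (u - h))) := by
      show -(x / ((u - h) * (u + h))) = _
      rw [hxh]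
      field_simp
      ring
    rw [e]
    exact h2
  -- the antiderivative
  have hder2 : ∀ u ∈ Icc (1 : ℝ) 2, HasDerivAt (fun u => 2 * Real.sin (ψ u) - 2 * ψ u)
      ((2 - 2 * Real.cos (ψ u)) * D u) u := by
    intro u hu
    have h1 := ((hder u hu).sin.const_mul 2).sub ((hder u hu).const_mul 2)
    have e : (2 - 2 * Real.cos (ψ u)) * D u =
        2 * (Real.cos (ψ u) * -(D u)) - 2 * -(D u) := by ring
    rw [e]
    exact h1
  -- continuity
  have hψc : ContinuousOn ψ (Icc 1 2) := fun u hu => (hder u hu).continuousAt.continuousWithinAt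
  have hDc : ContinuousOn D (Icc 1 2) := by
    refine ContinuousOn.div continuousOn_const (by fun_prop) ?_
    intro u hu
    have := (hq u hu).1
    linarith
  have hfc : ContinuousOn (fun u : ℝ => √((u - h) * (u + h)) * (2 - 2 * Real.cos (ψ u)))
      (Icc 1 2) := by
    refine ContinuousOn.mul ?_ ?_
    · exact (Continuous.sqrt (by fun_prop)).continuousOn
    · exact continuousOn_const.sub (continuousOn_const.mul (Real.continuous_cos.comp_continuousOn hψc))
  have hgc : ContinuousOn (fun u : ℝ => (2 - 2 * Real.cos (ψ u)) * D u) (Icc 1 2) := by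
    refine ContinuousOn.mul ?_ hDc
    exact continuousOn_const.sub (continuousOn_const.mul (Real.continuous_cos.comp_continuousOn hψc))
  have hfi := hfc.intervalIntegrable_of_Icc (μ := volume) (by norm_num : (1 : ℝ) ≤ 2)
  have hgi := hgc.intervalIntegrable_of_Icc (μ := volume) (by norm_num : (1 : ℝ) ≤ 2)
  -- pointwise comparison
  have hcmp : ∀ u ∈ Icc (1 : ℝ) 2, 3 / (8 * x) * ((2 - 2 * Real.cos (ψ u)) * D u) ≤
      √((u - h) * (u + h)) * (2 - 2 * Real.cos (ψ u)) := by
    intro u hu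
    have c0 : 0 ≤ 2 - 2 * Real.cos (ψ u) := by
      have := Real.cos_le_one (ψ u)
      linarith
    have c1 : 1 / 2 ≤ √((u - h) * (u + h)) := by
      apply Real.le_sqrt_of_sq_le
      have := (hq u hu).1
      linarith
    have c2 : 3 / (8 * x) * D u ≤ 1 / 2 := by
      have := hDu u hu
      calc 3 / (8 * x) * D u ≤ 3 / (8 * x) * (4 * x / 3) :=
            mul_le_mul_of_nonneg_left this (by positivity)
        _ = 1 / 2 := by field_simp; norm_num
    calc 3 / (8 * x) * ((2 - 2 * Real.cos (ψ u)) * D u)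
        = (3 / (8 * x) * D u) * (2 - 2 * Real.cos (ψ u)) := by ring
      _ ≤ √((u - h) * (u + h)) * (2 - 2 * Real.cos (ψ u)) :=
          mul_le_mul_of_nonneg_right (c2.trans c1) c0
  have hint : ∫ u in (1 : ℝ)..2, 3 / (8 * x) * ((2 - 2 * Real.cos (ψ u)) * D u) ≤
      ∫ u in (1 : ℝ)..2, √((u - h) * (u + h)) * (2 - 2 * Real.cos (ψ u)) :=
    intervalIntegral.integral_mono_on (by norm_num) (hgi.const_mul _) hfi hcmp
  rw [intervalIntegral.integral_const_mul] at hint
  have hu12 : uIcc (1 : ℝ) 2 = Icc 1 2 := uIcc_of_le (by norm_num)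
  rw [intervalIntegral.integral_eq_sub_of_hasDerivAt (f := fun u => 2 * Real.sin (ψ u) - 2 * ψ u)
    (fun u hu => hder2 u (by rwa [hu12] at hu)) hgi] at hint
  -- the total variation
  obtain ⟨cc, hcc, hcd⟩ := exists_hasDerivAt_eq_slope ψ (fun u => -(D u))
    (by norm_num : (1 : ℝ) < 2) hψc (fun u hu => hder u (Ioo_subset_Icc_self hu))
  have hΔ : x / 4 ≤ ψ 1 - ψ 2 := by
    have e1 := hDl cc (Ioo_subset_Icc_self hcc)
    have e2 : -(D cc) = ψ 2 - ψ 1 := by
      rw [hcd]
      norm_num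
    linarith
  have s1 := Real.neg_one_le_sin (ψ 2)
  have s2 := Real.sin_le_one (ψ 1)
  have hfin : x / 4 ≤ 2 * Real.sin (ψ 2) - 2 * ψ 2 - (2 * Real.sin (ψ 1) - 2 * ψ 1) := by
    linarith
  have hlow : 3 / 32 ≤ ∫ u in (1 : ℝ)..2, √((u - h) * (u + h)) * (2 - 2 * Real.cos (ψ u)) := by
    refine le_trans ?_ hint
    calc (3 : ℝ) / 32 = 3 / (8 * x) * (x / 4) := by field_simp; norm_num
      _ ≤ _ := mul_le_mul_of_nonneg_left hfin (by positivity)
  have hKT : KT T G = T * ∫ u in (1 : ℝ)..2, √((u - h) * (u + h)) * (2 - 2 * Real.cos (ψ u)) :=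
    rfl
  rw [hKT]
  nlinarith

end KBIG

theorem t_KBIG : S_KBIG := by
  intro T g hT hg
  rcases le_or_gt 0 g with h | h
  · rw [abs_of_nonneg h] at hg
    exact KBIG.pos_case T g hT hg
  · rw [abs_of_neg h] at hg
    have h1 := KBIG.pos_case T (-g) hT hg
    have h2 : KT T (-g) = KT T g := by
      unfold KT
      simp only [neg_mul, Real.cos_neg]
    rwa [h2] at h1

end Pool.Agent.Y763.HB
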