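import Pool.Agent.Y763.HB.Stm

/-!
# HB-KCMP: comparison of the weight of an ordinate with the limit kernel
-/

set_option autoImplicit false

open MeasureTheory Filter Topology Set

namespace Pool.Agent.Y763.HB

namespace KCMP

lemma inv_T {T : ℝ} (hT : 1 ≤ T) : 0 < 1 / (2 * T) ∧ 1 / (2 * T) ≤ 1 / 2 := by
  have h0 : 0 < T := by linarith
  refine ⟨by positivity, ?_⟩
  rw [div_le_div_iff₀ (by positivity) (by norm_num)]
  linarith

/-- the window -/
lemma window {T u : ℝ} (hT : 1 ≤ T) (hu : u ∈ Icc (1:ℝ) 2) :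
    0 < u - 1 / (2 * T) ∧ 0 < u + 1 / (2 * T) ∧
    1 / (3 * T) ≤ Real.log ((u + 1 / (2 * T)) / (u - 1 / (2 * T))) ∧
    Real.log ((u + 1 / (2 * T)) / (u - 1 / (2 * T))) ≤ 2 / T ∧
    |Real.log ((u + 1 / (2 * T)) / (u - 1 / (2 * T))) - 1 / (u * T)| ≤ 2 / T ^ 2 ∧
    (√(u + 1 / (2 * T)) - √(u - 1 / (2 * T))) ^ 2 ≤ 1 / T ^ 2 ∧
    1 / 2 ≤ √((u - 1 / (2 * T)) * (u + 1 / (2 * T))) ∧
    |√((u - 1 / (2 * T)) * (u + 1 / (2 * T))) - u| ≤ 1 / T ^ 2 := by
  obtain ⟨hT1, hT2⟩ := inv_T hT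
  obtain ⟨hu1, hu2⟩ := hu
  have hT0 : 0 < T := by linarith
  obtain ⟨h, hh⟩ : ∃ h : ℝ, h = 1 / (2 * T) := ⟨_, rfl⟩
  rw [← hh] at hT1 hT2 ⊢
  have hTh : 1 / T = 2 * h := by rw [hh]; field_simp
  have hT2h : 1 / T ^ 2 = 4 * h ^ 2 := by rw [hh]; field_simp; ring
  obtain ⟨α, hα⟩ : ∃ α : ℝ, α = u - h := ⟨_, rfl⟩
  obtain ⟨β, hβ⟩ : ∃ β : ℝ, β = u + h := ⟨_, rfl⟩
  rw [← hα, ← hβ]
  have hα1 : 1 / 2 ≤ α := by rw [hα]; linarith
  have hβ1 : 1 ≤ β := by rw [hβ]; linarith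
  have hβ3 : β ≤ 3 := by rw [hβ]; linarith
  have hα0 : 0 < α := by linarith
  have hβ0 : 0 < β := by linarith
  have hβα : β - α = 2 * h := by rw [hα, hβ]; ring
  have hαβ : 1 / 2 ≤ α * β := by nlinarith
  have lo : 2 * h / β ≤ Real.log (β / α) := by
    have h1 := Real.one_sub_inv_le_log_of_pos (x := β / α) (by positivity)
    refine le_trans (le_of_eq ?_) h1
    rw [← hβα]
    field_simp
  have hi : Real.log (β / α) ≤ 2 * h / α := by
    have h1 := Real.log_le_sub_one_of_pos (x := β / α) (by positivity)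
    refine h1.trans (le_of_eq ?_)
    rw [← hβα]
    field_simp
  have hu0 : 0 < u := by linarith
  have huT : 1 / (u * T) = 2 * h / u := by rw [← hTh]; field_simp
  refine ⟨hα0, hβ0, ?_, ?_, ?_, ?_, ?_, ?_⟩
  · refine le_trans ?_ lo
    have e : 1 / (3 * T) = 2 * h / 3 := by rw [← hTh]; field_simp
    rw [e]
    gcongr
  · refine hi.trans ?_
    have e : 2 / T = 4 * h := by
      have : 2 / T = 2 * (1 / T) := by ring
      rw [this, hTh]
      ring
    rw [e, div_le_iff₀ hα0]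
    nlinarith
  · have e : 2 / T ^ 2 = 8 * h ^ 2 := by
      have : 2 / T ^ 2 = 2 * (1 / T ^ 2) := by ring
      rw [this, hT2h]
      ring
    rw [e, huT]
    have k1 : 2 * h / β ≤ 2 * h / u := by
      have : u ≤ β := by rw [hβ]; linarith
      gcongr
    have k2 : 2 * h / u ≤ 2 * h / α := by
      have : α ≤ u := by rw [hα]; linarith
      gcongr
    have k3 : 2 * h / α - 2 * h / β ≤ 8 * h ^ 2 := by
      have : 2 * h / α - 2 * h / β = 4 * h ^ 2 / (α * β) := by
        field_simp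
        rw [hβα]
        ring
      rw [this, div_le_iff₀ (by positivity)]
      nlinarith [sq_nonneg h]
    rw [abs_le]
    constructor <;> linarith
  · have h1 : (√β - √α) * (√β + √α) = 2 * h := by
      have := Real.sq_sqrt hα0.le
      have := Real.sq_sqrt hβ0.le
      nlinarith
    have h2 : 1 ≤ √β + √α := by
      have : 1 ≤ √β := Real.one_le_sqrt.2 hβ1
      have := Real.sqrt_nonneg α
      linarith
    have h3 : 0 ≤ √β - √α := by
      have : √α ≤ √β := Real.sqrt_le_sqrt (by linarith)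
      linarith
    have h4 : √β - √α ≤ 2 * h := by nlinarith
    rw [hT2h]
    nlinarith
  · rw [show (1:ℝ) / 2 = √((1 / 2) ^ 2) by rw [Real.sqrt_sq (by norm_num)]]
    exact Real.sqrt_le_sqrt (by nlinarith)
  · have h1 : α * β = u ^ 2 - h ^ 2 := by rw [hα, hβ]; ring
    have h2 := Real.sq_sqrt (show 0 ≤ α * β by positivity)
    obtain ⟨s, hs⟩ : ∃ s : ℝ, s = √(α * β) := ⟨_, rfl⟩
    have hs0 : 0 ≤ s := by rw [hs]; positivity
    rw [← hs] at h2 ⊢
    have h3 : (u - s) * (u + s) = h ^ 2 := by nlinarith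
    have h4 : 0 ≤ u - s := by
      by_contra hcon
      push Not at hcon
      nlinarith [sq_nonneg h, mul_pos hT1 hT1]
    have h5 : u - s ≤ h ^ 2 := by nlinarith
    rw [abs_sub_comm, abs_of_nonneg h4, hT2h]
    nlinarith [sq_nonneg h]

lemma cos_cmp (a b : ℝ) : |Real.cos a - Real.cos b| ≤ |a + b| * |a - b| / 2 := by
  rw [Real.cos_sub_cos, abs_mul, abs_mul, abs_neg, abs_two]
  have h1 := Real.abs_sin_le_abs (x := (a + b) / 2)
  have h2 := Real.abs_sin_le_abs (x := (a - b) / 2)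
  rw [abs_div, abs_two] at h1 h2
  have h3 : |Real.sin ((a + b) / 2)| * |Real.sin ((a - b) / 2)| ≤ |a + b| / 2 * (|a - b| / 2) :=
    mul_le_mul h1 h2 (abs_nonneg _) (by positivity)
  linarith

lemma pointwise {T u g : ℝ} (hT : 1 ≤ T) (hu : u ∈ Icc (1:ℝ) 2) :
    u * (2 - 2 * Real.cos (g / T / u)) - 16 * (g / T) ^ 2 / T ≤
      √((u - 1 / (2 * T)) * (u + 1 / (2 * T))) *
        (2 - 2 * Real.cos (g * Real.log ((u + 1 / (2 * T)) / (u - 1 / (2 * T))))) := by
  obtain ⟨w1, w2, w3, w4, w5, w6, w7, w8⟩ := window hT hu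
  have hT0 : 0 < T := by linarith
  have hu0 : 0 < u := by linarith [hu.1]
  obtain ⟨l, hl⟩ : ∃ l : ℝ, l = Real.log ((u + 1 / (2 * T)) / (u - 1 / (2 * T))) := ⟨_, rfl⟩
  obtain ⟨s, hs⟩ : ∃ s : ℝ, s = √((u - 1 / (2 * T)) * (u + 1 / (2 * T))) := ⟨_, rfl⟩
  obtain ⟨x, hx⟩ : ∃ x : ℝ, x = g / T := ⟨_, rfl⟩
  have hg : g = x * T := by rw [hx]; field_simp
  rw [← hl] at w3 w4 w5
  rw [← hs] at w7 w8
  rw [← hl, ← hs, ← hx]
  have hl0 : 0 < l := lt_of_lt_of_le (by positivity) w3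
  obtain ⟨a, ha⟩ : ∃ a : ℝ, a = g * l := ⟨_, rfl⟩
  obtain ⟨b, hb⟩ : ∃ b : ℝ, b = x / u := ⟨_, rfl⟩
  rw [← ha, ← hb]
  have hx0 := abs_nonneg x
  have ha1 : |a| ≤ 2 * |x| := by
    rw [ha, hg, abs_mul, abs_mul, abs_of_pos hT0, abs_of_pos hl0]
    have h1 : T * l ≤ 2 := by
      rw [le_div_iff₀ hT0] at w4
      linarith
    calc |x| * T * l = |x| * (T * l) := by ring
      _ ≤ |x| * 2 := mul_le_mul_of_nonneg_left h1 hx0
      _ = 2 * |x| := by ring
  have hb1 : |b| ≤ |x| := by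
    rw [hb, abs_div, abs_of_pos hu0]
    exact div_le_self hx0 hu.1
  have hab : |a - b| ≤ 2 * |x| / T := by
    have h1 : a - b = x * T * (l - 1 / (u * T)) := by
      rw [ha, hb, hg]
      field_simp
    rw [h1, abs_mul, abs_mul, abs_of_pos hT0]
    calc |x| * T * |l - 1 / (u * T)| ≤ |x| * T * (2 / T ^ 2) :=
          mul_le_mul_of_nonneg_left w5 (by positivity)
      _ = 2 * |x| / T := by field_simp
  have hab2 : |a + b| ≤ 3 * |x| := (abs_add_le a b).trans (by linarith)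
  have hcos : |Real.cos a - Real.cos b| ≤ 3 * x ^ 2 / T := by
    refine (cos_cmp a b).trans ?_
    have h1 : |a + b| * |a - b| ≤ 3 * |x| * (2 * |x| / T) :=
      mul_le_mul hab2 hab (abs_nonneg _) (by positivity)
    have h2 : 3 * |x| * (2 * |x| / T) = 2 * (3 * x ^ 2 / T) := by
      rw [← sq_abs x]
      ring
    linarith
  obtain ⟨hc1, hc2⟩ := abs_le.1 hcos
  have hca : 0 ≤ 2 - 2 * Real.cos a := by linarith [Real.cos_le_one a]
  have hca2 : 2 - 2 * Real.cos a ≤ 4 * x ^ 2 := by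
    have h1 := Real.one_sub_sq_div_two_le_cos (x := a)
    have h2 : a ^ 2 ≤ (2 * |x|) ^ 2 := by
      rw [← sq_abs a]
      exact pow_le_pow_left₀ (abs_nonneg _) ha1 2
    have h3 : (2 * |x|) ^ 2 = 4 * x ^ 2 := by rw [mul_pow, sq_abs]; ring
    linarith
  have hs1 : u - s ≤ 1 / T := by
    have h1 : 1 / T ^ 2 ≤ 1 / T := by
      apply one_div_le_one_div_of_le hT0
      nlinarith
    have h2 := (abs_le.1 w8).1
    linarith
  have k1 : (u - s) * (2 - 2 * Real.cos a) ≤ 4 * x ^ 2 / T := by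
    calc (u - s) * (2 - 2 * Real.cos a) ≤ 1 / T * (2 - 2 * Real.cos a) :=
          mul_le_mul_of_nonneg_right hs1 hca
      _ ≤ 1 / T * (4 * x ^ 2) := mul_le_mul_of_nonneg_left hca2 (by positivity)
      _ = 4 * x ^ 2 / T := by ring
  have k2 : u * (2 * (Real.cos a - Real.cos b)) ≤ 12 * x ^ 2 / T := by
    have h0 : 0 ≤ 3 * x ^ 2 / T := by positivity
    calc u * (2 * (Real.cos a - Real.cos b)) ≤ u * (2 * (3 * x ^ 2 / T)) :=
          mul_le_mul_of_nonneg_left (by linarith) hu0.le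
      _ ≤ 2 * (2 * (3 * x ^ 2 / T)) := mul_le_mul_of_nonneg_right hu.2 (by positivity)
      _ = 12 * x ^ 2 / T := by ring
  have k3 : 16 * x ^ 2 / T = 4 * x ^ 2 / T + 12 * x ^ 2 / T := by ring
  rw [k3]
  linarith

end KCMP

theorem t_KCMP : S_KCMP := by
  refine ⟨16, by norm_num, fun T g hT => ?_⟩
  have hT0 : 0 < T := by linarith
  unfold KT kk
  apply mul_le_mul_of_nonneg_left _ hT0.le
  have hi1 : IntervalIntegrable (fun u : ℝ => u * (2 - 2 * Real.cos (g / T / u))) volume 1 2 := by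
    apply ContinuousOn.intervalIntegrable
    rw [uIcc_of_le (by norm_num)]
    refine continuousOn_id.mul (continuousOn_const.sub (continuousOn_const.mul
      (Real.continuous_cos.comp_continuousOn (continuousOn_const.div continuousOn_id ?_))))
    intro u hu
    have : (1:ℝ) ≤ u := hu.1
    show u ≠ 0
    linarith
  have hi2 : IntervalIntegrable (fun u : ℝ => √((u - 1 / (2 * T)) * (u + 1 / (2 * T))) *
      (2 - 2 * Real.cos (g * Real.log ((u + 1 / (2 * T)) / (u - 1 / (2 * T)))))) volume 1 2 := by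
    apply ContinuousOn.intervalIntegrable
    rw [uIcc_of_le (by norm_num)]
    have hlog : ContinuousOn (fun u : ℝ => Real.log ((u + 1 / (2 * T)) / (u - 1 / (2 * T))))
        (Icc 1 2) := by
      refine ContinuousOn.log (ContinuousOn.div (by fun_prop) (by fun_prop) ?_) ?_
      · intro u hu
        exact (KCMP.window hT hu).1.ne'
      · intro u hu
        obtain ⟨a, b, -⟩ := KCMP.window hT hu
        positivity
    exact (by fun_prop : ContinuousOn (fun u : ℝ => √((u - 1 / (2 * T)) * (u + 1 / (2 * T))))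
      (Icc 1 2)).mul (continuousOn_const.sub (continuousOn_const.mul
      (Real.continuous_cos.comp_continuousOn (continuousOn_const.mul hlog))))
  have h1 : (∫ u in (1:ℝ)..2, u * (2 - 2 * Real.cos (g / T / u))) - 16 * (g / T) ^ 2 / T =
      ∫ u in (1:ℝ)..2, (u * (2 - 2 * Real.cos (g / T / u)) - 16 * (g / T) ^ 2 / T) := by
    rw [intervalIntegral.integral_sub hi1 intervalIntegrable_const,
      intervalIntegral.integral_const]
    norm_num
  rw [h1]
  exact intervalIntegral.integral_mono_on (by norm_num) (hi1.sub intervalIntegrable_const) hi2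
    fun u hu => KCMP.pointwise hT hu

end Pool.Agent.Y763.HB
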