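import Mathlib
import Pool.Agent.Y763.HB.Stm

/-! Project HB (helper763), MP_0575cc_nt: the final kernel inequality (helper340). -/

set_option autoImplicit false

open MeasureTheory Filter Topology Set

namespace Pool.Agent.Y763.HB

theorem t_KER : S_KER := by
  intro hpos hbig hcmp P hP hle δ hδ
  obtain ⟨hc, -⟩ := hpos
  obtain ⟨C, hC, hcmp⟩ := hcmp
  obtain ⟨B, hB⟩ := (isCompact_Icc (a := (0:ℝ)) (b := 1)).exists_bound_of_continuousOn
    (f := fun y => P.eval y) P.continuous.continuousOn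
  have hy : ∀ x : ℝ, Real.exp (-x ^ 2) ∈ Icc (0:ℝ) 1 := fun x =>
    ⟨(Real.exp_pos _).le, by rw [Real.exp_le_one_iff]; nlinarith [sq_nonneg x]⟩
  have hph0 : ∀ x : ℝ, 0 ≤ ph P x := fun x =>
    mul_nonneg (hP _ (hy x)) (Real.exp_pos _).le
  have hB0 : 0 ≤ B := (norm_nonneg _).trans (hB 0 ⟨le_rfl, zero_le_one⟩)
  have hphB : ∀ x : ℝ, ph P x ≤ B * Real.exp (-x ^ 2) := fun x =>
    mul_le_mul_of_nonneg_right ((Real.le_norm_self _).trans (hB _ (hy x))) (Real.exp_pos _).le
  obtain ⟨c, hc0, hc⟩ := hc (16 + 32 * B) (by positivity)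
  filter_upwards [eventually_ge_atTop (1:ℝ), eventually_ge_atTop (C / c),
    eventually_ge_atTop (C / c / δ)] with T hT1 hT2 hT3 g
  have hT0 : 0 < T := by linarith
  set x : ℝ := g / T with hx
  have hg : g = T * x := by rw [hx]; field_simp
  have hgT : g ^ 2 / T = T * x ^ 2 := by rw [hg]; field_simp
  rw [hgT]
  have hA : 0 ≤ x ^ 2 * ph P x := mul_nonneg (sq_nonneg _) (hph0 x)
  rcases le_or_gt (|x|) (16 + 32 * B) with h | h
  · have h1 := hcmp T g hT1
    rw [← hx] at h1
    have h2 : T * (kk x - C * x ^ 2 / T) = T * kk x - C * x ^ 2 := by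
      field_simp
    rw [h2] at h1
    have h3 := hc x h
    have h4 : C * x ^ 2 ≤ C / c * kk x := by
      have h5 : C * x ^ 2 = C / c * (c * x ^ 2) := by field_simp
      rw [h5]
      exact mul_le_mul_of_nonneg_left h3 (by positivity)
    have h5 : C / c ≤ T * δ := by rwa [div_le_iff₀ hδ] at hT3
    calc (1 - δ) * (T * x ^ 2) * ph P x = ((1 - δ) * T) * (x ^ 2 * ph P x) := by ring
      _ ≤ (T - C / c) * (x ^ 2 * ph P x) := by
        apply mul_le_mul_of_nonneg_right _ hA
        linarith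
      _ ≤ (T - C / c) * kk x := by
        apply mul_le_mul_of_nonneg_left (hle x)
        linarith
      _ = T * kk x - C / c * kk x := by ring
      _ ≤ T * kk x - C * x ^ 2 := by linarith
      _ ≤ KT T g := h1
  · have h1 : 16 * T ≤ |g| := by
      rw [hg, abs_mul, abs_of_pos hT0]
      nlinarith
    have h2 := hbig T g hT1 h1
    have h3 : x ^ 2 * ph P x ≤ 1 / 16 := by
      have h4 := hphB x
      have hX : 16 + 32 * B ≤ x ^ 2 := by
        rw [← sq_abs]
        nlinarith
      have h5 : x ^ 2 * (x ^ 2) / 2 ≤ Real.exp (x ^ 2) := by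
        have := Real.quadratic_le_exp_of_nonneg (sq_nonneg x)
        nlinarith [sq_nonneg x]
      have h6 : Real.exp (-x ^ 2) * Real.exp (x ^ 2) = 1 := by
        rw [← Real.exp_add]; simp
      have h7 : 0 < Real.exp (-x ^ 2) := Real.exp_pos _
      have h8 : x ^ 2 * (x ^ 2 * Real.exp (-x ^ 2)) ≤ 2 := by
        have := mul_le_mul_of_nonneg_left h5 h7.le
        nlinarith
      have h9 : (16 + 32 * B) * (x ^ 2 * Real.exp (-x ^ 2)) ≤ 2 := by
        refine (mul_le_mul_of_nonneg_right hX ?_).trans h8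
        positivity
      have h10 : 0 ≤ x ^ 2 * Real.exp (-x ^ 2) := by positivity
      calc x ^ 2 * ph P x ≤ x ^ 2 * (B * Real.exp (-x ^ 2)) :=
            mul_le_mul_of_nonneg_left h4 (sq_nonneg _)
        _ = B * (x ^ 2 * Real.exp (-x ^ 2)) := by ring
        _ ≤ 1 / 16 := by nlinarith
    calc (1 - δ) * (T * x ^ 2) * ph P x = (1 - δ) * (T * (x ^ 2 * ph P x)) := by ring
      _ ≤ 1 * (T * (x ^ 2 * ph P x)) := by
        apply mul_le_mul_of_nonneg_right (by linarith)
        positivity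
      _ ≤ T / 16 := by nlinarith
      _ ≤ KT T g := h2

end Pool.Agent.Y763.HB
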