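import Pool.Agent.Y763.HB.Stm
import Pool.Agent.Y763.GC.K3

/-! Project HB, part KINT (by helper794): the integral of the limit kernel. -/

set_option autoImplicit false

open MeasureTheory Filter Topology Set

namespace Pool.Agent.Y763.HB

open Pool.Agent.Y763.GC (fk fk_nonneg fk_le_one fk_le fk_meas fk_integral phi_int)

/-- the integrand on the product -/
noncomputable def kint_f (z : ℝ × ℝ) : ℝ := z.2⁻¹ * fk (z.1 / z.2)

theorem kint_meas : Measurable kint_f :=
  (measurable_snd.inv).mul (fk_meas.comp (measurable_fst.div measurable_snd))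

theorem kint_kk (x : ℝ) (hx : 0 < x) :
    kk x / x ^ 2 = ∫ u in Ioc (1:ℝ) 2, kint_f (x, u) := by
  unfold kk
  rw [intervalIntegral.integral_of_le one_le_two, ← integral_div]
  refine setIntegral_congr_fun measurableSet_Ioc fun u hu => ?_
  have hu0 : 0 < u := by linarith [hu.1]
  unfold kint_f fk
  simp only
  field_simp

theorem kint_int : Integrable kint_f
    ((volume.restrict (Ioi (0:ℝ))).prod (volume.restrict (Ioc (1:ℝ) 2))) := by
  have hg : IntegrableOn (fun x : ℝ => min 1 (16 / x ^ 2)) (Ioi 0) := by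
    refine phi_int (K := 16) (by fun_prop) (fun x _ => ?_) (fun x _ => ?_)
    · rw [abs_of_nonneg (le_min zero_le_one (by positivity))]
      exact (min_le_left _ _).trans (by norm_num)
    · rw [abs_of_nonneg (le_min zero_le_one (by positivity))]
      exact min_le_right _ _
  have hg' : Integrable (fun z : ℝ × ℝ => min 1 (16 / z.1 ^ 2))
      ((volume.restrict (Ioi (0:ℝ))).prod (volume.restrict (Ioc (1:ℝ) 2))) := hg.comp_fst _
  refine hg'.mono' kint_meas.aestronglyMeasurable ?_
  rw [Measure.prod_restrict]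
  refine (ae_restrict_mem (measurableSet_Ioi.prod measurableSet_Ioc)).mono fun z hz => ?_
  have hx : 0 < z.1 := hz.1
  have hu1 : 1 < z.2 := hz.2.1
  have hu2 : z.2 ≤ 2 := hz.2.2
  have hu0 : 0 < z.2 := by linarith
  have h0 := fk_nonneg (z.1 / z.2)
  unfold kint_f
  rw [Real.norm_eq_abs, abs_mul, abs_of_nonneg h0, abs_of_pos (inv_pos.2 hu0)]
  have hi : z.2⁻¹ ≤ 1 := inv_le_one_of_one_le₀ hu1.le
  have h1 : z.2⁻¹ * fk (z.1 / z.2) ≤ fk (z.1 / z.2) := mul_le_of_le_one_left h0 hi
  refine le_min (h1.trans (fk_le_one _)) (h1.trans ((fk_le _).trans ?_))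
  rw [div_pow, div_div_eq_mul_div]
  refine div_le_div_of_nonneg_right ?_ (by positivity)
  nlinarith

theorem t_KINT : S_KINT := by
  have hint := kint_int
  have h1 := hint.integral_prod_left
  constructor
  · refine IntegrableOn.congr_fun (f := fun x => ∫ u in Ioc (1:ℝ) 2, kint_f (x, u)) h1 ?_
      measurableSet_Ioi
    intro x hx
    exact (kint_kk x hx).symm
  · rw [setIntegral_congr_fun measurableSet_Ioi (fun x hx => kint_kk x hx)]
    rw [integral_integral_swap (f := fun x u => kint_f (x, u)) hint]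
    have h2 : ∀ u ∈ Ioc (1:ℝ) 2, ∫ x in Ioi (0:ℝ), kint_f (x, u) = Real.pi := by
      intro u hu
      have hu0 : 0 < u := by linarith [hu.1]
      unfold kint_f
      simp only
      rw [integral_const_mul]
      have h3 := integral_comp_mul_left_Ioi fk 0 (inv_pos.2 hu0)
      rw [mul_zero, fk_integral, inv_inv, smul_eq_mul] at h3
      have h4 : ∫ x in Ioi (0:ℝ), fk (x / u) = ∫ x in Ioi (0:ℝ), fk (u⁻¹ * x) := by
        refine integral_congr_ae (Eventually.of_forall fun x => ?_)
        simp only
        rw [div_eq_inv_mul]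
      rw [h4, h3]
      field_simp
    rw [setIntegral_congr_fun measurableSet_Ioc h2]
    simp
    norm_num

end Pool.Agent.Y763.HB
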