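import Pool.Agent.Y763.HB.Stm

/-! Project HB (helper763), KPOLY (helper219): polynomial minorant of the limit kernel. -/

set_option autoImplicit false

open MeasureTheory Filter Topology Set

namespace Pool.Agent.Y763.HB

namespace KP

/-- the kernel `kk x / x²`, continuous on the whole line -/
noncomputable def Kf (x : ℝ) : ℝ :=
  ∫ u in (1:ℝ)..2, (1 / max u 1) * (Real.sinc (x / (2 * max u 1))) ^ 2

lemma Kf_cont : Continuous Kf := by
  unfold Kf
  refine intervalIntegral.continuous_parametric_intervalIntegral_of_continuous' ?_ 1 2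
  have h1 : ∀ p : ℝ × ℝ, max p.2 1 ≠ 0 := fun p => by
    have : (1:ℝ) ≤ max p.2 1 := le_max_right _ _
    linarith
  have h2 : ∀ p : ℝ × ℝ, 2 * max p.2 1 ≠ 0 := fun p => mul_ne_zero two_ne_zero (h1 p)
  have h3 : Continuous fun p : ℝ × ℝ => max p.2 1 := by fun_prop
  exact (continuous_const.div h3 h1).mul
    ((Real.continuous_sinc.comp (continuous_fst.div (continuous_const.mul h3) h2)).pow 2)

lemma kk_eq (x : ℝ) : kk x = x ^ 2 * Kf x := by
  unfold kk Kf
  rw [← intervalIntegral.integral_const_mul]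
  refine intervalIntegral.integral_congr (fun u hu => ?_)
  rw [uIcc_of_le (by norm_num)] at hu
  have hu1 : max u 1 = u := max_eq_left hu.1
  have hu0 : (0:ℝ) < u := by linarith [hu.1]
  simp only [hu1]
  rcases eq_or_ne x 0 with rfl | hx
  · simp
  · have h1 : x / (2 * u) ≠ 0 := by positivity
    rw [Real.sinc_of_ne_zero h1]
    have h2 : Real.cos (x / u) = 1 - 2 * Real.sin (x / (2 * u)) ^ 2 := by
      have e : x / u = 2 * (x / (2 * u)) := by field_simp
      rw [e, Real.cos_two_mul, Real.cos_sq']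
      ring
    rw [h2]
    field_simp
    ring

lemma Kf_abs (x : ℝ) : Kf |x| = Kf x := by
  rcases abs_choice x with h | h
  · rw [h]
  · rw [h]
    unfold Kf
    refine intervalIntegral.integral_congr (fun u _ => ?_)
    simp only [neg_div, Real.sinc_neg]

lemma Kf_ge {X c : ℝ} (hX : 0 < X) (h : ∀ x : ℝ, |x| ≤ X → c * x ^ 2 ≤ kk x) (x : ℝ)
    (hx : |x| ≤ X) : c ≤ Kf x := by
  have h0 : ∀ y : ℝ, y ≠ 0 → |y| ≤ X → c ≤ Kf y := by
    intro y hy hyX
    have h1 := h y hyX
    rw [kk_eq, mul_comm] at h1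
    exact le_of_mul_le_mul_left h1 (by positivity)
  rcases eq_or_ne x 0 with rfl | hx0
  · have h2 : Tendsto Kf (𝓝[≠] 0) (𝓝 (Kf 0)) :=
      (Kf_cont.tendsto 0).mono_left nhdsWithin_le_nhds
    refine ge_of_tendsto h2 ?_
    have h3 : ∀ᶠ y : ℝ in 𝓝[≠] 0, |y| ≤ X := by
      refine nhdsWithin_le_nhds ?_
      have : Tendsto (fun y : ℝ => |y|) (𝓝 0) (𝓝 0) := by
        have := (continuous_abs (G := ℝ)).tendsto 0
        simpa using this
      filter_upwards [this.eventually (gt_mem_nhds hX)] with y hy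
      exact hy.le
    filter_upwards [h3, self_mem_nhdsWithin] with y hy1 hy2
    exact h0 y hy2 hy1
  · exact h0 x hx0 hx

lemma Kf_pos (hK : S_KPOS) (x : ℝ) : 0 < Kf x := by
  obtain ⟨c, hc, h⟩ := hK.1 (|x| + 1) (by positivity)
  exact lt_of_lt_of_le hc (Kf_ge (by positivity) h x (by linarith))

lemma Kf_big (hK : S_KPOS) (x : ℝ) (hx : 16 ≤ |x|) : 1 / (16 * x ^ 2) ≤ Kf x := by
  have h1 := hK.2 x hx
  rw [kk_eq] at h1
  have hx2 : 0 < x ^ 2 := by
    rw [← sq_abs]; positivity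
  rw [div_le_iff₀ (by positivity)]
  linarith

/-- the minorant before approximation -/
noncomputable def Q (M y0 y : ℝ) : ℝ :=
  min M (Kf (√(-Real.log (max y y0))) / max y y0)

lemma Q_cont {M y0 : ℝ} (hy0 : 0 < y0) : Continuous (Q M y0) := by
  unfold Q
  have h1 : ∀ y : ℝ, max y y0 ≠ 0 := fun y => by
    have : y0 ≤ max y y0 := le_max_right _ _
    linarith
  have h3 : Continuous fun y : ℝ => max y y0 := by fun_prop
  refine continuous_const.min (Continuous.div ?_ h3 h1)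
  exact Kf_cont.comp (Real.continuous_sqrt.comp (h3.log h1).neg)

/-- the cut -/
lemma cut (hK : S_KPOS) (M : ℝ) : ∃ y0 : ℝ, 0 < y0 ∧ y0 ≤ 1 ∧ ∀ y : ℝ, 0 < y →
    y ≤ y0 → M ≤ Kf (√(-Real.log y)) / y := by
  have h1 : Tendsto (fun t : ℝ => 16 * M * (t ^ 1 * Real.exp (-t))) atTop (𝓝 (16 * M * 0)) :=
    (Real.tendsto_pow_mul_exp_neg_atTop_nhds_zero 1).const_mul _
  rw [mul_zero] at h1
  obtain ⟨t0, ht0⟩ := eventually_atTop.1 (h1.eventually (gt_mem_nhds (one_pos)))
  refine ⟨Real.exp (-(max t0 256)), Real.exp_pos _, ?_, ?_⟩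
  · rw [Real.exp_le_one_iff]
    have : (256:ℝ) ≤ max t0 256 := le_max_right _ _
    linarith
  · intro y hy hy0
    obtain ⟨t, ht⟩ : ∃ t, t = -Real.log y := ⟨_, rfl⟩
    have hyt : y = Real.exp (-t) := by rw [ht, neg_neg, Real.exp_log hy]
    have ht1 : max t0 256 ≤ t := by
      rw [hyt, Real.exp_le_exp] at hy0
      linarith
    have ht2 : (256:ℝ) ≤ t := (le_max_right _ _).trans ht1
    have ht3 : t0 ≤ t := (le_max_left _ _).trans ht1
    have h2 := (ht0 t ht3).le
    rw [← ht, le_div_iff₀ hy]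
    have h3 : 16 ≤ |√t| := by
      rw [abs_of_nonneg (Real.sqrt_nonneg _)]
      refine Real.le_sqrt_of_sq_le ?_
      linarith
    have h4 := Kf_big hK (√t) h3
    rw [Real.sq_sqrt (by linarith)] at h4
    refine le_trans ?_ h4
    rw [le_div_iff₀ (by linarith), hyt]
    calc M * Real.exp (-t) * (16 * t) = 16 * M * (t ^ 1 * Real.exp (-t)) := by ring
      _ ≤ 1 := h2

lemma Q_eq {M y0 : ℝ} (hy0 : 0 < y0) (hc : ∀ y : ℝ, 0 < y → y ≤ y0 → M ≤ Kf (√(-Real.log y)) / y)
    (x : ℝ) : Q M y0 (Real.exp (-x ^ 2)) * Real.exp (-x ^ 2) = min (M * Real.exp (-x ^ 2)) (Kf x) := by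
  have he := Real.exp_pos (-x ^ 2)
  have hlog : √(-Real.log (Real.exp (-x ^ 2))) = |x| := by
    rw [Real.log_exp, neg_neg, Real.sqrt_sq_eq_abs]
  have h1 : Q M y0 (Real.exp (-x ^ 2)) = min M (Kf x / Real.exp (-x ^ 2)) := by
    unfold Q
    rcases le_total y0 (Real.exp (-x ^ 2)) with h | h
    · rw [max_eq_left h, hlog, Kf_abs]
    · rw [max_eq_right h, min_eq_left (hc y0 hy0 le_rfl)]
      have := hc _ he h
      rw [hlog, Kf_abs] at this
      rw [min_eq_left this]
  rw [h1, min_mul_of_nonneg _ _ he.le, div_mul_cancel₀ _ he.ne']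

lemma mem01 (x : ℝ) : Real.exp (-x ^ 2) ∈ Icc (0:ℝ) 1 :=
  ⟨(Real.exp_pos _).le, Real.exp_le_one_iff.2 (by nlinarith [sq_nonneg x])⟩

lemma gint : IntegrableOn (fun t : ℝ => Real.exp (-t ^ 2)) (Ioi 0) := by
  have := (integrable_exp_neg_mul_sq (one_pos)).integrableOn (s := Ioi (0:ℝ))
  simpa using this

lemma ph_int (P : Polynomial ℝ) : IntegrableOn (ph P) (Ioi 0) := by
  obtain ⟨B, hB⟩ := isCompact_Icc.exists_bound_of_continuousOn
    (s := Icc (0:ℝ) 1) (f := fun y => P.eval y) P.continuous.continuousOn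
  refine Integrable.mono' (gint.const_mul B) ?_ (Eventually.of_forall fun t => ?_)
  · unfold ph
    exact (Continuous.mul (P.continuous.comp (by fun_prop)) (by fun_prop)).aestronglyMeasurable
  · unfold ph
    rw [Real.norm_eq_abs, abs_mul, abs_of_pos (Real.exp_pos _)]
    exact mul_le_mul_of_nonneg_right (hB _ (mem01 t)) (Real.exp_pos _).le

end KP

open KP

theorem t_KPOLY : S_KPOLY := by
  intro hint hpos δ hδ
  have hKeq : ∀ x ∈ Ioi (0:ℝ), kk x / x ^ 2 = Kf x := by
    intro x hx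
    have hx' : (0:ℝ) < x := hx
    rw [kk_eq]; field_simp
  have hKint : IntegrableOn Kf (Ioi 0) :=
    hint.1.congr_fun hKeq measurableSet_Ioi
  have hKpi : ∫ x in Ioi (0:ℝ), Kf x = Real.pi := by
    rw [← hint.2]
    exact (setIntegral_congr_fun measurableSet_Ioi hKeq).symm
  -- a large constant
  have hlim : Tendsto (fun n : ℕ => ∫ x in Ioi (0:ℝ), min ((n:ℝ) * Real.exp (-x ^ 2)) (Kf x)) atTop
      (𝓝 (∫ x in Ioi (0:ℝ), Kf x)) := by
    refine tendsto_integral_of_dominated_convergence Kf (fun n => ?_) hKint (fun n => ?_) ?_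
    · exact (Continuous.min (by fun_prop) Kf_cont).aestronglyMeasurable
    · refine Eventually.of_forall fun x => ?_
      have h1 : 0 ≤ (n:ℝ) * Real.exp (-x ^ 2) := by positivity
      rw [Real.norm_eq_abs, abs_of_nonneg (le_min h1 (Kf_pos hpos x).le)]
      exact min_le_right _ _
    · refine Eventually.of_forall fun x => ?_
      refine tendsto_const_nhds.congr' ?_
      have he := Real.exp_pos (-x ^ 2)
      obtain ⟨N, hN⟩ := exists_nat_ge (Kf x / Real.exp (-x ^ 2))
      filter_upwards [eventually_ge_atTop N] with n hn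
      refine (min_eq_right ?_).symm
      rw [div_le_iff₀ he] at hN
      refine hN.trans (mul_le_mul_of_nonneg_right ?_ he.le)
      exact_mod_cast hn
  rw [hKpi] at hlim
  obtain ⟨M, hM0, hM⟩ := ((eventually_gt_atTop 0).and
    (hlim.eventually (lt_mem_nhds (by linarith : Real.pi - δ / 2 < Real.pi)))).exists
  have hM0' : (0:ℝ) < M := by exact_mod_cast hM0
  obtain ⟨y0, hy0, hy1, hcut⟩ := cut hpos M
  have hQc : Continuous (Q M y0) := Q_cont hy0
  have hQpos : ∀ y ∈ Icc (0:ℝ) 1, 0 < Q M y0 y := by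
    intro y _
    unfold Q
    have : 0 < max y y0 := lt_of_lt_of_le hy0 (le_max_right _ _)
    exact lt_min hM0' (div_pos (Kf_pos hpos _) this)
  obtain ⟨ym, hym, hmin⟩ := isCompact_Icc.exists_isMinOn (nonempty_Icc.2 zero_le_one)
    (hQc.continuousOn (s := Icc (0:ℝ) 1))
  have hq := hQpos ym hym
  obtain ⟨G, hG⟩ : ∃ G : ℝ, G = ∫ x in Ioi (0:ℝ), Real.exp (-x ^ 2) := ⟨_, rfl⟩
  have hG0 : 0 ≤ G := by
    rw [hG]; exact integral_nonneg fun x => (Real.exp_pos _).le
  obtain ⟨η, hηd⟩ : ∃ η, η = min (Q M y0 ym / 2) (δ / (4 * (G + 1))) := ⟨_, rfl⟩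
  have hη : 0 < η := by
    rw [hηd]; exact lt_min (by positivity) (by positivity)
  have hη1 : 2 * η ≤ Q M y0 ym := by
    have := min_le_left (Q M y0 ym / 2) (δ / (4 * (G + 1)))
    rw [← hηd] at this; linarith
  have hη2 : 2 * η * G ≤ δ / 2 := by
    have := min_le_right (Q M y0 ym / 2) (δ / (4 * (G + 1)))
    rw [← hηd, le_div_iff₀ (by positivity)] at this
    nlinarith
  obtain ⟨P, hP⟩ := exists_polynomial_near_of_continuousOn 0 1 (fun y => Q M y0 y - η)
    ((hQc.sub continuous_const).continuousOn) η hη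
  refine ⟨P, fun y hy => ?_, ?_, fun x => ?_⟩
  · have h1 := (abs_lt.1 (hP y hy)).1
    have h2 : Q M y0 ym ≤ Q M y0 y := hmin hy
    linarith
  · have h1 : ∀ x : ℝ, min ((M:ℝ) * Real.exp (-x ^ 2)) (Kf x) - 2 * η * Real.exp (-x ^ 2) ≤
        ph P x := by
      intro x
      have h2 := (abs_lt.1 (hP _ (mem01 x))).1
      have he := Real.exp_pos (-x ^ 2)
      rw [← Q_eq hy0 hcut x]
      unfold ph
      have h3 : Q M y0 (Real.exp (-x ^ 2)) - 2 * η ≤ P.eval (Real.exp (-x ^ 2)) := by linarith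
      have h4 := mul_le_mul_of_nonneg_right h3 he.le
      linarith
    have hI1 : IntegrableOn (fun x : ℝ => min ((M:ℝ) * Real.exp (-x ^ 2)) (Kf x)) (Ioi 0) := by
      refine Integrable.mono' hKint
        (Continuous.min (by fun_prop) Kf_cont).aestronglyMeasurable
        (Eventually.of_forall fun x => ?_)
      have h1 : 0 ≤ (M:ℝ) * Real.exp (-x ^ 2) := by positivity
      rw [Real.norm_eq_abs, abs_of_nonneg (le_min h1 (Kf_pos hpos x).le)]
      exact min_le_right _ _
    have hI2 : IntegrableOn (fun x : ℝ => 2 * η * Real.exp (-x ^ 2)) (Ioi 0) :=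
      gint.const_mul _
    have h5 : ∫ x in Ioi (0:ℝ), (min ((M:ℝ) * Real.exp (-x ^ 2)) (Kf x) -
        2 * η * Real.exp (-x ^ 2)) ≤ ∫ x in Ioi (0:ℝ), ph P x :=
      setIntegral_mono (hI1.sub hI2) (ph_int P) h1
    rw [integral_sub hI1 hI2, integral_const_mul, ← hG] at h5
    linarith
  · have h1 := (abs_lt.1 (hP _ (mem01 x))).2
    have he := Real.exp_pos (-x ^ 2)
    have h2 : P.eval (Real.exp (-x ^ 2)) ≤ Q M y0 (Real.exp (-x ^ 2)) := by linarith
    have h3 := mul_le_mul_of_nonneg_right h2 he.le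
    rw [Q_eq hy0 hcut x] at h3
    rw [kk_eq]
    refine mul_le_mul_of_nonneg_left ?_ (sq_nonneg x)
    unfold ph
    exact h3.trans (min_le_right _ _)

end Pool.Agent.Y763.HB
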