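import Pool.Agent.Y763.HB.Stm

/-!
# Project HB: positivity of the limit kernel (helper562)
-/

set_option autoImplicit false

open MeasureTheory Filter Topology Set

namespace Pool.Agent.Y763.HB

theorem kpos_even (x : ℝ) : kk (-x) = kk x := by
  simp only [kk, neg_div, Real.cos_neg]

theorem kpos_int {x : ℝ} (hx : 0 < x) :
    ∫ u in (1:ℝ)..2, (2 - 2 * Real.cos (x / u)) / u ^ 2 =
      (x - 2 * (Real.sin x - Real.sin (x / 2))) / x := by
  have hcont : ContinuousOn (fun u : ℝ => (2 - 2 * Real.cos (x / u)) / u ^ 2) (Icc 1 2) := by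
    apply ContinuousOn.div
    · apply ContinuousOn.sub continuousOn_const
      apply ContinuousOn.mul continuousOn_const
      apply Real.continuous_cos.comp_continuousOn
      apply ContinuousOn.div continuousOn_const continuousOn_id
      intro u hu
      have := hu.1
      simp only [id]
      positivity
    · fun_prop
    · intro u hu
      have := hu.1
      positivity
  have hint : IntervalIntegrable (fun u : ℝ => (2 - 2 * Real.cos (x / u)) / u ^ 2) volume 1 2 := by
    apply ContinuousOn.intervalIntegrable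
    rw [uIcc_of_le (by norm_num)]
    exact hcont
  have hder : ∀ u ∈ uIcc (1:ℝ) 2, HasDerivAt
      (fun u : ℝ => -(2 * (x / u) - 2 * Real.sin (x / u)) / x)
      ((2 - 2 * Real.cos (x / u)) / u ^ 2) u := by
    intro u hu
    rw [uIcc_of_le (by norm_num)] at hu
    have hu0 : u ≠ 0 := by
      have := hu.1
      positivity
    have h1 : HasDerivAt (fun u : ℝ => x / u) (-x / u ^ 2) u := by
      have h2 := (hasDerivAt_inv hu0).const_mul x
      have h3 : x * -(u ^ 2)⁻¹ = -x / u ^ 2 := by
        rw [div_eq_mul_inv]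
        ring
      rw [h3] at h2
      exact h2
    have h4 := (((h1.const_mul 2).sub ((h1.sin).const_mul 2)).neg).div_const x
    have h5 : -(2 * (-x / u ^ 2) - 2 * (Real.cos (x / u) * (-x / u ^ 2))) / x =
        (2 - 2 * Real.cos (x / u)) / u ^ 2 := by
      field_simp
      ring
    rw [h5] at h4
    exact h4
  rw [intervalIntegral.integral_eq_sub_of_hasDerivAt hder hint]
  rw [div_one]
  field_simp
  ring

theorem kpos_ge {x : ℝ} (hx : 0 < x) :
    (x - 2 * (Real.sin x - Real.sin (x / 2))) / x ≤ kk x := by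
  rw [← kpos_int hx, kk]
  have hc : ContinuousOn (fun u : ℝ => 2 - 2 * Real.cos (x / u)) (Icc 1 2) := by
    apply ContinuousOn.sub continuousOn_const
    apply ContinuousOn.mul continuousOn_const
    apply Real.continuous_cos.comp_continuousOn
    apply ContinuousOn.div continuousOn_const continuousOn_id
    intro u hu
    have := hu.1
    simp only [id]
    positivity
  apply intervalIntegral.integral_mono_on (by norm_num)
  · apply ContinuousOn.intervalIntegrable
    rw [uIcc_of_le (by norm_num)]
    apply ContinuousOn.div hc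
    · fun_prop
    · intro u hu
      have := hu.1
      positivity
  · apply ContinuousOn.intervalIntegrable
    rw [uIcc_of_le (by norm_num)]
    exact continuousOn_id.mul hc
  · intro u hu
    have h1 : 0 ≤ 2 - 2 * Real.cos (x / u) := by
      have := Real.cos_le_one (x / u)
      linarith
    have h2 : (1:ℝ) ≤ u := hu.1
    rw [div_le_iff₀ (by positivity)]
    have h3 : (1:ℝ) ≤ u * u ^ 2 := by nlinarith [mul_le_mul h2 h2 (by norm_num) (by linarith)]
    nlinarith

theorem kpos_sin {y : ℝ} (hy : 0 < y) (hy' : y ≤ Real.pi) :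
    y ^ 3 / (2 * Real.pi ^ 2) ≤ y - |Real.sin y| := by
  have h0 : 0 ≤ Real.sin y := Real.sin_nonneg_of_nonneg_of_le_pi hy.le hy'
  rw [abs_of_nonneg h0]
  have hpi := Real.pi_pos
  have h1 : Real.sin y = 2 * Real.sin (y / 2) * Real.cos (y / 2) := by
    rw [← Real.sin_two_mul]
    congr 1
    ring
  have h2 : Real.sin (y / 2) ≤ y / 2 := (Real.sin_lt (by linarith)).le
  have h3 : Real.cos (y / 2) ≤ 1 - 2 / Real.pi ^ 2 * (y / 2) ^ 2 := by
    apply Real.cos_le_one_sub_mul_cos_sq
    rw [abs_of_pos (by linarith)]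
    linarith
  have h4 : 0 ≤ Real.cos (y / 2) := Real.cos_nonneg_of_neg_pi_div_two_le_of_le (by linarith)
    (by linarith)
  have h5 : Real.sin y ≤ y * (1 - 2 / Real.pi ^ 2 * (y / 2) ^ 2) := by
    rw [h1]
    calc 2 * Real.sin (y / 2) * Real.cos (y / 2) ≤ 2 * (y / 2) * Real.cos (y / 2) := by
          apply mul_le_mul_of_nonneg_right _ h4
          linarith
      _ = y * Real.cos (y / 2) := by ring
      _ ≤ _ := mul_le_mul_of_nonneg_left h3 hy.le
  have h6 : y * (1 - 2 / Real.pi ^ 2 * (y / 2) ^ 2) = y - y ^ 3 / (2 * Real.pi ^ 2) := by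
    field_simp
  linarith

theorem kpos_main {x : ℝ} (hx : 0 < x) : 1 - |Real.sin (x / 4)| / (x / 4) ≤ kk x := by
  refine le_trans ?_ (kpos_ge hx)
  have h1 : Real.sin x - Real.sin (x / 2) = 2 * Real.sin (x / 4) * Real.cos (3 * x / 4) := by
    rw [Real.sin_sub_sin]
    congr 2
    · congr 1
      ring
    · ring
  rw [h1]
  have h2 : 2 * (2 * Real.sin (x / 4) * Real.cos (3 * x / 4)) ≤ 4 * |Real.sin (x / 4)| := by
    have h3 : Real.sin (x / 4) * Real.cos (3 * x / 4) ≤ |Real.sin (x / 4)| := by
      calc Real.sin (x / 4) * Real.cos (3 * x / 4) ≤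
            |Real.sin (x / 4) * Real.cos (3 * x / 4)| := le_abs_self _
        _ = |Real.sin (x / 4)| * |Real.cos (3 * x / 4)| := abs_mul _ _
        _ ≤ |Real.sin (x / 4)| * 1 :=
            mul_le_mul_of_nonneg_left (Real.abs_cos_le_one _) (abs_nonneg _)
        _ = _ := mul_one _
    linarith
  have h4 : 1 - |Real.sin (x / 4)| / (x / 4) = (x - 4 * |Real.sin (x / 4)|) / x := by
    field_simp
  rw [h4]
  apply div_le_div_of_nonneg_right _ hx.le
  linarith

theorem kpos_small {x : ℝ} (hx : 0 < x) (hx' : x ≤ 4 * Real.pi) :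
    1 / (32 * Real.pi ^ 2) * x ^ 2 ≤ kk x := by
  refine le_trans ?_ (kpos_main hx)
  have h1 := kpos_sin (y := x / 4) (by linarith) (by linarith)
  have hpi := Real.pi_pos
  have h2 : 1 - |Real.sin (x / 4)| / (x / 4) = (x / 4 - |Real.sin (x / 4)|) / (x / 4) := by
    field_simp
  rw [h2, le_div_iff₀ (by linarith)]
  refine le_trans (le_of_eq ?_) h1
  field_simp
  ring

theorem kpos_large {x : ℝ} (hx : 4 * 3 ≤ x) : 1 / 2 ≤ kk x := by
  refine le_trans ?_ (kpos_main (by linarith))
  have h1 : |Real.sin (x / 4)| / (x / 4) ≤ 1 / 3 := by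
    rw [div_le_iff₀ (by linarith)]
    have := Real.abs_sin_le_one (x / 4)
    linarith
  linarith

theorem t_KPOS : S_KPOS := by
  have habs : ∀ x : ℝ, kk |x| = kk x := by
    intro x
    rcases abs_choice x with h | h
    · rw [h]
    · rw [h, kpos_even]
  have hpi := Real.pi_pos
  have hpi3 := Real.pi_gt_three
  constructor
  · intro X hX
    refine ⟨min (1 / (32 * Real.pi ^ 2)) (1 / (2 * X ^ 2)), by positivity, ?_⟩
    intro x hx
    rw [← habs, ← sq_abs x]
    rcases eq_or_lt_of_le (abs_nonneg x) with h0 | h0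
    · rw [← h0]
      simp [kk]
    · rcases le_or_gt |x| (4 * Real.pi) with h1 | h1
      · refine le_trans ?_ (kpos_small h0 h1)
        apply mul_le_mul_of_nonneg_right (min_le_left _ _) (by positivity)
      · refine le_trans ?_ (kpos_large (by linarith))
        refine le_trans (mul_le_mul_of_nonneg_right (min_le_right _ _) (by positivity)) ?_
        rw [div_mul_eq_mul_div, div_le_iff₀ (by positivity)]
        have : |x| ^ 2 ≤ X ^ 2 := pow_le_pow_left₀ h0.le hx 2
        linarith
  · intro x hx
    rw [← habs]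
    have := kpos_large (x := |x|) (by linarith)
    linarith

end Pool.Agent.Y763.HB
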