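import Pool.Agent.Y763.HB.Stm

/-! Project HB, part OFF (by helper794): off-diagonal terms. -/

set_option autoImplicit false

open MeasureTheory Filter Topology Set

namespace Pool.Agent.Y763.HB

theorem off_log {N n l : ℕ} (hn : 1 ≤ n) (hnN : n ≤ N) (hl : 1 ≤ l) (hln : l ≠ n) :
    1 / (2 * (N : ℝ)) ≤ |Real.log ((n : ℝ) / l)| := by
  have hn0 : (0 : ℝ) < n := by exact_mod_cast hn
  have hl0 : (0 : ℝ) < l := by exact_mod_cast hl
  have hN0 : (0 : ℝ) < N := by exact_mod_cast (lt_of_lt_of_le (by omega : 0 < n) hnN)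
  have hN1 : (1 : ℝ) ≤ N := by exact_mod_cast (hn.trans hnN)
  have hnN' : (n : ℝ) ≤ N := by exact_mod_cast hnN
  rcases lt_or_gt_of_ne hln with h | h
  · have h1 := Real.one_sub_inv_le_log_of_pos (x := (n : ℝ) / l) (by positivity)
    refine le_trans ?_ (le_abs_self _)
    refine le_trans ?_ h1
    rw [inv_div]
    have h2 : (l : ℝ) + 1 ≤ n := by exact_mod_cast h
    have h3 : 1 / (n : ℝ) ≤ 1 - l / n := by
      rw [le_sub_iff_add_le, ← add_div, div_le_one hn0]
      linarith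
    refine le_trans ?_ h3
    exact one_div_le_one_div_of_le hn0 (by linarith)
  · have h1 := Real.one_sub_inv_le_log_of_pos (x := (l : ℝ) / n) (by positivity)
    have e : Real.log ((n : ℝ) / l) = -Real.log ((l : ℝ) / n) := by
      rw [← Real.log_inv, inv_div]
    rw [e, abs_neg]
    refine le_trans ?_ (le_abs_self _)
    refine le_trans ?_ h1
    rw [inv_div]
    have h2 : (n : ℝ) + 1 ≤ l := by exact_mod_cast h
    rcases le_total (l : ℝ) (2 * N) with h3 | h3
    · have h4 : 1 / (l : ℝ) ≤ 1 - n / l := by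
        rw [le_sub_iff_add_le, ← add_div, div_le_one hl0]
        linarith
      refine le_trans ?_ h4
      exact one_div_le_one_div_of_le hl0 h3
    · have h4 : (n : ℝ) / l ≤ 1 / 2 := by
        rw [div_le_iff₀ hl0]
        linarith
      have h5 : 1 / (2 * (N : ℝ)) ≤ 1 / 2 := one_div_le_one_div_of_le two_pos (by linarith)
      linarith

theorem t_OFF : S_OFF := by
  intro J ε hJ hε hε1
  have h1 : Tendsto (fun T : ℝ => T ^ (5 : ℝ) * Real.exp (-(1 / (32 * J)) * T ^ (2 * ε))) atTop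
      (𝓝 0) := by
    have h2 := (tendsto_rpow_mul_exp_neg_mul_atTop_nhds_zero (5 / (2 * ε)) (1 / (32 * J))
      (by positivity)).comp (tendsto_rpow_atTop (by positivity : 0 < 2 * ε))
    refine h2.congr' ?_
    filter_upwards [eventually_gt_atTop 0] with T hT
    show (T ^ (2 * ε)) ^ (5 / (2 * ε)) * Real.exp (-(1 / (32 * J)) * T ^ (2 * ε)) = _
    rw [← Real.rpow_mul hT.le, mul_div_cancel₀ _ (by positivity)]
  have h3 := h1.eventually_lt_const (Real.exp_pos (-(8 * J)))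
  filter_upwards [h3, eventually_ge_atTop 1] with T hT hT1 N hN n hn l hl hln
  rw [Finset.mem_Icc] at hn
  have hT0 : 0 < T := by linarith
  have hn0 : (0 : ℝ) < n := by exact_mod_cast hn.1
  have hl0 : (0 : ℝ) < l := by exact_mod_cast hl
  have hnN : (n : ℝ) ≤ N := by exact_mod_cast hn.2
  have hN0 : (0 : ℝ) < N := hn0.trans_le hnN
  obtain ⟨w, hw⟩ : ∃ w, w = Real.log ((n : ℝ) / l) := ⟨_, rfl⟩
  have hw1 : 1 / (2 * (N : ℝ)) ≤ |w| := by
    rw [hw]
    exact off_log hn.1 hn.2 hl hln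
  rw [← hw]
  have hNT : (N : ℝ) ≤ T := by
    refine hN.trans ?_
    calc T ^ (1 - ε) ≤ T ^ (1 : ℝ) := Real.rpow_le_rpow_of_exponent_le hT1 (by linarith)
      _ = T := Real.rpow_one T
  have hw2 : Real.exp (-(2 * |w|)) ≤ T ^ 2 / (l : ℝ) ^ 2 := by
    have h4 : -(2 * |w|) ≤ w + w := by
      have := neg_abs_le w
      linarith
    refine (Real.exp_le_exp.2 h4).trans ?_
    rw [Real.exp_add, hw, Real.exp_log (by positivity), ← pow_two, div_pow]
    refine div_le_div_of_nonneg_right ?_ (by positivity)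
    exact pow_le_pow_left₀ hn0.le (hnN.trans hNT) 2
  have h5 : T ^ (2 * ε) / (32 * J) ≤ T ^ 2 * w ^ 2 / (8 * J) := by
    have h6 : (1 / (2 * (N : ℝ))) ^ 2 ≤ w ^ 2 := by
      rw [← sq_abs w]
      exact pow_le_pow_left₀ (by positivity) hw1 2
    have h7 : (N : ℝ) ^ 2 * T ^ (2 * ε) ≤ T ^ 2 := by
      calc (N : ℝ) ^ 2 * T ^ (2 * ε) ≤ (T ^ (1 - ε)) ^ 2 * T ^ (2 * ε) :=
            mul_le_mul_of_nonneg_right (pow_le_pow_left₀ hN0.le hN 2) (by positivity)
        _ = T ^ 2 := by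
            rw [← Real.rpow_natCast, ← Real.rpow_mul hT0.le, ← Real.rpow_add hT0,
              ← Real.rpow_natCast T 2]
            congr 1
            push_cast
            ring
    have h8 : T ^ (2 * ε) / 4 ≤ T ^ 2 * w ^ 2 := by
      calc T ^ (2 * ε) / 4 = (N : ℝ) ^ 2 * T ^ (2 * ε) * (1 / (2 * (N : ℝ))) ^ 2 := by
            field_simp
            ring
        _ ≤ T ^ 2 * w ^ 2 := mul_le_mul h7 h6 (by positivity) (by positivity)
    calc T ^ (2 * ε) / (32 * J) = T ^ (2 * ε) / 4 / (8 * J) := by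
          field_simp
          ring
      _ ≤ T ^ 2 * w ^ 2 / (8 * J) := div_le_div_of_nonneg_right h8 (by positivity)
  have h6 : 2 * |w| - 8 * J / T ^ 2 ≤ T ^ 2 * w ^ 2 / (8 * J) := by
    have h7 : 0 ≤ (T ^ 2 * |w| - 8 * J) ^ 2 / (8 * J * T ^ 2) := by positivity
    have h8 : (T ^ 2 * |w| - 8 * J) ^ 2 / (8 * J * T ^ 2) =
        T ^ 2 * w ^ 2 / (8 * J) - 2 * |w| + 8 * J / T ^ 2 := by
      rw [← sq_abs w]
      field_simp
      ring
    rw [h8] at h7
    linarith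
  have h7 : 8 * J / T ^ 2 ≤ 8 * J := div_le_self (by positivity) (one_le_pow₀ hT1)
  have h8 : -(T ^ 2 * w ^ 2 / (4 * J)) ≤ 8 * J + -(1 / (32 * J)) * T ^ (2 * ε) + -(2 * |w|) := by
    have e1 : T ^ 2 * w ^ 2 / (4 * J) = T ^ 2 * w ^ 2 / (8 * J) + T ^ 2 * w ^ 2 / (8 * J) := by
      field_simp
      ring
    have e2 : -(1 / (32 * J)) * T ^ (2 * ε) = -(T ^ (2 * ε) / (32 * J)) := by
      field_simp
    rw [e1, e2]
    linarith
  have h9 : T ^ 5 * Real.exp (-(1 / (32 * J)) * T ^ (2 * ε)) ≤ Real.exp (-(8 * J)) := by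
    have e : T ^ (5 : ℝ) = T ^ 5 := by exact_mod_cast Real.rpow_natCast T 5
    rw [e] at hT
    exact hT.le
  have h10 : Real.exp (8 * J) * Real.exp (-(8 * J)) = 1 := by
    rw [← Real.exp_add, add_neg_cancel, Real.exp_zero]
  calc T * Real.exp (-(T ^ 2 * w ^ 2 / (4 * J)))
      ≤ T * (Real.exp (8 * J) * Real.exp (-(1 / (32 * J)) * T ^ (2 * ε)) *
          Real.exp (-(2 * |w|))) := by
        rw [← Real.exp_add, ← Real.exp_add]
        exact mul_le_mul_of_nonneg_left (Real.exp_le_exp.2 h8) hT0.le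
    _ ≤ T * (Real.exp (8 * J) * Real.exp (-(1 / (32 * J)) * T ^ (2 * ε)) *
          (T ^ 2 / (l : ℝ) ^ 2)) := by
        refine mul_le_mul_of_nonneg_left ?_ hT0.le
        exact mul_le_mul_of_nonneg_left hw2 (by positivity)
    _ = (Real.exp (8 * J) * (T ^ 5 * Real.exp (-(1 / (32 * J)) * T ^ (2 * ε)))) /
          (T ^ 2 * (l : ℝ) ^ 2) := by
        field_simp
    _ ≤ (Real.exp (8 * J) * Real.exp (-(8 * J))) / (T ^ 2 * (l : ℝ) ^ 2) := by
        refine div_le_div_of_nonneg_right ?_ (by positivity)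
        exact mul_le_mul_of_nonneg_left h9 (Real.exp_pos _).le
    _ = 1 / (T ^ 2 * (l : ℝ) ^ 2) := by rw [h10]

end Pool.Agent.Y763.HB
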