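import Pool.Agent.Y763.HB.A1
import Pool.Agent.Y763.HB.ARCH
import Pool.Agent.Y763.HB.D1
import Pool.Agent.Y763.HB.D2
import Pool.Agent.Y763.HB.FT
import Pool.Agent.Y763.HB.KBIG
import Pool.Agent.Y763.HB.KCMP
import Pool.Agent.Y763.HB.KER
import Pool.Agent.Y763.HB.KINT
import Pool.Agent.Y763.HB.KPOLY
import Pool.Agent.Y763.HB.KPOS
import Pool.Agent.Y763.HB.OFF

/-! The unconditional lower bound. -/

set_option autoImplicit false
set_option maxHeartbeats 2000000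

open Complex Filter Topology Set MeasureTheory

namespace Pool.Agent.Y763.HB

open Pool.Agent.W120.WM (ZC NT)
open Pool.Agent.Y763.GC (aa VL VL_lim ZC_of_VL)
open Pool.Agent.TH223.AP (SS)

lemma IP_ge (P : Polynomial ℝ) : IP P = 2 * ∫ x in Ioi (0:ℝ), ph P x := by
  unfold IP
  rw [← integral_comp_abs (f := fun x => ph P x)]
  refine integral_congr_ae (Eventually.of_forall fun x => ?_)
  simp only
  unfold ph
  rw [sq_abs]

lemma od (P : Polynomial ℝ) {ε : ℝ} (hε : 0 < ε) (hε1 : ε < 1) : ∃ C : ℝ, 0 < C ∧ ∀ᶠ T : ℝ in atTop,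
    ∀ N : ℕ, (N : ℝ) ≤ T ^ (1 - ε) → OD P T C N := by
  obtain ⟨C, J, hC, hJ, h⟩ := t_FT P
  refine ⟨C, hC, ?_⟩
  filter_upwards [t_OFF J ε (by linarith) hε hε1, eventually_gt_atTop (0:ℝ)] with T hT hT0 N hN n hn l hl hln
  have h1 := (h T hT0).2 (Real.log n - Real.log l)
  have h2 := hT N hN n hn l hl hln
  have hn0 : (0:ℝ) < n := by
    rw [Finset.mem_Icc] at hn
    exact_mod_cast hn.1
  have hl0 : (0:ℝ) < l := by exact_mod_cast hl
  rw [Real.log_div hn0.ne' hl0.ne'] at h2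
  unfold FTT
  refine h1.trans ?_
  calc C * T * Real.exp (-(T ^ 2 * (Real.log n - Real.log l) ^ 2 / (4 * J))) =
      C * (T * Real.exp (-(T ^ 2 * (Real.log n - Real.log l) ^ 2 / (4 * J)))) := by ring
    _ ≤ C * (1 / (T ^ 2 * (l : ℝ) ^ 2)) := by gcongr
    _ = C / (T ^ 2 * (l : ℝ) ^ 2) := by ring

/-- the length of the Dirichlet polynomial -/
lemma length {ε : ℝ} (hε : 0 < ε) (hε1 : ε < 1) : ∀ᶠ T : ℝ in atTop, ∃ N : ℕ, 1 ≤ N ∧ (N : ℝ) ≤ T ^ (1 - ε) ∧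
    (N : ℝ) ≤ T ∧ N * (1 + Real.log N) ≤ T ∧ Real.log N ≤ (1 - ε) * Real.log T ∧
    (1 - ε) * Real.log T - 1 ≤ Real.log N := by
  have h1 : Tendsto (fun T : ℝ => T ^ (1 - ε)) atTop atTop := tendsto_rpow_atTop (by linarith)
  have h2 : ∀ᶠ T : ℝ in atTop, 1 + Real.log T ≤ T ^ ε := by
    have h3 := (isLittleO_log_rpow_atTop hε).bound (c := 1 / 2) (by norm_num)
    have h4 : Tendsto (fun T : ℝ => T ^ ε) atTop atTop := tendsto_rpow_atTop hε
    filter_upwards [h3, h4.eventually_ge_atTop 2, eventually_ge_atTop (1:ℝ)] with T h5 h6 h7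
    rw [Real.norm_eq_abs, Real.norm_eq_abs, abs_of_nonneg (Real.log_nonneg h7), abs_of_nonneg (by positivity)] at h5
    linarith
  filter_upwards [h1.eventually_ge_atTop 2, h2, eventually_ge_atTop (1:ℝ)] with T h3 h4 hT
  have hT0 : 0 < T := by linarith
  have hfl := Nat.floor_le (show 0 ≤ T ^ (1 - ε) by positivity)
  have hfl2 := Nat.lt_floor_add_one (T ^ (1 - ε))
  obtain ⟨N, hN⟩ : ∃ N : ℕ, N = ⌊T ^ (1 - ε)⌋₊ := ⟨_, rfl⟩
  rw [← hN] at hfl hfl2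
  have hN1 : 1 ≤ N := by
    rw [hN]
    exact Nat.le_floor (by push_cast; linarith)
  have hN1' : (1:ℝ) ≤ N := by exact_mod_cast hN1
  have hle : T ^ (1 - ε) ≤ T := by
    calc T ^ (1 - ε) ≤ T ^ (1:ℝ) := Real.rpow_le_rpow_of_exponent_le hT (by linarith)
      _ = T := Real.rpow_one T
  have hlog : Real.log (T ^ (1 - ε)) = (1 - ε) * Real.log T := Real.log_rpow hT0 _
  have hl1 : Real.log N ≤ (1 - ε) * Real.log T := by
    rw [← hlog]
    exact Real.log_le_log (by linarith) hfl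
  have hl2 : (1 - ε) * Real.log T - 1 ≤ Real.log N := by
    have h5 : T ^ (1 - ε) / 2 ≤ N := by linarith
    have h6 : Real.log (T ^ (1 - ε) / 2) ≤ Real.log N := Real.log_le_log (by positivity) h5
    rw [Real.log_div (by positivity) (by norm_num), hlog] at h6
    have := Real.log_two_lt_d9
    linarith
  have hlogT : 0 ≤ Real.log T := Real.log_nonneg hT
  refine ⟨N, hN1, hfl, hfl.trans hle, ?_, hl1, hl2⟩
  have h5 : Real.log N ≤ Real.log T := Real.log_le_log (by linarith) (hfl.trans hle)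
  calc (N : ℝ) * (1 + Real.log N) ≤ T ^ (1 - ε) * T ^ ε := by
        refine mul_le_mul hfl (by linarith) ?_ (by positivity)
        have := Real.log_nonneg hN1'
        linarith
    _ = T := by
        rw [← Real.rpow_add hT0]
        have : 1 - ε + ε = 1 := by ring
        rw [this, Real.rpow_one]

lemma lim_f {A K3 K4 : ℝ} (hA : 0 < A) : Tendsto (fun L : ℝ => (2 * A * L - K3) ^ 2 / (4 * A * L ^ 2 + K4 * (1 + L)))
    atTop (𝓝 A) := by
  have h0 : Tendsto (fun L : ℝ => L⁻¹) atTop (𝓝 0) := tendsto_inv_atTop_zero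
  have h1 : Tendsto (fun L : ℝ => (2 * A - K3 * L⁻¹) ^ 2 / (4 * A + K4 * (L⁻¹ ^ 2 + L⁻¹))) atTop
      (𝓝 ((2 * A - K3 * 0) ^ 2 / (4 * A + K4 * (0 ^ 2 + 0)))) := by
    refine Tendsto.div ?_ ?_ ?_
    · exact ((tendsto_const_nhds.sub (h0.const_mul K3)).pow 2)
    · exact tendsto_const_nhds.add (((h0.pow 2).add h0).const_mul K4)
    · have : 4 * A + K4 * (0 ^ 2 + 0) = 4 * A := by ring
      rw [this]
      positivity
  have e : (2 * A - K3 * 0) ^ 2 / (4 * A + K4 * (0 ^ 2 + 0)) = A := by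
    have : (2 * A - K3 * 0) ^ 2 / (4 * A + K4 * (0 ^ 2 + 0)) = (2 * A) ^ 2 / (4 * A) := by
      congr 1 <;> ring
    rw [this]
    field_simp
    ring
  rw [e] at h1
  refine h1.congr' ?_
  filter_upwards [eventually_gt_atTop (0:ℝ)] with L hL
  have e1 : 2 * A * L - K3 = L * (2 * A - K3 * L⁻¹) := by field_simp
  have e2 : 4 * A * L ^ 2 + K4 * (1 + L) = L ^ 2 * (4 * A + K4 * (L⁻¹ ^ 2 + L⁻¹)) := by
    field_simp
  rw [e1, e2, mul_pow, mul_div_mul_left _ _ (by positivity)]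

/-- lower bound for the smooth sum over the zeros -/
theorem zsum_low (hZ : ZC) {P : Polynomial ℝ} (hP : ∀ y ∈ Icc (0:ℝ) 1, 0 ≤ P.eval y) (hI : 0 < IP P)
    {ε : ℝ} (hε : 0 < ε) (hε1 : ε < 1) : ∃ K3 K4 : ℝ, 0 < K4 ∧ ∀ᶠ T : ℝ in atTop,
      T / (2 * Real.pi) * ((2 * (3 / Real.pi ^ 2 * IP P * (1 - ε)) * Real.log T - K3) ^ 2 /
        (4 * (3 / Real.pi ^ 2 * IP P * (1 - ε)) * Real.log T ^ 2 + K4 * (1 + Real.log T))) ≤
      ∑' ρ : NT, zz ρ * ph P ((ρ : ℂ).im / T) := by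
  obtain ⟨C, hC, hod⟩ := od P hε hε1
  obtain ⟨CD, hCD, hD1⟩ := t_D1
  obtain ⟨CE, hCE, hD2⟩ := t_D2 t_D1
  obtain ⟨C1, hC1, hfirst⟩ := first hZ P
  obtain ⟨C2, hC2, hsecond⟩ := second t_ARCH hZ hP hε
  have hpi := Real.pi_pos
  obtain ⟨I, hIdef⟩ : ∃ I : ℝ, I = IP P := ⟨_, rfl⟩
  obtain ⟨a, ha⟩ : ∃ a : ℝ, a = 3 / Real.pi ^ 2 := ⟨_, rfl⟩
  have ha0 : 0 < a := by rw [ha]; positivity
  have h6a : 6 / Real.pi ^ 2 = 2 * a := by rw [ha]; ring
  rw [← hIdef] at hI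
  have hZL : 0 ≤ ZL := tsum_nonneg fun k => mul_nonneg ArithmeticFunction.vonMangoldt_nonneg (by positivity)
  have hZ2 : 0 ≤ Z2 := tsum_nonneg fun k => by positivity
  obtain ⟨A, hA⟩ : ∃ A : ℝ, A = a * I * (1 - ε) := ⟨_, rfl⟩
  have hd : 0 < 1 - ε := by linarith
  have hA0 : 0 < A := by rw [hA]; positivity
  obtain ⟨K3, hK3⟩ : ∃ K3 : ℝ, K3 = I * (2 * a + CD) + C1 + C * Z2 := ⟨_, rfl⟩
  obtain ⟨K4, hK4⟩ : ∃ K4 : ℝ, K4 = (1 + ε) * (I * CD + C) + 2 * I * CE + 2 * C * ZL + C2 := ⟨_, rfl⟩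
  have hK40 : 0 < K4 := by rw [hK4]; positivity
  refine ⟨K3, K4, hK40, ?_⟩
  have hlogtop := Real.tendsto_log_atTop
  filter_upwards [hod, hsecond, length hε hε1, eventually_ge_atTop (1:ℝ),
    hlogtop.eventually_gt_atTop (K3 / (2 * A))] with T g1 g2 g3 hT g5
  obtain ⟨N, hN1, hN2, hN3, hN4, hN5, hN6⟩ := g3
  have hT0 : 0 < T := by linarith
  have hOD := g1 N hN2
  obtain ⟨L, hL⟩ : ∃ L : ℝ, L = Real.log T := ⟨_, rfl⟩
  obtain ⟨ℓ, hℓ⟩ : ∃ ℓ : ℝ, ℓ = Real.log N := ⟨_, rfl⟩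
  have hL0 : 0 ≤ L := by rw [hL]; exact Real.log_nonneg hT
  have hℓ0 : 0 ≤ ℓ := by rw [hℓ]; exact Real.log_natCast_nonneg N
  have f1 := hfirst T C hT hC.le N hN3 hOD
  have f2 := g2 C hC.le N hN1 hN3 hN4 hOD
  have d1 := abs_le.1 (hD1 N hN1)
  have d2 := hD2 N hN1
  rw [h6a] at d1
  rw [← ha] at d2
  rw [← hL] at g5 hN5 hN6 f2
  rw [← hℓ] at hN5 hN6 d1 d2
  rw [← hIdef] at f1 f2
  rw [← hIdef, ← ha, ← hL, ← hA]
  obtain ⟨X, hX⟩ : ∃ X : ℝ, X = ∑' ρ : NT, zz ρ * ph P ((ρ : ℂ).im / T) := ⟨_, rfl⟩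
  obtain ⟨Q, hQ⟩ : ∃ Q : ℝ, Q = ∑' ρ : NT, qq N P T ρ := ⟨_, rfl⟩
  obtain ⟨S, hS⟩ : ∃ S : ℝ, S = ‖∑' ρ : NT, h1 N P T ((ρ : ℂ) - 1 / 2) / deriv riemannZeta ρ‖ := ⟨_, rfl⟩
  obtain ⟨s, hs⟩ : ∃ s : ℝ, s = 2 * A * L - K3 := ⟨_, rfl⟩
  obtain ⟨q, hq⟩ : ∃ q : ℝ, q = 4 * A * L ^ 2 + K4 * (1 + L) := ⟨_, rfl⟩
  have hs0 : 0 < s := by
    rw [div_lt_iff₀ (by positivity)] at g5
    rw [hs]
    linarith
  have hq0 : 0 < q := by rw [hq]; positivity
  have hcs := cs hZ N hP hT (l := q / s) (by positivity)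
  rw [← hX, ← hQ, ← hS] at hcs
  rw [← hX, ← hs, ← hq]
  rw [← hS] at f1
  rw [← hQ] at f2
  have hl2 : ℓ ≤ L := by nlinarith
  -- first moment
  have k1 : T * s ≤ 2 * Real.pi * S := by
    refine le_trans ?_ f1
    have e1 : 2 * a * ((1 - ε) * L - 1) - CD ≤ D1 N := by
      have := mul_le_mul_of_nonneg_left hN6 (by positivity : 0 ≤ 2 * a)
      linarith [d1.1]
    have e2 := mul_le_mul_of_nonneg_left e1 (by positivity : 0 ≤ T * I)
    have e3 : C * Z2 ≤ C * Z2 * T := by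
      have : 0 ≤ C * Z2 := by positivity
      nlinarith
    have e4 : T * s = T * I * (2 * a * ((1 - ε) * L - 1) - CD) - C1 * T - C * Z2 * T := by
      rw [hs, hK3, hA]
      ring
    rw [e4]
    linarith
  -- second moment
  have k2 : 2 * Real.pi * Q ≤ T * q := by
    refine f2.trans ?_
    have e1 : D1 N ≤ 2 * a * ((1 - ε) * L) + CD := by
      have := mul_le_mul_of_nonneg_left hN5 (by positivity : 0 ≤ 2 * a)
      linarith [d1.2]
    have e2 : -D2 N ≤ a * ((1 - ε) * L) ^ 2 + CE * (1 + L) := by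
      have h7 : ℓ ^ 2 ≤ ((1 - ε) * L) ^ 2 := pow_le_pow_left₀ hℓ0 hN5 2
      have h8 := mul_le_mul_of_nonneg_left h7 ha0.le
      have h9 := mul_le_mul_of_nonneg_left hl2 hCE.le
      linarith
    have e3 : T * I * D1 N + C ≤ T * (I * (2 * a * ((1 - ε) * L) + CD) + C) := by
      have h7 := mul_le_mul_of_nonneg_left e1 (by positivity : 0 ≤ T * I)
      have h8 : C ≤ C * T := by nlinarith
      nlinarith
    have e4 := mul_le_mul_of_nonneg_left e3 (by positivity : 0 ≤ (1 + ε) * L)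
    have e5 := mul_le_mul_of_nonneg_left e2 (by positivity : 0 ≤ 2 * (T * I))
    have e6 : 2 * C * ZL ≤ 2 * C * ZL * T := by
      have : 0 ≤ 2 * C * ZL := by positivity
      nlinarith
    have e7 : T * q = (1 + ε) * L * (T * (I * (2 * a * ((1 - ε) * L) + CD) + C)) +
        2 * (T * I) * (a * ((1 - ε) * L) ^ 2 + CE * (1 + L)) + 2 * C * ZL * T + C2 * T +
        T * ((1 + ε) * (I * CD + C) + 2 * C * ZL * L + C2 * L) := by
      rw [hq, hK4, hA]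
      ring
    have e8 : 0 ≤ T * ((1 + ε) * (I * CD + C) + 2 * C * ZL * L + C2 * L) := by positivity
    rw [e7]
    linarith
  -- conclusion
  have k3 : T / (2 * Real.pi) * s ≤ S := by
    rw [div_mul_eq_mul_div, div_le_iff₀ (by positivity)]
    linarith
  have k4 : Q ≤ T / (2 * Real.pi) * q := by
    rw [div_mul_eq_mul_div, le_div_iff₀ (by positivity)]
    linarith
  have k5 : Q / (q / s) ≤ T / (2 * Real.pi) * s := by
    rw [div_le_iff₀ (by positivity)]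
    refine k4.trans (le_of_eq ?_)
    field_simp
  have k6 : T / (2 * Real.pi) * s ≤ q / s * X := by linarith
  calc T / (2 * Real.pi) * (s ^ 2 / q) = (T / (2 * Real.pi) * s) * (s / q) := by
        field_simp
    _ ≤ (q / s * X) * (s / q) := by gcongr
    _ = X := by field_simp

theorem aa_liminf (hZ : ZC) {η : ℝ} (hη : 0 < η) : ∀ᶠ T : ℝ in atTop, 3 / Real.pi ^ 2 - η ≤ aa T := by
  obtain ⟨ε, hεd⟩ : ∃ ε : ℝ, ε = min (1 / 4) (η / 2) := ⟨_, rfl⟩
  have hε : 0 < ε := by rw [hεd]; positivity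
  have hε1 : ε ≤ 1 / 4 := hεd ▸ min_le_left _ _
  have hε2 : ε ≤ η / 2 := hεd ▸ min_le_right _ _
  obtain ⟨P, hP, hPI, hPk⟩ := t_KPOLY t_KINT t_KPOS ε hε
  have hker := t_KER t_KPOS t_KBIG t_KCMP P hP hPk ε hε
  have hpi := Real.pi_pos
  have hpi3 := Real.pi_gt_three
  have hI : 2 * (Real.pi - ε) ≤ IP P := by rw [IP_ge]; linarith
  have hI0 : 0 < IP P := by linarith
  obtain ⟨K3, K4, hK4, hz⟩ := zsum_low hZ hP hI0 hε (by linarith)
  obtain ⟨a, ha⟩ : ∃ a : ℝ, a = 3 / Real.pi ^ 2 := ⟨_, rfl⟩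
  have ha0 : 0 < a := by rw [ha]; positivity
  have ha1 : a ≤ 1 / 3 := by
    rw [ha, div_le_iff₀ (by positivity)]
    nlinarith
  rw [← ha] at hz ⊢
  obtain ⟨A, hA⟩ : ∃ A : ℝ, A = a * IP P * (1 - ε) := ⟨_, rfl⟩
  have hA0 : 0 < A := by
    rw [hA]
    have : 0 < 1 - ε := by linarith
    positivity
  rw [← hA] at hz
  have h1 := (lim_f (K3 := K3) (K4 := K4) hA0).comp Real.tendsto_log_atTop
  have h2 : Tendsto (fun T : ℝ => CP P * SS * T⁻¹) atTop (𝓝 (CP P * SS * 0)) := tendsto_inv_atTop_zero.const_mul _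
  have h3 := ((h1.div_const (2 * Real.pi)).sub h2).const_mul (1 - ε)
  have h4 : a - η < (1 - ε) * (A / (2 * Real.pi) - CP P * SS * 0) := by
    rw [mul_zero, sub_zero]
    have h5 : a * (1 - ε) * (1 - ε) ≤ A / (2 * Real.pi) := by
      rw [le_div_iff₀ (by positivity), hA]
      have h6 : 2 * Real.pi * (1 - ε) ≤ IP P := by nlinarith
      have h7 := mul_le_mul_of_nonneg_left h6 (by
        have : 0 ≤ 1 - ε := by linarith
        positivity : 0 ≤ a * (1 - ε))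
      nlinarith
    have h6 := mul_le_mul_of_nonneg_left h5 (by linarith : 0 ≤ 1 - ε)
    have h7 : a - η < (1 - ε) * (a * (1 - ε) * (1 - ε)) := by
      have h8 : 1 - 3 * ε ≤ (1 - ε) * ((1 - ε) * (1 - ε)) := by nlinarith [mul_pos hε hε, mul_pos (mul_pos hε hε) hε]
      have h9 := mul_le_mul_of_nonneg_left h8 ha0.le
      have h10 : a * (1 - 3 * ε) = a - 3 * a * ε := by ring
      have h11 : 3 * a * ε ≤ ε := by nlinarith
      nlinarith
    linarith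
  have h5 := h3.eventually_const_lt h4
  filter_upwards [h5, hz, hker, eventually_ge_atTop (1:ℝ)] with T h6 h7 h8 hT
  have hT0 : 0 < T := by linarith
  have h9 := aa_low hZ hP hT (by linarith : ε < 1) h8
  refine h6.le.trans (le_trans ?_ h9)
  simp only [Function.comp]
  have hd : 0 < 1 - ε := by linarith
  obtain ⟨F, hF⟩ : ∃ F : ℝ, F = (2 * A * Real.log T - K3) ^ 2 / (4 * A * Real.log T ^ 2 + K4 * (1 + Real.log T)) := ⟨_, rfl⟩
  rw [← hF] at h7 ⊢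
  obtain ⟨X, hX⟩ : ∃ X : ℝ, X = ∑' ρ : NT, zz ρ * ph P ((ρ : ℂ).im / T) := ⟨_, rfl⟩
  rw [← hX] at h7 ⊢
  calc (1 - ε) * (F / (2 * Real.pi) - CP P * SS * T⁻¹) = (1 - ε) / T * (T / (2 * Real.pi) * F - CP P * SS) := by
        field_simp
    _ ≤ (1 - ε) / T * (X - CP P * SS) := by gcongr

/-- unconditionally the averaged variance is at least half of the conjectured value -/
theorem lower {η : ℝ} (hη : 0 < η) : ∀ᶠ T : ℝ in atTop, ∀ᶠ Y : ℝ in atTop, 3 / Real.pi ^ 2 - η ≤ VL T Y := by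
  by_cases hZ : ZC
  · filter_upwards [aa_liminf hZ (half_pos hη), eventually_ge_atTop (1:ℝ)] with T h1 hT
    have h2 := (VL_lim hZ hT).eventually_const_lt (show 3 / Real.pi ^ 2 - η < aa T by linarith)
    filter_upwards [h2] with Y hY
    exact hY.le
  · filter_upwards [eventually_ge_atTop (1:ℝ)] with T hT
    by_contra hcon
    rw [not_eventually] at hcon
    exact hZ (ZC_of_VL (C := 3 / Real.pi ^ 2 - η) hT (hcon.mono fun Y hY => (not_le.1 hY).le))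

end Pool.Agent.Y763.HB
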