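import Pool.Agent.Y763.HB.EX3
import Pool.Agent.Y763.HB.Stm

/-! The Dirichlet polynomial and the weight. -/

set_option autoImplicit false
set_option maxHeartbeats 2000000

open Complex Filter Topology Set MeasureTheory

namespace Pool.Agent.Y763.HB

open Pool.Agent.Y23 (Dec JJ)

/-- `∑_{n ≤ N} μ(n) n^{w - 1/2}` -/
noncomputable def Ap (N : ℕ) (w : ℂ) : ℂ :=
  ∑ n ∈ Finset.Icc 1 N, muc n * cexp ((w - 1 / 2) * (Real.log n : ℝ))

/-- the weight `P(e^{(w/T)²}) e^{(w/T)²}` -/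
noncomputable def Ph (P : Polynomial ℝ) (T : ℝ) (w : ℂ) : ℂ :=
  Polynomial.aeval (cexp ((w / T) ^ 2)) P * cexp ((w / T) ^ 2)

lemma Ph_diff (P : Polynomial ℝ) (T : ℝ) : Differentiable ℂ (Ph P T) := by
  unfold Ph
  have h1 : Differentiable ℂ fun w : ℂ => cexp ((w / T) ^ 2) := by fun_prop
  have h2 : Differentiable ℂ fun z : ℂ => Polynomial.aeval z P := Polynomial.differentiable_aeval P
  exact (h2.comp h1).mul h1

lemma Ph_neg (P : Polynomial ℝ) (T : ℝ) (w : ℂ) : Ph P T (-w) = Ph P T w := by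
  unfold Ph
  have : (-w / T) ^ 2 = (w / T) ^ 2 := by ring
  rw [this]

lemma Ph_line (P : Polynomial ℝ) (T y : ℝ) : Ph P T ⟨0, y⟩ = ((ph P (y / T) : ℝ) : ℂ) := by
  have e : ((⟨0, y⟩ : ℂ) / T) ^ 2 = ((-(y / T) ^ 2 : ℝ) : ℂ) := by
    have h1 : (⟨0, y⟩ : ℂ) = (y : ℂ) * I := by apply Complex.ext <;> simp
    rw [h1, div_pow, mul_pow, I_sq]
    push_cast
    ring
  unfold Ph ph
  rw [e, ← Complex.ofReal_exp]
  have h2 : Polynomial.aeval ((Real.exp (-(y / T) ^ 2) : ℝ) : ℂ) P =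
      ((P.eval (Real.exp (-(y / T) ^ 2)) : ℝ) : ℂ) := by
    have := Polynomial.aeval_algebraMap_apply ℂ (Real.exp (-(y / T) ^ 2)) P
    rw [Polynomial.coe_aeval_eq_eval] at this
    exact this
  rw [h2]
  push_cast
  ring

/-- a bound for `P` on the disc of radius `e` -/
noncomputable def CP (P : Polynomial ℝ) : ℝ :=
  (∑ j ∈ Finset.range (P.natDegree + 1), |P.coeff j| * Real.exp 1 ^ j) * Real.exp 1

lemma CP_nonneg (P : Polynomial ℝ) : 0 ≤ CP P := by unfold CP; positivity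

lemma Ph_bd (P : Polynomial ℝ) {T : ℝ} (hT : 1 ≤ T) {w : ℂ} (hw : |w.re| ≤ 1) :
    ‖Ph P T w‖ ≤ CP P * Real.exp (-(1 / T ^ 2) * w.im ^ 2) := by
  have hT0 : 0 < T := by linarith
  have h1 : ‖cexp ((w / T) ^ 2)‖ = Real.exp (w.re ^ 2 / T ^ 2 - w.im ^ 2 / T ^ 2) := by
    rw [Complex.norm_exp]
    congr 1
    have e : ((w / T) ^ 2).re = (w.re ^ 2 - w.im ^ 2) / T ^ 2 := by
      rw [div_pow, ← Complex.ofReal_pow, Complex.div_ofReal_re]
      congr 1
      rw [sq, Complex.mul_re]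
      ring
    rw [e]
    ring
  have h2 : w.re ^ 2 / T ^ 2 ≤ 1 := by
    rw [div_le_one (by positivity)]
    have : w.re ^ 2 ≤ 1 := by
      rw [← sq_abs]
      nlinarith [abs_nonneg w.re]
    nlinarith
  have h3 : ‖cexp ((w / T) ^ 2)‖ ≤ Real.exp 1 * Real.exp (-(1 / T ^ 2) * w.im ^ 2) := by
    rw [h1, ← Real.exp_add]
    apply Real.exp_le_exp.2
    have : w.im ^ 2 / T ^ 2 = 1 / T ^ 2 * w.im ^ 2 := by ring
    rw [this]
    linarith
  have h4 : ‖cexp ((w / T) ^ 2)‖ ≤ Real.exp 1 := by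
    refine h3.trans ?_
    have : Real.exp (-(1 / T ^ 2) * w.im ^ 2) ≤ 1 := by
      rw [Real.exp_le_one_iff]
      have : 0 ≤ 1 / T ^ 2 * w.im ^ 2 := by positivity
      linarith
    exact mul_le_of_le_one_right (Real.exp_pos 1).le this
  unfold Ph CP
  rw [norm_mul, Polynomial.aeval_eq_sum_range]
  have h5 : ‖∑ i ∈ Finset.range (P.natDegree + 1), P.coeff i • cexp ((w / T) ^ 2) ^ i‖ ≤
      ∑ j ∈ Finset.range (P.natDegree + 1), |P.coeff j| * Real.exp 1 ^ j := by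
    refine (norm_sum_le _ _).trans (Finset.sum_le_sum fun j _ => ?_)
    rw [norm_smul, norm_pow, Real.norm_eq_abs]
    gcongr
  rw [mul_assoc]
  exact mul_le_mul h5 h3 (norm_nonneg _) (by positivity)

lemma term_norm' (n : ℕ) (hn : 1 ≤ n) (w : ℂ) :
    ‖cexp ((w - 1 / 2) * (Real.log n : ℝ))‖ = (n : ℝ) ^ (w.re - 1 / 2) := by
  rw [Complex.norm_exp, Complex.re_mul_ofReal, Real.rpow_def_of_pos (by exact_mod_cast hn)]
  congr 1
  have : (w - 1 / 2 : ℂ).re = w.re - 1 / 2 := by simp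
  rw [this]
  ring

lemma Ap_diff (N : ℕ) : Differentiable ℂ (Ap N) := by
  unfold Ap
  fun_prop

lemma Ap_bd (N : ℕ) {w : ℂ} (hw : |w.re| ≤ 1) : ‖Ap N w‖ ≤ (N : ℝ) * N := by
  unfold Ap
  refine (norm_sum_le _ _).trans ?_
  have h1 : ∀ n ∈ Finset.Icc 1 N, ‖muc n * cexp ((w - 1 / 2) * (Real.log n : ℝ))‖ ≤ (N : ℝ) := by
    intro n hn
    rw [Finset.mem_Icc] at hn
    rw [norm_mul, term_norm' n hn.1]
    have hn1 : (1:ℝ) ≤ n := by exact_mod_cast hn.1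
    have h2 : (n : ℝ) ^ (w.re - 1 / 2) ≤ (n : ℝ) ^ (1:ℝ) := by
      apply Real.rpow_le_rpow_of_exponent_le hn1
      have := (abs_le.1 hw).2
      linarith
    rw [Real.rpow_one] at h2
    calc ‖muc n‖ * (n : ℝ) ^ (w.re - 1 / 2) ≤ 1 * (n : ℝ) := by
          refine mul_le_mul (muc_le n) h2 (by positivity) zero_le_one
      _ ≤ N := by
          rw [one_mul]
          exact_mod_cast hn.2
  refine (Finset.sum_le_sum h1).trans ?_
  simp

lemma Ap_conj (N : ℕ) (y : ℝ) : Ap N (-⟨0, y⟩) = (starRingEnd ℂ) (Ap N ⟨0, y⟩) := by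
  unfold Ap
  rw [map_sum]
  refine Finset.sum_congr rfl fun n _ => ?_
  rw [map_mul]
  have h1 : (starRingEnd ℂ) (muc n) = muc n := by
    unfold muc
    simp
  rw [h1, ← Complex.exp_conj, map_mul, Complex.conj_ofReal, map_sub]
  have h2 : (starRingEnd ℂ) (⟨0, y⟩ : ℂ) = -⟨0, y⟩ := by apply Complex.ext <;> simp
  have h3 : (starRingEnd ℂ) (1 / 2 : ℂ) = 1 / 2 := by
    rw [map_div₀, map_one]
    congr 1
    exact Complex.conj_ofNat 2
  rw [h2, h3]

/-- the test function of the first moment -/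
noncomputable def h1 (N : ℕ) (P : Polynomial ℝ) (T : ℝ) (w : ℂ) : ℂ := Ap N w * Ph P T w

/-- the test function of the second moment -/
noncomputable def h2 (N : ℕ) (P : Polynomial ℝ) (T : ℝ) (w : ℂ) : ℂ := Ap N w * Ap N (-w) * Ph P T w

lemma h1_dec (N : ℕ) (P : Polynomial ℝ) {T : ℝ} (hT : 1 ≤ T) :
    Dec (h1 N P T) ((N : ℝ) * N * CP P) (1 / T ^ 2) := by
  refine ⟨(Ap_diff N).mul (Ph_diff P T), fun w hw => ?_⟩
  unfold h1
  rw [norm_mul, mul_assoc]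
  exact mul_le_mul (Ap_bd N hw) (Ph_bd P hT hw) (norm_nonneg _) (by positivity)

lemma h2_dec (N : ℕ) (P : Polynomial ℝ) {T : ℝ} (hT : 1 ≤ T) :
    Dec (h2 N P T) ((N : ℝ) * N * ((N : ℝ) * N) * CP P) (1 / T ^ 2) := by
  refine ⟨((Ap_diff N).mul ((Ap_diff N).comp differentiable_neg)).mul (Ph_diff P T), fun w hw => ?_⟩
  unfold h2
  rw [norm_mul, norm_mul, mul_assoc ((N : ℝ) * N * ((N : ℝ) * N))]
  exact mul_le_mul (mul_le_mul (Ap_bd N hw) (Ap_bd N (by rwa [Complex.neg_re, abs_neg])) (norm_nonneg _) (by positivity))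
    (Ph_bd P hT hw) (norm_nonneg _) (by positivity)

lemma h2_even (N : ℕ) (P : Polynomial ℝ) (T : ℝ) (w : ℂ) : h2 N P T (-w) = h2 N P T w := by
  unfold h2
  rw [Ph_neg, neg_neg]
  ring

lemma h2_line (N : ℕ) (P : Polynomial ℝ) (T y : ℝ) :
    h2 N P T ⟨0, y⟩ = ((‖Ap N ⟨0, y⟩‖ ^ 2 * ph P (y / T) : ℝ) : ℂ) := by
  unfold h2
  rw [Ap_conj, Ph_line, Complex.mul_conj, Complex.normSq_eq_norm_sq]
  push_cast
  ring

/-- the Fourier transform of the weight -/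
noncomputable def FTT (P : Polynomial ℝ) (T w : ℝ) : ℂ :=
  ∫ y : ℝ, cexp (I * (y * w : ℝ)) * ((ph P (y / T) : ℝ) : ℂ)

lemma ph_cont (P : Polynomial ℝ) (T : ℝ) : Continuous fun y : ℝ => ph P (y / T) := by
  unfold ph
  have : Continuous fun y : ℝ => Real.exp (-(y / T) ^ 2) := by fun_prop
  exact (P.continuous.comp this).mul this

lemma ph_int (P : Polynomial ℝ) {T : ℝ} (hT : 1 ≤ T) : Integrable fun y : ℝ => ((ph P (y / T) : ℝ) : ℂ) := by
  have hd : Dec (Ph P T) (CP P) (1 / T ^ 2) := ⟨Ph_diff P T, fun w hw => Ph_bd P hT hw⟩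
  have := Pool.Agent.Y23.dec_int (σ := 0) (by positivity) hd (by norm_num)
  refine this.congr (Eventually.of_forall fun y => ?_)
  exact Ph_line P T y

lemma ph_int_mul (P : Polynomial ℝ) {T : ℝ} (hT : 1 ≤ T) (w : ℝ) :
    Integrable fun y : ℝ => cexp (I * (y * w : ℝ)) * ((ph P (y / T) : ℝ) : ℂ) := by
  refine ((ph_int P hT).norm).mono' (Continuous.aestronglyMeasurable ?_) (Eventually.of_forall fun y => ?_)
  · exact (by fun_prop : Continuous fun y : ℝ => cexp (I * (y * w : ℝ))).mul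
      (Complex.continuous_ofReal.comp (ph_cont P T))
  · rw [norm_mul, mul_comm I, Complex.norm_exp_ofReal_mul_I, one_mul]

end Pool.Agent.Y763.HB
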