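import Pool.Agent.Y763.HB.S0

/-! The first moment. -/

set_option autoImplicit false
set_option maxHeartbeats 2000000

open Complex Filter Topology Set MeasureTheory

namespace Pool.Agent.Y763.HB

open Pool.Agent.Y23 (Dec JJ)
open Pool.Agent.W120.WM (ZC NT)

lemma e1 (a y : ℝ) : cexp (((⟨0, y⟩ : ℂ) - 1 / 2) * (a : ℝ)) = ((Real.exp (-(a / 2)) : ℝ) : ℂ) * cexp (I * (y * a : ℝ)) := by
  have h1 : (⟨0, y⟩ : ℂ) = (y : ℂ) * I := by apply Complex.ext <;> simp
  rw [h1, Complex.ofReal_exp, ← Complex.exp_add]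
  congr 1
  push_cast
  ring

lemma e1' (a y : ℝ) : cexp ((-(⟨0, y⟩ : ℂ) - 1 / 2) * (a : ℝ)) = ((Real.exp (-(a / 2)) : ℝ) : ℂ) * cexp (I * (y * (-a) : ℝ)) := by
  have h1 : (⟨0, y⟩ : ℂ) = (y : ℂ) * I := by apply Complex.ext <;> simp
  rw [h1, Complex.ofReal_exp, ← Complex.exp_add]
  congr 1
  push_cast
  ring

lemma e2 (L y : ℝ) : cexp (-(L : ℂ) * (1 / 2 + ⟨0, y⟩)) = ((Real.exp (-(L / 2)) : ℝ) : ℂ) * cexp (I * (y * (-L) : ℝ)) := by
  have h1 : (⟨0, y⟩ : ℂ) = (y : ℂ) * I := by apply Complex.ext <;> simp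
  rw [h1, Complex.ofReal_exp, ← Complex.exp_add]
  congr 1
  push_cast
  ring

lemma JJ1 (N : ℕ) (P : Polynomial ℝ) {T : ℝ} (hT : 1 ≤ T) (L : ℝ) :
    JJ (h1 N P T) L = ∑ n ∈ Finset.Icc 1 N, muc n * ((Real.exp (-((Real.log n + L) / 2)) : ℝ) : ℂ) *
      FTT P T (Real.log n - L) := by
  unfold JJ FTT
  have h3 : ∀ n ∈ Finset.Icc 1 N, muc n * ((Real.exp (-((Real.log n + L) / 2)) : ℝ) : ℂ) *
      ∫ y : ℝ, cexp (I * (y * (Real.log n - L) : ℝ)) * ((ph P (y / T) : ℝ) : ℂ) =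
      ∫ y : ℝ, muc n * ((Real.exp (-((Real.log n + L) / 2)) : ℝ) : ℂ) *
        (cexp (I * (y * (Real.log n - L) : ℝ)) * ((ph P (y / T) : ℝ) : ℂ)) := fun n _ =>
    (integral_const_mul _ _).symm
  rw [Finset.sum_congr rfl h3, ← integral_finsetSum _ (fun n _ => (ph_int_mul P hT _).const_mul _)]
  refine integral_congr_ae (Eventually.of_forall fun y => ?_)
  simp only
  unfold h1 Ap
  rw [Ph_line, Finset.sum_mul, Finset.mul_sum]
  refine Finset.sum_congr rfl fun n _ => ?_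
  rw [e1, e2]
  have h4 : Real.exp (-((Real.log n + L) / 2)) = Real.exp (-(Real.log n / 2)) * Real.exp (-(L / 2)) := by
    rw [← Real.exp_add]
    congr 1
    ring
  have h5 : cexp (I * (y * (Real.log n - L) : ℝ)) = cexp (I * (y * Real.log n : ℝ)) * cexp (I * (y * (-L) : ℝ)) := by
    rw [← Complex.exp_add]
    congr 1
    push_cast
    ring
  rw [h4, h5]
  push_cast
  ring

lemma JJ2 (N : ℕ) (P : Polynomial ℝ) {T : ℝ} (hT : 1 ≤ T) (L : ℝ) :
    JJ (h2 N P T) L = ∑ m ∈ Finset.Icc 1 N, ∑ n ∈ Finset.Icc 1 N, muc n * muc m *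
      ((Real.exp (-((Real.log n + (Real.log m + L)) / 2)) : ℝ) : ℂ) * FTT P T (Real.log n - (Real.log m + L)) := by
  unfold JJ FTT
  have h3 : ∀ m n : ℕ, muc n * muc m * ((Real.exp (-((Real.log n + (Real.log m + L)) / 2)) : ℝ) : ℂ) *
      ∫ y : ℝ, cexp (I * (y * (Real.log n - (Real.log m + L)) : ℝ)) * ((ph P (y / T) : ℝ) : ℂ) =
      ∫ y : ℝ, muc n * muc m * ((Real.exp (-((Real.log n + (Real.log m + L)) / 2)) : ℝ) : ℂ) *
        (cexp (I * (y * (Real.log n - (Real.log m + L)) : ℝ)) * ((ph P (y / T) : ℝ) : ℂ)) := fun m n =>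
    (integral_const_mul _ _).symm
  rw [Finset.sum_congr rfl fun m _ => Finset.sum_congr rfl fun n _ => h3 m n]
  have h6 : ∀ m ∈ Finset.Icc 1 N, ∑ n ∈ Finset.Icc 1 N,
      ∫ y : ℝ, muc n * muc m * ((Real.exp (-((Real.log n + (Real.log m + L)) / 2)) : ℝ) : ℂ) *
        (cexp (I * (y * (Real.log n - (Real.log m + L)) : ℝ)) * ((ph P (y / T) : ℝ) : ℂ)) =
      ∫ y : ℝ, ∑ n ∈ Finset.Icc 1 N, muc n * muc m * ((Real.exp (-((Real.log n + (Real.log m + L)) / 2)) : ℝ) : ℂ) *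
        (cexp (I * (y * (Real.log n - (Real.log m + L)) : ℝ)) * ((ph P (y / T) : ℝ) : ℂ)) := fun m _ =>
    (integral_finsetSum _ (fun n _ => (ph_int_mul P hT _).const_mul _)).symm
  rw [Finset.sum_congr rfl h6, ← integral_finsetSum _ (fun m _ => integrable_finsetSum _
    fun n _ => (ph_int_mul P hT _).const_mul _)]
  refine integral_congr_ae (Eventually.of_forall fun y => ?_)
  simp only
  unfold h2 Ap
  rw [Ph_line, Finset.sum_mul_sum, Finset.sum_comm, Finset.sum_mul, Finset.mul_sum]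
  refine Finset.sum_congr rfl fun m _ => ?_
  rw [Finset.sum_mul, Finset.mul_sum]
  refine Finset.sum_congr rfl fun n _ => ?_
  rw [e1, e2, e1']
  have h4 : Real.exp (-((Real.log n + (Real.log m + L)) / 2)) =
      Real.exp (-(Real.log n / 2)) * Real.exp (-(Real.log m / 2)) * Real.exp (-(L / 2)) := by
    rw [← Real.exp_add, ← Real.exp_add]
    congr 1
    ring
  have h5 : cexp (I * (y * (Real.log n - (Real.log m + L)) : ℝ)) =
      cexp (I * (y * Real.log n : ℝ)) * cexp (I * (y * (-Real.log m) : ℝ)) * cexp (I * (y * (-L) : ℝ)) := by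
    rw [← Complex.exp_add, ← Complex.exp_add]
    congr 1
    push_cast
    ring
  rw [h4, h5]
  push_cast
  ring

/-- off-diagonal bound at scale `T` -/
def OD (P : Polynomial ℝ) (T C : ℝ) (N : ℕ) : Prop := ∀ n ∈ Finset.Icc 1 N, ∀ l : ℕ, 1 ≤ l → l ≠ n →
  ‖FTT P T (Real.log n - Real.log l)‖ ≤ C / (T ^ 2 * (l : ℝ) ^ 2)

/-- `∑ 1/k²` -/
noncomputable def Z2 : ℝ := ∑' k : ℕ, 1 / (k : ℝ) ^ 2

lemma sum_inv_sq : Summable fun k : ℕ => 1 / (k : ℝ) ^ 2 := Real.summable_one_div_nat_pow.2 one_lt_two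

/-- inner sum: the diagonal term and the rest -/
lemma inner (P : Polynomial ℝ) {T C : ℝ} (hT : 1 ≤ T) (hC : 0 ≤ C) {N : ℕ} (hOD : OD P T C N)
    {l : ℕ} (hl : 1 ≤ l) :
    ‖(∑ n ∈ Finset.Icc 1 N, muc n * ((Real.exp (-((Real.log n + Real.log l) / 2)) : ℝ) : ℂ) *
      FTT P T (Real.log n - Real.log l)) - (if l ≤ N then muc l * ((1 / (l : ℝ) : ℝ) : ℂ) * FTT P T 0 else 0)‖ ≤
      N * (C / (T ^ 2 * (l : ℝ) ^ 2)) := by
  classical
  have hlog : ∀ n : ℕ, 0 ≤ Real.log n := fun n => Real.log_natCast_nonneg n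
  have hl0 : (0:ℝ) < l := by exact_mod_cast hl
  have h1 : (if l ≤ N then muc l * ((1 / (l : ℝ) : ℝ) : ℂ) * FTT P T 0 else 0) =
      ∑ n ∈ Finset.Icc 1 N, if n = l then muc n * ((Real.exp (-((Real.log n + Real.log l) / 2)) : ℝ) : ℂ) *
      FTT P T (Real.log n - Real.log l) else 0 := by
    rw [Finset.sum_ite_eq']
    have h2 : l ∈ Finset.Icc 1 N ↔ l ≤ N := by
      rw [Finset.mem_Icc]
      exact ⟨fun h => h.2, fun h => ⟨hl, h⟩⟩
    simp only [h2]
    split_ifs with h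
    · have h3 : Real.exp (-((Real.log l + Real.log l) / 2)) = 1 / (l : ℝ) := by
        have : -((Real.log l + Real.log l) / 2) = -Real.log l := by ring
        rw [this, Real.exp_neg, Real.exp_log hl0, one_div]
      rw [h3, sub_self]
    · rfl
  rw [h1, ← Finset.sum_sub_distrib]
  refine (norm_sum_le _ _).trans ?_
  have h4 : ∀ n ∈ Finset.Icc 1 N, ‖muc n * ((Real.exp (-((Real.log n + Real.log l) / 2)) : ℝ) : ℂ) *
      FTT P T (Real.log n - Real.log l) - (if n = l then muc n * ((Real.exp (-((Real.log n + Real.log l) / 2)) : ℝ) : ℂ) *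
      FTT P T (Real.log n - Real.log l) else 0)‖ ≤ C / (T ^ 2 * (l : ℝ) ^ 2) := by
    intro n hn
    by_cases h : n = l
    · rw [if_pos h, sub_self, norm_zero]
      positivity
    · rw [if_neg h, sub_zero, norm_mul, norm_mul, Complex.norm_real, Real.norm_eq_abs, abs_of_pos (Real.exp_pos _)]
      have h5 := hOD n hn l hl (Ne.symm h)
      have h6 : Real.exp (-((Real.log n + Real.log l) / 2)) ≤ 1 := by
        rw [Real.exp_le_one_iff]
        linarith [hlog n, hlog l]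
      have h7 : ‖muc n‖ * Real.exp (-((Real.log n + Real.log l) / 2)) ≤ 1 :=
        mul_le_one₀ (muc_le n) (Real.exp_pos _).le h6
      calc ‖muc n‖ * Real.exp (-((Real.log n + Real.log l) / 2)) * ‖FTT P T (Real.log n - Real.log l)‖ ≤
          1 * (C / (T ^ 2 * (l : ℝ) ^ 2)) := mul_le_mul h7 h5 (norm_nonneg _) zero_le_one
        _ = _ := one_mul _
  refine (Finset.sum_le_sum h4).trans (le_of_eq ?_)
  simp

/-- the first moment on the prime side -/
lemma first_prime (P : Polynomial ℝ) {T C : ℝ} (hT : 1 ≤ T) (hC : 0 ≤ C) {N : ℕ} (hN : (N : ℝ) ≤ T)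
    (hOD : OD P T C N) :
    ‖(∑' k : ℕ, muc k * JJ (h1 N P T) (Real.log k)) - ((D1 N : ℝ) : ℂ) * FTT P T 0‖ ≤ C * Z2 := by
  classical
  have hT0 : 0 < T := by linarith
  have hs1 := (right_line (by positivity) (by have := CP_nonneg P; positivity) (h1_dec N P hT)).summable
  have hs2 : HasSum (fun k : ℕ => if k ∈ Finset.Icc 1 N then
      ((((ArithmeticFunction.moebius k : ℤ) : ℝ) ^ 2 / k : ℝ) : ℂ) * FTT P T 0 else 0)
      (∑ k ∈ Finset.Icc 1 N, if k ∈ Finset.Icc 1 N then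
      ((((ArithmeticFunction.moebius k : ℤ) : ℝ) ^ 2 / k : ℝ) : ℂ) * FTT P T 0 else 0) :=
    hasSum_sum_of_ne_finset_zero fun k hk => if_neg hk
  have e : (∑ k ∈ Finset.Icc 1 N, if k ∈ Finset.Icc 1 N then
      ((((ArithmeticFunction.moebius k : ℤ) : ℝ) ^ 2 / k : ℝ) : ℂ) * FTT P T 0 else 0) =
      ((D1 N : ℝ) : ℂ) * FTT P T 0 := by
    unfold D1
    rw [Complex.ofReal_sum, Finset.sum_mul]
    exact Finset.sum_congr rfl fun k hk => if_pos hk
  rw [e] at hs2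
  have hs := hs1.hasSum.sub hs2
  rw [← hs.tsum_eq]
  refine tsum_of_norm_bounded ((sum_inv_sq.hasSum).mul_left C) fun k => ?_
  rcases Nat.eq_zero_or_pos k with h | h
  · subst h
    rw [muc_zero, zero_mul, if_neg (by simp), sub_zero, norm_zero]
    positivity
  · have hk0 : (0:ℝ) < k := by exact_mod_cast h
    have h3 := inner P hT hC hOD (l := k) h
    rw [JJ1 N P hT]
    have h4 : (if k ∈ Finset.Icc 1 N then
        ((((ArithmeticFunction.moebius k : ℤ) : ℝ) ^ 2 / k : ℝ) : ℂ) * FTT P T 0 else 0) =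
        muc k * (if k ≤ N then muc k * ((1 / (k : ℝ) : ℝ) : ℂ) * FTT P T 0 else 0) := by
      have h2 : k ∈ Finset.Icc 1 N ↔ k ≤ N := by
        rw [Finset.mem_Icc]
        exact ⟨fun h => h.2, fun h' => ⟨h, h'⟩⟩
      simp only [h2]
      split_ifs
      · unfold muc
        push_cast
        ring
      · rw [mul_zero]
    rw [h4, ← mul_sub, norm_mul]
    have h5 : (N : ℝ) * (C / (T ^ 2 * (k : ℝ) ^ 2)) ≤ C * (1 / (k : ℝ) ^ 2) := by
      have h6 : (N : ℝ) ≤ T ^ 2 := hN.trans (by nlinarith)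
      rw [mul_one_div, mul_div_assoc', div_le_div_iff₀ (by positivity) (by positivity)]
      nlinarith [mul_le_mul_of_nonneg_right h6 (by positivity : 0 ≤ C * (k : ℝ) ^ 2)]
    calc ‖muc k‖ * _ ≤ 1 * (N * (C / (T ^ 2 * (k : ℝ) ^ 2))) :=
        mul_le_mul (muc_le k) h3 (norm_nonneg _) zero_le_one
      _ ≤ _ := by rw [one_mul]; exact h5

end Pool.Agent.Y763.HB
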