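import Pool.Agent.Y763.HB.S1

/-! The second moment. -/

set_option autoImplicit false
set_option maxHeartbeats 2000000

open Complex Filter Topology Set MeasureTheory

namespace Pool.Agent.Y763.HB

open Pool.Agent.Y23 (Dec JJ ev ev_dec Lam Lam_zero DG DG_cont mu mu_pos Zt)
open Pool.Agent.W120.WM (ZC NT)

/-- the diagonal of one prime power -/
noncomputable def dd (N k : ℕ) : ℝ := ∑ m ∈ Finset.Icc 1 (N / k),
  ((ArithmeticFunction.moebius m : ℤ) : ℝ) * ((ArithmeticFunction.moebius (m * k) : ℤ) : ℝ) / ((m : ℝ) * k)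

lemma JJ2_bd (P : Polynomial ℝ) {T C : ℝ} (hT : 1 ≤ T) (hC : 0 ≤ C) {N : ℕ} (hN : (N : ℝ) ≤ T)
    (hOD : OD P T C N) {k : ℕ} (hk : 1 ≤ k) :
    ‖JJ (h2 N P T) (Real.log k) - ((dd N k : ℝ) : ℂ) * FTT P T 0‖ ≤ C * (1 / (k : ℝ) ^ 2) := by
  classical
  have hk0 : (0:ℝ) < k := by exact_mod_cast hk
  have hT0 : 0 < T := by linarith
  rw [JJ2 N P hT]
  have h1 : ((dd N k : ℝ) : ℂ) * FTT P T 0 = ∑ m ∈ Finset.Icc 1 N,
      muc m * (if m * k ≤ N then muc (m * k) * ((1 / ((m * k : ℕ) : ℝ) : ℝ) : ℂ) * FTT P T 0 else 0) := by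
    have h2 : Finset.Icc 1 (N / k) = (Finset.Icc 1 N).filter (fun m => m * k ≤ N) := by
      ext m
      rw [Finset.mem_filter, Finset.mem_Icc, Finset.mem_Icc, Nat.le_div_iff_mul_le (by omega)]
      constructor
      · rintro ⟨a, b⟩
        exact ⟨⟨a, by nlinarith⟩, b⟩
      · rintro ⟨⟨a, _⟩, b⟩
        exact ⟨a, b⟩
    unfold dd
    rw [h2, Complex.ofReal_sum, Finset.sum_mul, Finset.sum_filter]
    refine Finset.sum_congr rfl fun m _ => ?_
    split_ifs
    · unfold muc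
      push_cast
      ring
    · rw [mul_zero]
  rw [h1, ← Finset.sum_sub_distrib]
  refine (norm_sum_le _ _).trans ?_
  have h3 : ∀ m ∈ Finset.Icc 1 N, ‖(∑ n ∈ Finset.Icc 1 N, muc n * muc m *
      ((Real.exp (-((Real.log n + (Real.log m + Real.log k)) / 2)) : ℝ) : ℂ) *
        FTT P T (Real.log n - (Real.log m + Real.log k))) -
      muc m * (if m * k ≤ N then muc (m * k) * ((1 / ((m * k : ℕ) : ℝ) : ℝ) : ℂ) * FTT P T 0 else 0)‖ ≤
      N * (C / (T ^ 2 * (k : ℝ) ^ 2)) := by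
    intro m hm
    rw [Finset.mem_Icc] at hm
    have hm0 : (0:ℝ) < m := by exact_mod_cast hm.1
    have h4 : Real.log m + Real.log k = Real.log ((m * k : ℕ) : ℝ) := by
      rw [Nat.cast_mul, Real.log_mul hm0.ne' hk0.ne']
    have h5 := inner P hT hC hOD (l := m * k) (Nat.mul_pos hm.1 hk)
    have h6 : (∑ n ∈ Finset.Icc 1 N, muc n * muc m *
      ((Real.exp (-((Real.log n + (Real.log m + Real.log k)) / 2)) : ℝ) : ℂ) *
        FTT P T (Real.log n - (Real.log m + Real.log k))) =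
        muc m * ∑ n ∈ Finset.Icc 1 N, muc n * ((Real.exp (-((Real.log n + Real.log ((m * k : ℕ) : ℝ)) / 2)) : ℝ) : ℂ) *
        FTT P T (Real.log n - Real.log ((m * k : ℕ) : ℝ)) := by
      rw [Finset.mul_sum]
      refine Finset.sum_congr rfl fun n _ => ?_
      rw [h4]
      ring
    rw [h6, ← mul_sub, norm_mul]
    have h7 : (N : ℝ) * (C / (T ^ 2 * ((m * k : ℕ) : ℝ) ^ 2)) ≤ N * (C / (T ^ 2 * (k : ℝ) ^ 2)) := by
      have : (k : ℝ) ≤ ((m * k : ℕ) : ℝ) := by
        exact_mod_cast Nat.le_mul_of_pos_left k hm.1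
      gcongr
    calc ‖muc m‖ * _ ≤ 1 * (N * (C / (T ^ 2 * ((m * k : ℕ) : ℝ) ^ 2))) :=
        mul_le_mul (muc_le m) h5 (norm_nonneg _) zero_le_one
      _ ≤ _ := by rw [one_mul]; exact h7
  refine (Finset.sum_le_sum h3).trans ?_
  rw [Finset.sum_const, Nat.card_Icc, nsmul_eq_mul]
  simp only [Nat.add_sub_cancel]
  have h8 : (N : ℝ) * N ≤ T ^ 2 := by
    have : (0:ℝ) ≤ N := Nat.cast_nonneg N
    nlinarith
  calc (N : ℝ) * (N * (C / (T ^ 2 * (k : ℝ) ^ 2))) = (N * N) * (C / (T ^ 2 * (k : ℝ) ^ 2)) := by ring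
    _ ≤ T ^ 2 * (C / (T ^ 2 * (k : ℝ) ^ 2)) := by gcongr
    _ = C * (1 / (k : ℝ) ^ 2) := by field_simp

lemma JJ_ev (N : ℕ) (P : Polynomial ℝ) (T L : ℝ) : JJ (ev (h2 N P T)) L = 2 * JJ (h2 N P T) L := by
  unfold JJ
  rw [← integral_const_mul]
  refine integral_congr_ae (Eventually.of_forall fun y => ?_)
  simp only
  unfold ev
  rw [h2_even]
  ring

lemma sum_lam_sq : Summable fun k : ℕ => ArithmeticFunction.vonMangoldt k * (1 / (k : ℝ) ^ 2) := by
  refine Summable.of_nonneg_of_le (fun k => mul_nonneg ArithmeticFunction.vonMangoldt_nonneg (by positivity)) (fun k => ?_)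
    H370.lam_summable
  refine mul_le_mul_of_nonneg_left ?_ ArithmeticFunction.vonMangoldt_nonneg
  rcases Nat.eq_zero_or_pos k with h | h
  · subst h
    norm_num
  · have hk : (1:ℝ) ≤ k := by exact_mod_cast h
    rw [one_div, ← Real.rpow_natCast, ← Real.rpow_neg (by positivity)]
    exact Real.rpow_le_rpow_of_exponent_le hk (by norm_num)

/-- `∑ Λ(k)/k²` -/
noncomputable def ZL : ℝ := ∑' k : ℕ, ArithmeticFunction.vonMangoldt k * (1 / (k : ℝ) ^ 2)

lemma second_prime (P : Polynomial ℝ) {T C : ℝ} (hT : 1 ≤ T) (hC : 0 ≤ C) {N : ℕ} (hN : (N : ℝ) ≤ T)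
    (hOD : OD P T C N) :
    ‖(∑' k : ℕ, Lam k * JJ (ev (h2 N P T)) (Real.log k)) - 2 * (((D2 N : ℝ) : ℂ) * FTT P T 0)‖ ≤ 2 * C * ZL := by
  classical
  have hT0 : 0 < T := by linarith
  have hCP := CP_nonneg P
  have hs1 := (Pool.Agent.Y23.prime_line (by positivity) (by positivity) (ev_dec (h2_dec N P hT))).summable
  have hs2 : HasSum (fun k : ℕ => if k ∈ Finset.Icc 1 N then
      2 * (Lam k * (((dd N k : ℝ) : ℂ) * FTT P T 0)) else 0)
      (∑ k ∈ Finset.Icc 1 N, if k ∈ Finset.Icc 1 N then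
      2 * (Lam k * (((dd N k : ℝ) : ℂ) * FTT P T 0)) else 0) :=
    hasSum_sum_of_ne_finset_zero fun k hk => if_neg hk
  have e : (∑ k ∈ Finset.Icc 1 N, if k ∈ Finset.Icc 1 N then
      2 * (Lam k * (((dd N k : ℝ) : ℂ) * FTT P T 0)) else 0) = 2 * (((D2 N : ℝ) : ℂ) * FTT P T 0) := by
    unfold D2
    rw [Complex.ofReal_sum, Finset.sum_mul, Finset.mul_sum]
    refine Finset.sum_congr rfl fun k hk => ?_
    rw [if_pos hk]
    unfold dd Lam
    rw [Complex.ofReal_sum, Complex.ofReal_sum, Finset.sum_mul, Finset.sum_mul, Finset.mul_sum]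
    congr 1
    refine Finset.sum_congr rfl fun m _ => ?_
    push_cast
    ring
  rw [e] at hs2
  have hs := hs1.hasSum.sub hs2
  rw [← hs.tsum_eq]
  have hb : 2 * C * ZL = 2 * C * ∑' k : ℕ, ArithmeticFunction.vonMangoldt k * (1 / (k : ℝ) ^ 2) := rfl
  rw [hb]
  refine tsum_of_norm_bounded ((sum_lam_sq.hasSum).mul_left (2 * C)) fun k => ?_
  rcases Nat.eq_zero_or_pos k with h | h
  · subst h
    rw [Lam_zero, zero_mul, if_neg (by simp), sub_zero, norm_zero]
    simp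
  · have h3 := JJ2_bd P hT hC hN hOD (k := k) h
    have h4 : (if k ∈ Finset.Icc 1 N then 2 * (Lam k * (((dd N k : ℝ) : ℂ) * FTT P T 0)) else 0) =
        2 * (Lam k * (((dd N k : ℝ) : ℂ) * FTT P T 0)) := by
      split_ifs with h5
      · rfl
      · have h6 : N / k = 0 := by
          rw [Finset.mem_Icc, not_and_or] at h5
          rcases h5 with h5 | h5
          · omega
          · exact Nat.div_eq_of_lt (by omega)
        have h7 : dd N k = 0 := by
          unfold dd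
          rw [h6]
          simp
        rw [h7]
        simp
    rw [h4, JJ_ev]
    have h5 : Lam k * (2 * JJ (h2 N P T) (Real.log k)) - 2 * (Lam k * (((dd N k : ℝ) : ℂ) * FTT P T 0)) =
        2 * Lam k * (JJ (h2 N P T) (Real.log k) - ((dd N k : ℝ) : ℂ) * FTT P T 0) := by ring
    rw [h5, norm_mul, norm_mul]
    have h6 := Pool.Agent.Y23.Lam_norm k
    have h7 : ‖(2 : ℂ)‖ = 2 := by norm_num
    rw [h7]
    have h8 : (0:ℝ) ≤ ArithmeticFunction.vonMangoldt k := ArithmeticFunction.vonMangoldt_nonneg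
    calc 2 * ‖Lam k‖ * ‖JJ (h2 N P T) (Real.log k) - ((dd N k : ℝ) : ℂ) * FTT P T 0‖ ≤
        2 * ArithmeticFunction.vonMangoldt k * (C * (1 / (k : ℝ) ^ 2)) := by gcongr
      _ = 2 * C * (ArithmeticFunction.vonMangoldt k * (1 / (k : ℝ) ^ 2)) := by ring

/-- the mean square on the line -/
lemma mean_line (P : Polynomial ℝ) {T C : ℝ} (hT : 1 ≤ T) (hC : 0 ≤ C) {N : ℕ} (hN : (N : ℝ) ≤ T)
    (hOD : OD P T C N) :
    ‖((∫ y : ℝ, ‖Ap N ⟨0, y⟩‖ ^ 2 * ph P (y / T) : ℝ) : ℂ) - ((D1 N : ℝ) : ℂ) * FTT P T 0‖ ≤ C := by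
  have h1 := JJ2_bd P hT hC hN hOD (k := 1) le_rfl
  have e1 : JJ (h2 N P T) (Real.log (1 : ℕ)) = ((∫ y : ℝ, ‖Ap N ⟨0, y⟩‖ ^ 2 * ph P (y / T) : ℝ) : ℂ) := by
    unfold JJ
    rw [← integral_complex_ofReal]
    refine integral_congr_ae (Eventually.of_forall fun y => ?_)
    simp only
    rw [h2_line, Nat.cast_one, Real.log_one]
    simp
  have e2 : dd N 1 = D1 N := by
    unfold dd D1
    rw [Nat.div_one]
    refine Finset.sum_congr rfl fun m _ => ?_
    rw [mul_one, Nat.cast_one, mul_one]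
    ring
  rw [e1, e2] at h1
  simpa using h1

/-- the archimedean density is at most `log (2 + |y|) + B` -/
lemma DG_le : ∃ B : ℝ, 0 ≤ B ∧ ∀ y : ℝ, DG y ≤ Real.log (2 + |y|) + B := by
  obtain ⟨C, hC⟩ := H370.digamma_bound
  obtain ⟨K, hK⟩ := (isCompact_Icc (a := (-1 : ℝ)) (b := 1)).exists_bound_of_continuousOn DG_cont.continuousOn
  refine ⟨max 0 (max C K), le_max_left _ _, fun y => ?_⟩
  have hlog : 0 ≤ Real.log (2 + |y|) := Real.log_nonneg (by linarith [abs_nonneg y])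
  rcases le_total 1 |y| with h | h
  · have e1 : (1 / 4 + (y : ℂ) / 2 * I).re = 1 / 4 := by
      have : (1 / 4 + (y : ℂ) / 2 * I) = ((1 / 4 : ℝ) : ℂ) + ((y / 2 : ℝ) : ℂ) * I := by push_cast; ring
      rw [this]
      simp
    have e2 : (1 / 4 + (y : ℂ) / 2 * I).im = y / 2 := by
      have : (1 / 4 + (y : ℂ) / 2 * I) = ((1 / 4 : ℝ) : ℂ) + ((y / 2 : ℝ) : ℂ) * I := by push_cast; ring
      rw [this]
      simp
    have h2 : |y / 2| = |y| / 2 := by rw [abs_div, abs_two]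
    have h1 := hC (1 / 4 + (y : ℂ) / 2 * I) (by rw [e1]) (by rw [e1]; norm_num) (by rw [e2, h2]; linarith)
    rw [e2, h2] at h1
    have h3 := (Complex.abs_re_le_norm _).trans h1
    rw [Complex.sub_re, Complex.ofReal_re] at h3
    have h4 := (abs_le.1 h3).2
    have h5 : DG y = (logDeriv Complex.Gamma (1 / 4 + (y : ℂ) / 2 * I)).re - Real.log Real.pi := by
      unfold DG digamma
      rfl
    rw [h5]
    have h6 : Real.log (|y| / 2) ≤ Real.log (2 + |y|) := Real.log_le_log (by linarith) (by linarith)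
    have h7 : 0 ≤ Real.log Real.pi := Real.log_nonneg (by linarith [Real.pi_gt_three])
    have h8 : C ≤ max 0 (max C K) := (le_max_left _ _).trans (le_max_right _ _)
    linarith
  · have h1 := hK y (abs_le.1 h)
    rw [Real.norm_eq_abs] at h1
    have h2 := (le_abs_self _).trans h1
    have h8 : K ≤ max 0 (max C K) := (le_max_right _ _).trans (le_max_right _ _)
    linarith

end Pool.Agent.Y763.HB
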