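import Pool.Agent.Y763.HB.S2

/-! The two moments over the zeros. -/

set_option autoImplicit false
set_option maxHeartbeats 2000000

open Complex Filter Topology Set MeasureTheory

namespace Pool.Agent.Y763.HB

open Pool.Agent.Y23 (Dec JJ ev ev_dec Lam Lam_zero DG DG_cont mu mu_pos Zt Lg)
open Pool.Agent.W120.WM (ZC NT)

/-- `∑ n^{-3/2}` -/
noncomputable def Z32 : ℝ := ∑' n : ℕ, (n : ℝ) ^ (-(3 / 2 : ℝ))

lemma Z32_nonneg : 0 ≤ Z32 := tsum_nonneg fun n => by positivity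

lemma Ap_left (N : ℕ) (y : ℝ) : ‖Ap N ⟨-1, y⟩‖ ≤ Z32 := by
  unfold Ap Z32
  refine (norm_sum_le _ _).trans ?_
  refine le_trans (Finset.sum_le_sum fun n hn => ?_) (sum_npow.sum_le_tsum (Finset.Icc 1 N) fun n _ => by positivity)
  rw [Finset.mem_Icc] at hn
  rw [norm_mul, term_norm' n hn.1]
  have e : (⟨-1, y⟩ : ℂ).re - 1 / 2 = -(3 / 2 : ℝ) := by norm_num
  rw [e]
  exact mul_le_of_le_one_left (by positivity) (muc_le n)

lemma gauss_T {T : ℝ} (hT : 0 < T) : ∫ y : ℝ, Real.exp (-(1 / T ^ 2) * y ^ 2) = √Real.pi * T := by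
  rw [integral_gaussian]
  have : Real.pi / (1 / T ^ 2) = Real.pi * T ^ 2 := by field_simp
  rw [this, Real.sqrt_mul Real.pi_pos.le, Real.sqrt_sq hT.le]

lemma left_part (N : ℕ) (P : Polynomial ℝ) {K : ℝ} (hK0 : 0 < K)
    (hK : ∀ t : ℝ, ‖(riemannZeta (⟨-1 / 2, t⟩ : ℂ))⁻¹‖ ≤ K) {T : ℝ} (hT : 1 ≤ T) :
    ‖∫ y : ℝ, (riemannZeta ⟨-1 / 2, y⟩)⁻¹ * h1 N P T ⟨-1, y⟩‖ ≤ K * Z32 * CP P * √Real.pi * T := by
  have hT0 : 0 < T := by linarith
  have hCP := CP_nonneg P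
  have hZ := Z32_nonneg
  have hb : ∀ y : ℝ, ‖(riemannZeta ⟨-1 / 2, y⟩)⁻¹ * h1 N P T ⟨-1, y⟩‖ ≤
      (K * Z32 * CP P) * Real.exp (-(1 / T ^ 2) * y ^ 2) := by
    intro y
    unfold h1
    rw [norm_mul, norm_mul]
    have h3 := Ph_bd P hT (w := ⟨-1, y⟩) (by norm_num)
    calc ‖(riemannZeta ⟨-1 / 2, y⟩)⁻¹‖ * (‖Ap N ⟨-1, y⟩‖ * ‖Ph P T ⟨-1, y⟩‖) ≤
        K * (Z32 * (CP P * Real.exp (-(1 / T ^ 2) * y ^ 2))) := by
          refine mul_le_mul (hK y) (mul_le_mul (Ap_left N y) h3 (norm_nonneg _) hZ) (by positivity) hK0.le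
      _ = _ := by ring
  refine (norm_integral_le_of_norm_le ((integrable_exp_neg_mul_sq (by positivity)).const_mul _)
    (Eventually.of_forall hb)).trans ?_
  rw [integral_const_mul, gauss_T hT0]
  apply le_of_eq
  ring

/-- `∫ ph P` -/
noncomputable def IP (P : Polynomial ℝ) : ℝ := ∫ x : ℝ, ph P x

lemma FTT_zero (P : Polynomial ℝ) {T : ℝ} (hT : 0 < T) : FTT P T 0 = ((T * IP P : ℝ) : ℂ) := by
  unfold FTT IP
  have h1 : ∀ y : ℝ, cexp (I * (y * 0 : ℝ)) * ((ph P (y / T) : ℝ) : ℂ) = ((ph P (y / T) : ℝ) : ℂ) := by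
    intro y
    simp
  simp_rw [h1]
  rw [integral_complex_ofReal]
  congr 1
  rw [Measure.integral_comp_div (fun x => ph P x) T, abs_of_pos hT, smul_eq_mul]

/-- the first moment -/
theorem first (hZ : ZC) (P : Polynomial ℝ) : ∃ C1 : ℝ, 0 < C1 ∧ ∀ T C : ℝ, 1 ≤ T → 0 ≤ C → ∀ N : ℕ,
    (N : ℝ) ≤ T → OD P T C N →
    T * IP P * D1 N - C1 * T - C * Z2 ≤ 2 * Real.pi * ‖∑' ρ : NT, h1 N P T ((ρ : ℂ) - 1 / 2) / deriv riemannZeta ρ‖ := by
  obtain ⟨K, hK0, hK⟩ := left_bd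
  have hCP := CP_nonneg P
  have hZ32 := Z32_nonneg
  refine ⟨K * Z32 * CP P * √Real.pi + 1, by positivity, fun T C hT hC N hN hOD => ?_⟩
  have hT0 : 0 < T := by linarith
  have e := ex hZ (h := h1 N P T) (by positivity) (by positivity) (h1_dec N P hT)
  have b1 := first_prime P hT hC hN hOD
  have b2 := left_part N P hK0 hK hT
  rw [FTT_zero P hT0] at b1
  obtain ⟨A, hA⟩ : ∃ A : ℂ, A = ∑' k : ℕ, muc k * JJ (h1 N P T) (Real.log k) := ⟨_, rfl⟩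
  obtain ⟨B, hB⟩ : ∃ B : ℂ, B = ∫ y : ℝ, (riemannZeta ⟨-1 / 2, y⟩)⁻¹ * h1 N P T ⟨-1, y⟩ := ⟨_, rfl⟩
  rw [← hA, ← hB] at e
  rw [← hA] at b1
  rw [← hB] at b2
  rw [e, norm_mul, norm_inv, Complex.norm_real, Real.norm_eq_abs, abs_of_pos (by positivity : 0 < 2 * Real.pi),
    mul_inv_cancel_left₀ (by positivity)]
  have h3 : T * IP P * D1 N ≤ ‖((D1 N : ℝ) : ℂ) * ((T * IP P : ℝ) : ℂ)‖ := by
    rw [← Complex.ofReal_mul, Complex.norm_real, Real.norm_eq_abs]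
    refine le_trans (le_of_eq ?_) (le_abs_self _)
    ring
  have h4 : ‖((D1 N : ℝ) : ℂ) * ((T * IP P : ℝ) : ℂ)‖ ≤ ‖A - B‖ + C * Z2 + K * Z32 * CP P * √Real.pi * T := by
    have e5 : ((D1 N : ℝ) : ℂ) * ((T * IP P : ℝ) : ℂ) = (A - B) - (A - ((D1 N : ℝ) : ℂ) * ((T * IP P : ℝ) : ℂ)) + B := by ring
    rw [e5]
    refine (norm_add_le _ _).trans (add_le_add ((norm_sub_le _ _).trans ?_) b2)
    rw [e5] at b1
    have : A - (A - B - (A - ((D1 N : ℝ) : ℂ) * ((T * IP P : ℝ) : ℂ)) + B) = A - ((D1 N : ℝ) : ℂ) * ((T * IP P : ℝ) : ℂ) := by ring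
    rw [this] at b1
    linarith
  nlinarith

/-! ## The second moment -/

lemma Ap_half (N : ℕ) (_hN : 1 ≤ N) : ‖Ap N (1 / 2)‖ ≤ N ∧ ‖Ap N (-(1 / 2))‖ ≤ 1 + Real.log N := by
  constructor
  · unfold Ap
    refine (norm_sum_le _ _).trans ?_
    have h : ∀ n ∈ Finset.Icc 1 N, ‖muc n * cexp (((1 / 2 : ℂ) - 1 / 2) * (Real.log n : ℝ))‖ ≤ 1 := by
      intro n _
      rw [sub_self, zero_mul, Complex.exp_zero, mul_one]
      exact muc_le n
    refine (Finset.sum_le_sum h).trans (le_of_eq ?_)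
    simp
  · unfold Ap
    refine (norm_sum_le _ _).trans ?_
    have h : ∀ n ∈ Finset.Icc 1 N, ‖muc n * cexp ((-(1 / 2 : ℂ) - 1 / 2) * (Real.log n : ℝ))‖ ≤ ((n : ℝ))⁻¹ := by
      intro n hn
      rw [Finset.mem_Icc] at hn
      rw [norm_mul, term_norm' n hn.1]
      have e : (-(1 / 2 : ℂ)).re - 1 / 2 = (-1 : ℝ) := by norm_num
      rw [e, Real.rpow_neg_one]
      exact mul_le_of_le_one_left (by positivity) (muc_le n)
    refine (Finset.sum_le_sum h).trans ?_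
    have h2 := harmonic_le_one_add_log N
    have h3 : ((harmonic N : ℚ) : ℝ) = ∑ n ∈ Finset.Icc 1 N, ((n : ℝ))⁻¹ := by
      rw [harmonic_eq_sum_Icc]
      push_cast
      rfl
    rw [← h3]
    exact h2

lemma h2_half (N : ℕ) (hN : 1 ≤ N) (P : Polynomial ℝ) {T : ℝ} (hT : 1 ≤ T) :
    ‖h2 N P T (1 / 2)‖ ≤ N * (1 + Real.log N) * CP P := by
  unfold h2
  rw [norm_mul, norm_mul]
  obtain ⟨a, b⟩ := Ap_half N hN
  have h3 := Ph_bd P hT (w := (1 / 2 : ℂ)) (by norm_num)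
  have e : ((1 / 2 : ℂ)).im = 0 := by norm_num
  rw [e] at h3
  have h4 : CP P * Real.exp (-(1 / T ^ 2) * 0 ^ 2) = CP P := by simp
  rw [h4] at h3
  have hlog : 0 ≤ Real.log N := Real.log_natCast_nonneg N
  exact mul_le_mul (mul_le_mul a b (norm_nonneg _) (by positivity)) h3 (norm_nonneg _) (by positivity)

lemma Lg_lin (y : ℝ) : Lg y ≤ 3 * (1 + |y|) := by
  unfold Lg
  have h := Real.log_le_sub_one_of_pos (x := 3 + |y|) (by positivity)
  linarith [abs_nonneg y]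

lemma DG_int (N : ℕ) (P : Polynomial ℝ) {T : ℝ} (hT : 1 ≤ T) :
    Integrable fun y : ℝ => (DG y : ℂ) * h2 N P T ⟨0, y⟩ := by
  obtain ⟨C, hC, hb⟩ := Pool.Agent.Y23.DG_bd
  refine Pool.Agent.Y23.dec_mul_int (φ := fun y => (DG y : ℂ)) (C := 3 * C) (Complex.continuous_ofReal.comp DG_cont) (fun y => ?_)
    (by positivity) (h2_dec N P hT) (by norm_num)
  rw [Complex.norm_real, Real.norm_eq_abs]
  have := Lg_lin y
  have h3 := hb y
  nlinarith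

lemma log_int (N : ℕ) (P : Polynomial ℝ) {T : ℝ} (hT : 1 ≤ T) (B : ℝ) (hB : 0 ≤ B) :
    Integrable fun y : ℝ => ((Real.log (2 + |y|) + B : ℝ) : ℂ) * h2 N P T ⟨0, y⟩ := by
  refine Pool.Agent.Y23.dec_mul_int (φ := fun y => ((Real.log (2 + |y|) + B : ℝ) : ℂ)) (C := 2 + B) ?_ (fun y => ?_)
    (by positivity) (h2_dec N P hT) (by norm_num)
  · refine Complex.continuous_ofReal.comp (Continuous.add ?_ continuous_const)
    refine Continuous.log (by fun_prop) (fun y => ?_)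
    positivity
  · rw [Complex.norm_real, Real.norm_eq_abs]
    have h := Real.log_le_sub_one_of_pos (x := 2 + |y|) (by positivity)
    have h0 : 0 ≤ Real.log (2 + |y|) := Real.log_nonneg (by linarith [abs_nonneg y])
    rw [abs_of_nonneg (by linarith)]
    nlinarith [abs_nonneg y]

end Pool.Agent.Y763.HB
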