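import Pool.Agent.Y763.HB.S3

/-! The second moment and the Cauchy-Schwarz inequality. -/

set_option autoImplicit false
set_option maxHeartbeats 2000000

open Complex Filter Topology Set MeasureTheory

namespace Pool.Agent.Y763.HB

open Pool.Agent.Y23 (Dec JJ ev ev_dec Lam Lam_zero DG DG_cont mu mu_pos Zt Lg)
open Pool.Agent.W120.WM (ZC NT)

/-- one term of the second moment -/
noncomputable def qq (N : ℕ) (P : Polynomial ℝ) (T : ℝ) (ρ : NT) : ℝ :=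
  ‖Ap N ⟨0, (ρ : ℂ).im⟩‖ ^ 2 * ph P ((ρ : ℂ).im / T)

lemma ph_nonneg {P : Polynomial ℝ} (hP : ∀ y ∈ Icc (0:ℝ) 1, 0 ≤ P.eval y) (x : ℝ) : 0 ≤ ph P x := by
  unfold ph
  refine mul_nonneg (hP _ ⟨(Real.exp_pos _).le, ?_⟩) (Real.exp_pos _).le
  rw [Real.exp_le_one_iff]
  nlinarith [sq_nonneg x]

lemma half_line (hZ : ZC) (ρ : NT) : (ρ : ℂ) - 1 / 2 = ⟨0, (ρ : ℂ).im⟩ := by
  have h := (hZ.1 ρ ρ.2).1
  apply Complex.ext
  · simp [h]
  · simp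

lemma qq_nonneg (N : ℕ) {P : Polynomial ℝ} (hP : ∀ y ∈ Icc (0:ℝ) 1, 0 ≤ P.eval y) (T : ℝ) (ρ : NT) :
    0 ≤ qq N P T ρ := mul_nonneg (by positivity) (ph_nonneg hP _)

lemma qq_summ_mu (hZ : ZC) (N : ℕ) {P : Polynomial ℝ} (hP : ∀ y ∈ Icc (0:ℝ) 1, 0 ≤ P.eval y) {T : ℝ} (hT : 1 ≤ T) :
    Summable fun ρ : NT => (mu ρ : ℝ) * qq N P T ρ := by
  have hCP := CP_nonneg P
  have h := Pool.Agent.Y23.dec_summable (by positivity) (by positivity) (h2_dec N P hT)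
  refine Summable.congr h fun ρ => ?_
  have e := half_line hZ ρ
  have e2 : h2 N P T ((ρ : ℂ) - 1 / 2) = ((qq N P T ρ : ℝ) : ℂ) := by
    rw [e, h2_line]
    rfl
  rw [e2, norm_mul, Complex.norm_natCast, Complex.norm_real, Real.norm_eq_abs, abs_of_nonneg (qq_nonneg N hP T ρ)]

lemma qq_summ (hZ : ZC) (N : ℕ) {P : Polynomial ℝ} (hP : ∀ y ∈ Icc (0:ℝ) 1, 0 ≤ P.eval y) {T : ℝ} (hT : 1 ≤ T) :
    Summable (qq N P T) := by
  refine Summable.of_nonneg_of_le (qq_nonneg N hP T) (fun ρ => ?_) (qq_summ_mu hZ N hP hT)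
  have h5 : (1:ℝ) ≤ mu ρ := by exact_mod_cast mu_pos ρ.2
  exact le_mul_of_one_le_left (qq_nonneg N hP T ρ) h5

/-- the explicit formula for the second moment, real form -/
lemma second_eq (hZ : ZC) (N : ℕ) {P : Polynomial ℝ} (hP : ∀ y ∈ Icc (0:ℝ) 1, 0 ≤ P.eval y) {T : ℝ} (hT : 1 ≤ T) :
    2 * Real.pi * ∑' ρ : NT, qq N P T ρ ≤ 4 * Real.pi * ‖h2 N P T (1 / 2)‖ +
      (∫ y : ℝ, DG y * (‖Ap N ⟨0, y⟩‖ ^ 2 * ph P (y / T))) -
      (∑' n : ℕ, Lam n * JJ (ev (h2 N P T)) (Real.log n)).re := by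
  have hCP := CP_nonneg P
  have e := Pool.Agent.Y23.explicit (by positivity) (by positivity) (h2_dec N P hT)
  have e1 : (∑' ρ : Zt, (mu ρ : ℂ) * h2 N P T ((ρ : ℂ) - 1 / 2)) = ((∑' ρ : NT, (mu ρ : ℝ) * qq N P T ρ : ℝ) : ℂ) := by
    rw [Complex.ofReal_tsum]
    refine tsum_congr fun ρ => ?_
    have e2 : h2 N P T ((ρ : ℂ) - 1 / 2) = ((qq N P T ρ : ℝ) : ℂ) := by
      rw [half_line hZ ρ, h2_line]
      rfl
    rw [e2]
    push_cast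
    rfl
  have e3 : (∫ y : ℝ, (DG y : ℂ) * h2 N P T ⟨0, y⟩) =
      ((∫ y : ℝ, DG y * (‖Ap N ⟨0, y⟩‖ ^ 2 * ph P (y / T)) : ℝ) : ℂ) := by
    rw [← integral_complex_ofReal]
    refine integral_congr_ae (Eventually.of_forall fun y => ?_)
    simp only
    rw [h2_line]
    push_cast
    rfl
  rw [e1, e3, h2_even] at e
  have e4 := congrArg Complex.re e
  have e5 : (2 * (Real.pi : ℂ) * ((∑' ρ : NT, (mu ρ : ℝ) * qq N P T ρ : ℝ) : ℂ)).re =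
      2 * Real.pi * ∑' ρ : NT, (mu ρ : ℝ) * qq N P T ρ := by
    have : (2 * (Real.pi : ℂ) * ((∑' ρ : NT, (mu ρ : ℝ) * qq N P T ρ : ℝ) : ℂ)) =
      ((2 * Real.pi * ∑' ρ : NT, (mu ρ : ℝ) * qq N P T ρ : ℝ) : ℂ) := by push_cast; ring
    rw [this, Complex.ofReal_re]
  rw [e5, Complex.sub_re, Complex.add_re, Complex.ofReal_re] at e4
  have e6 : (2 * (Real.pi : ℂ) * (h2 N P T (1 / 2) + h2 N P T (1 / 2))).re ≤ 4 * Real.pi * ‖h2 N P T (1 / 2)‖ := by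
    refine (Complex.re_le_norm _).trans (le_of_eq ?_)
    have : (2 * (Real.pi : ℂ) * (h2 N P T (1 / 2) + h2 N P T (1 / 2))) = ((4 * Real.pi : ℝ) : ℂ) * h2 N P T (1 / 2) := by
      push_cast
      ring
    rw [this, norm_mul, Complex.norm_real, Real.norm_eq_abs, abs_of_pos (by positivity)]
  have e7 : ∑' ρ : NT, qq N P T ρ ≤ ∑' ρ : NT, (mu ρ : ℝ) * qq N P T ρ := by
    refine (qq_summ hZ N hP hT).tsum_le_tsum (fun ρ => ?_) (qq_summ_mu hZ N hP hT)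
    have h5 : (1:ℝ) ≤ mu ρ := by exact_mod_cast mu_pos ρ.2
    exact le_mul_of_one_le_left (qq_nonneg N hP T ρ) h5
  have e8 := mul_le_mul_of_nonneg_left e7 (by positivity : 0 ≤ 2 * Real.pi)
  linarith

lemma Ap_sq (N : ℕ) (y : ℝ) : ‖Ap N ⟨0, y⟩‖ ≤ N := by
  unfold Ap
  refine (norm_sum_le _ _).trans ?_
  have h : ∀ n ∈ Finset.Icc 1 N, ‖muc n * cexp (((⟨0, y⟩ : ℂ) - 1 / 2) * (Real.log n : ℝ))‖ ≤ 1 := by
    intro n hn
    rw [Finset.mem_Icc] at hn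
    rw [norm_mul, term_norm' n hn.1]
    have hn1 : (1:ℝ) ≤ n := by exact_mod_cast hn.1
    have e : (⟨0, y⟩ : ℂ).re - 1 / 2 = -(1 / 2 : ℝ) := by norm_num
    rw [e]
    refine mul_le_one₀ (muc_le n) (by positivity) ?_
    exact Real.rpow_le_one_of_one_le_of_nonpos hn1 (by norm_num)
  refine (Finset.sum_le_sum h).trans (le_of_eq ?_)
  simp

lemma Ap_line_cont (N : ℕ) : Continuous fun y : ℝ => Ap N ⟨0, y⟩ := by
  have : (fun y : ℝ => Ap N ⟨0, y⟩) = fun y : ℝ => Ap N ((y : ℂ) * I) := by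
    funext y
    congr 1
    apply Complex.ext <;> simp
  rw [this]
  exact (Ap_diff N).continuous.comp (by fun_prop)

theorem second (hA : S_ARCH) (hZ : ZC) {P : Polynomial ℝ} (hP : ∀ y ∈ Icc (0:ℝ) 1, 0 ≤ P.eval y) {ε : ℝ}
    (hε : 0 < ε) : ∃ C2 : ℝ, 0 < C2 ∧ ∀ᶠ T : ℝ in atTop, ∀ C : ℝ, 0 ≤ C → ∀ N : ℕ, 1 ≤ N →
      (N : ℝ) ≤ T → N * (1 + Real.log N) ≤ T → OD P T C N →
      2 * Real.pi * ∑' ρ : NT, qq N P T ρ ≤
        (1 + ε) * Real.log T * (T * IP P * D1 N + C) - 2 * (T * IP P * D2 N) + 2 * C * ZL + C2 * T := by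
  obtain ⟨B, hB0, hB⟩ := DG_le
  have hCP := CP_nonneg P
  refine ⟨4 * Real.pi * CP P + 1, by positivity, ?_⟩
  filter_upwards [hA P hP B ε hε, eventually_ge_atTop (1:ℝ)] with T hT1 hT C hC N hN1 hN hNl hOD
  have hT0 : 0 < T := by linarith
  have h1 := second_eq hZ N hP hT
  have h2' := h2_half N hN1 P hT
  have h3 := second_prime P hT hC hN hOD
  have h4 := mean_line P hT hC hN hOD
  rw [FTT_zero P hT0] at h3 h4
  -- archimedean part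
  have h5 : (∫ y : ℝ, DG y * (‖Ap N ⟨0, y⟩‖ ^ 2 * ph P (y / T))) ≤
      ∫ y : ℝ, (Real.log (2 + |y|) + B) * (‖Ap N ⟨0, y⟩‖ ^ 2 * ph P (y / T)) := by
    refine integral_mono ?_ ?_ (fun y => ?_)
    · have := (DG_int N P hT).re
      refine this.congr (Eventually.of_forall fun y => ?_)
      simp only
      rw [h2_line, ← Complex.ofReal_mul]
      exact Complex.ofReal_re _
    · have := (log_int N P hT B hB0).re
      refine this.congr (Eventually.of_forall fun y => ?_)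
      simp only
      rw [h2_line, ← Complex.ofReal_mul]
      exact Complex.ofReal_re _
    · exact mul_le_mul_of_nonneg_right (hB y) (mul_nonneg (by positivity) (ph_nonneg hP _))
  have h6 := hT1 (fun y => ‖Ap N ⟨0, y⟩‖ ^ 2) ((Ap_line_cont N).norm.pow 2) (fun y => ⟨by positivity, by
    have := Ap_sq N y
    exact pow_le_pow_left₀ (norm_nonneg _) (this.trans hN) 2⟩)
  rw [← Complex.ofReal_mul, ← Complex.ofReal_sub, Complex.norm_real, Real.norm_eq_abs] at h4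
  have h7 := (abs_le.1 h4).2
  have h8 : (∫ y : ℝ, ‖Ap N ⟨0, y⟩‖ ^ 2 * ph P (y / T)) ≤ T * IP P * D1 N + C := by
    have : D1 N * (T * IP P) = T * IP P * D1 N := by ring
    linarith
  have hlog : 0 ≤ Real.log T := Real.log_nonneg hT
  have h9 := mul_le_mul_of_nonneg_left h8 (by positivity : 0 ≤ (1 + ε) * Real.log T)
  have h10 : -(∑' n : ℕ, Lam n * JJ (ev (h2 N P T)) (Real.log n)).re ≤ -(2 * (T * IP P * D2 N)) + 2 * C * ZL := by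
    have h11 := (Complex.abs_re_le_norm _).trans h3
    rw [Complex.sub_re] at h11
    have e : (2 * (((D2 N : ℝ) : ℂ) * ((T * IP P : ℝ) : ℂ))).re = 2 * (T * IP P * D2 N) := by
      have : (2 * (((D2 N : ℝ) : ℂ) * ((T * IP P : ℝ) : ℂ))) = ((2 * (T * IP P * D2 N) : ℝ) : ℂ) := by
        push_cast
        ring
      rw [this, Complex.ofReal_re]
    rw [e] at h11
    have := (abs_le.1 h11).1
    linarith
  have h12 : 4 * Real.pi * ‖h2 N P T (1 / 2)‖ ≤ 4 * Real.pi * CP P * T := by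
    have : ‖h2 N P T (1 / 2)‖ ≤ T * CP P := h2'.trans (by gcongr)
    calc 4 * Real.pi * ‖h2 N P T (1 / 2)‖ ≤ 4 * Real.pi * (T * CP P) := by gcongr
      _ = _ := by ring
  have h13 : (4 * Real.pi * CP P + 1) * T = 4 * Real.pi * CP P * T + T := by ring
  rw [h13]
  linarith

/-! ## Cauchy-Schwarz -/

/-- `1/|ζ'(ρ)|²` -/
noncomputable def zz (ρ : NT) : ℝ := 1 / ‖deriv riemannZeta ρ‖ ^ 2

lemma zz_nonneg (ρ : NT) : 0 ≤ zz ρ := by unfold zz; positivity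

lemma ph_decay (P : Polynomial ℝ) {T : ℝ} (hT : 1 ≤ T) (y : ℝ) :
    |ph P (y / T)| ≤ CP P * Real.exp (-(1 / T ^ 2) * y ^ 2) := by
  have h := Ph_bd P hT (w := ⟨0, y⟩) (by norm_num)
  rw [Ph_line, Complex.norm_real, Real.norm_eq_abs] at h
  exact h

lemma zz_summ (hZ : ZC) (P : Polynomial ℝ) {T : ℝ} (hT : 1 ≤ T) :
    Summable fun ρ : NT => zz ρ * ph P ((ρ : ℂ).im / T) := by
  have hT0 : 0 < T := by linarith
  have hCP := CP_nonneg P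
  rw [← summable_abs_iff]
  refine Summable.of_nonneg_of_le (fun ρ => abs_nonneg _) (fun ρ => ?_) (hZ.2.mul_left (2 * CP P * (1 + T ^ 2)))
  have h1 := ph_decay P hT (ρ : ℂ).im
  have hre := (hZ.1 ρ ρ.2).1
  have hne := norm_pos_iff.2 (hZ.1 ρ ρ.2).2
  have hρ : ‖(ρ : ℂ)‖ ^ 2 = 1 / 4 + (ρ : ℂ).im ^ 2 := by
    rw [← Complex.normSq_eq_norm_sq, Complex.normSq_apply, hre]
    ring
  obtain ⟨t, ht⟩ : ∃ t : ℝ, t = (ρ : ℂ).im := ⟨_, rfl⟩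
  rw [← ht] at h1 hρ ⊢
  have h2 : (1 / 4 + t ^ 2) * Real.exp (-(1 / T ^ 2) * t ^ 2) ≤ 2 * (1 + T ^ 2) := by
    have h3 := Real.add_one_le_exp (1 / T ^ 2 * t ^ 2)
    have h4 : Real.exp (-(1 / T ^ 2) * t ^ 2) = (Real.exp (1 / T ^ 2 * t ^ 2))⁻¹ := by
      rw [← Real.exp_neg]
      congr 1
      ring
    rw [h4, ← div_eq_mul_inv, div_le_iff₀ (Real.exp_pos _)]
    have h5 : (1 / T ^ 2 * t ^ 2) * T ^ 2 = t ^ 2 := by field_simp
    have h6 : 0 ≤ 1 / T ^ 2 * t ^ 2 := by positivity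
    nlinarith [mul_le_mul_of_nonneg_left h3 (by positivity : 0 ≤ 2 * (1 + T ^ 2)), sq_nonneg T]
  rw [abs_mul, abs_of_nonneg (zz_nonneg ρ)]
  have h7 : zz ρ = (1 / 4 + t ^ 2) * (1 / ‖(ρ : ℂ) * deriv riemannZeta ρ‖ ^ 2) := by
    unfold zz
    rw [norm_mul, mul_pow, hρ]
    have : 0 < 1 / 4 + t ^ 2 := by positivity
    field_simp
  rw [h7]
  have h8 : (0:ℝ) ≤ 1 / ‖(ρ : ℂ) * deriv riemannZeta ρ‖ ^ 2 := by positivity
  calc (1 / 4 + t ^ 2) * (1 / ‖(ρ : ℂ) * deriv riemannZeta ρ‖ ^ 2) * |ph P (t / T)| ≤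
      (1 / 4 + t ^ 2) * (1 / ‖(ρ : ℂ) * deriv riemannZeta ρ‖ ^ 2) * (CP P * Real.exp (-(1 / T ^ 2) * t ^ 2)) := by
        gcongr
    _ = CP P * (1 / ‖(ρ : ℂ) * deriv riemannZeta ρ‖ ^ 2) * ((1 / 4 + t ^ 2) * Real.exp (-(1 / T ^ 2) * t ^ 2)) := by ring
    _ ≤ CP P * (1 / ‖(ρ : ℂ) * deriv riemannZeta ρ‖ ^ 2) * (2 * (1 + T ^ 2)) := by gcongr
    _ = _ := by ring

/-- Cauchy-Schwarz in additive form -/
theorem cs (hZ : ZC) (N : ℕ) {P : Polynomial ℝ} (hP : ∀ y ∈ Icc (0:ℝ) 1, 0 ≤ P.eval y) {T : ℝ} (hT : 1 ≤ T)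
    {l : ℝ} (hl : 0 < l) :
    2 * ‖∑' ρ : NT, h1 N P T ((ρ : ℂ) - 1 / 2) / deriv riemannZeta ρ‖ ≤
      l * (∑' ρ : NT, zz ρ * ph P ((ρ : ℂ).im / T)) + (∑' ρ : NT, qq N P T ρ) / l := by
  have hCP := CP_nonneg P
  have hs := ex_summ hZ (h := h1 N P T) (by positivity) (by positivity) (h1_dec N P hT)
  have h2 : ‖∑' ρ : NT, h1 N P T ((ρ : ℂ) - 1 / 2) / deriv riemannZeta ρ‖ ≤
      ∑' ρ : NT, ‖h1 N P T ((ρ : ℂ) - 1 / 2) / deriv riemannZeta ρ‖ := norm_tsum_le_tsum_norm hs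
  have h3 : 2 * ∑' ρ : NT, ‖h1 N P T ((ρ : ℂ) - 1 / 2) / deriv riemannZeta ρ‖ ≤
      l * (∑' ρ : NT, zz ρ * ph P ((ρ : ℂ).im / T)) + (∑' ρ : NT, qq N P T ρ) / l := by
    rw [← tsum_mul_left, ← tsum_mul_left, ← tsum_div_const,
      ← ((zz_summ hZ P hT).mul_left l).tsum_add ((qq_summ hZ N hP hT).div_const l)]
    refine (hs.mul_left 2).tsum_le_tsum (fun ρ => ?_) (((zz_summ hZ P hT).mul_left l).add ((qq_summ hZ N hP hT).div_const l))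
    rw [half_line hZ ρ, norm_div]
    unfold h1 qq zz
    rw [norm_mul, Ph_line, Complex.norm_real, Real.norm_eq_abs, abs_of_nonneg (ph_nonneg hP _)]
    have hne := norm_pos_iff.2 (hZ.1 ρ ρ.2).2
    obtain ⟨a, ha⟩ : ∃ a : ℝ, a = ‖Ap N ⟨0, (ρ : ℂ).im⟩‖ := ⟨_, rfl⟩
    obtain ⟨d, hd⟩ : ∃ d : ℝ, d = ‖deriv riemannZeta (ρ : ℂ)‖ := ⟨_, rfl⟩
    obtain ⟨p, hp⟩ : ∃ p : ℝ, p = ph P ((ρ : ℂ).im / T) := ⟨_, rfl⟩
    have hp0 : 0 ≤ p := by rw [hp]; exact ph_nonneg hP _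
    rw [← hd] at hne
    rw [← ha, ← hd, ← hp]
    have key : 2 * (a / d) ≤ l * (1 / d ^ 2) + a ^ 2 / l := by
      have h5 : l * (1 / d ^ 2) + a ^ 2 / l - 2 * (a / d) = (l / d - a) ^ 2 / l := by
        field_simp
        ring
      have h6 : 0 ≤ (l / d - a) ^ 2 / l := by positivity
      linarith
    calc 2 * (a * p / d) = (2 * (a / d)) * p := by ring
      _ ≤ (l * (1 / d ^ 2) + a ^ 2 / l) * p := by gcongr
      _ = l * (1 / d ^ 2 * p) + a ^ 2 * p / l := by ring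
  linarith

end Pool.Agent.Y763.HB
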